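import Pool.Agent.Helper112.LS

/-!
The Fourier transform of the law of a number with independent digits, bounded by products over the digits of the
argument.
-/

set_option autoImplicit false

namespace Pool.Agent.L7h18.DG

open Finset
open Pool.Agent.Helper112

/-- a sum over the numbers below `a * c` as a double sum over the quotient and the remainder -/
lemma sum_split {α : Type*} [AddCommMonoid α] (a c : ℕ) (hc : 0 < c) (f : ℕ → ℕ → α) :
    ∑ u ∈ range (a * c), f (u / c) (u % c) = ∑ v ∈ range a, ∑ w ∈ range c, f v w := by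
  induction a with
  | zero => simp
  | succ a ih =>
    rw [Nat.succ_mul, sum_range_add, ih, sum_range_succ]
    congr 1
    refine sum_congr rfl fun w hw => ?_
    rw [mem_range] at hw
    rw [Nat.add_comm (a * c) w, Nat.add_mul_div_right _ _ hc, Nat.add_mul_mod_self_right,
      Nat.div_eq_of_lt hw, Nat.mod_eq_of_lt hw, Nat.zero_add]

/-- the Fourier transform of the law of a digit -/
noncomputable def phi (b : ℕ) (w : ℕ → ℝ) (θ : ℝ) : ℂ := ∑ d ∈ range b, (w d : ℂ) * ee (d * θ)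

/-- the weight of a number with `K` digits -/
noncomputable def Wt (b : ℕ) : ℕ → (ℕ → ℕ → ℝ) → ℕ → ℝ
  | 0, _, _ => 1
  | K + 1, w, c => w 0 (c % b) * Wt b K (fun i => w (i + 1)) (c / b)

/-- the Fourier transform of the law of a number with `K` digits -/
noncomputable def psi (b K : ℕ) (w : ℕ → ℕ → ℝ) (θ : ℝ) : ℂ := ∑ c ∈ range (b ^ K), (Wt b K w c : ℂ) * ee (c * θ)

/-- the digits have laws -/
def Law (b : ℕ) (w : ℕ → ℕ → ℝ) : Prop := ∀ i, (∀ d, 0 ≤ w i d) ∧ ∑ d ∈ range b, w i d = 1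

lemma Law.shift {b : ℕ} {w : ℕ → ℕ → ℝ} (h : Law b w) (r : ℕ) : Law b (fun i => w (i + r)) := fun i => h (i + r)

lemma Wt_nonneg {b : ℕ} (K : ℕ) : ∀ {w : ℕ → ℕ → ℝ}, Law b w → ∀ c, 0 ≤ Wt b K w c := by
  induction K with
  | zero => intro w _ c; exact zero_le_one
  | succ K ih =>
    intro w hw c
    exact mul_nonneg ((hw 0).1 _) (ih (hw.shift 1) _)

lemma sum_Wt {b : ℕ} (hb : 0 < b) (K : ℕ) : ∀ {w : ℕ → ℕ → ℝ}, Law b w → ∑ c ∈ range (b ^ K), Wt b K w c = 1 := by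
  induction K with
  | zero => intro w _; simp [Wt]
  | succ K ih =>
    intro w hw
    rw [pow_succ]
    have h := sum_split (b ^ K) b hb (fun v u => w 0 u * Wt b K (fun i => w (i + 1)) v)
    have e : ∑ c ∈ range (b ^ K * b), Wt b (K + 1) w c =
        ∑ c ∈ range (b ^ K * b), w 0 (c % b) * Wt b K (fun i => w (i + 1)) (c / b) := rfl
    rw [e, h]
    simp_rw [← sum_mul, (hw 0).2, one_mul]
    exact ih (hw.shift 1)

lemma psi_succ (b K : ℕ) (hb : 0 < b) (w : ℕ → ℕ → ℝ) (θ : ℝ) :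
    psi b (K + 1) w θ = phi b (w 0) θ * psi b K (fun i => w (i + 1)) (b * θ) := by
  unfold psi phi
  rw [pow_succ]
  have h := sum_split (b ^ K) b hb (fun v u => ((w 0 u : ℂ) * ee (u * θ)) *
    ((Wt b K (fun i => w (i + 1)) v : ℂ) * ee (v * (b * θ))))
  have e : ∑ c ∈ range (b ^ K * b), (Wt b (K + 1) w c : ℂ) * ee (c * θ) =
      ∑ c ∈ range (b ^ K * b), ((w 0 (c % b) : ℂ) * ee ((c % b : ℕ) * θ)) *
        ((Wt b K (fun i => w (i + 1)) (c / b) : ℂ) * ee ((c / b : ℕ) * (b * θ))) := by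
    refine sum_congr rfl fun c _ => ?_
    have e1 : Wt b (K + 1) w c = w 0 (c % b) * Wt b K (fun i => w (i + 1)) (c / b) := rfl
    have e2 : (c : ℝ) * θ = ((c % b : ℕ) : ℝ) * θ + ((c / b : ℕ) : ℝ) * (b * θ) := by
      have h1 : ((c % b : ℕ) : ℝ) + (b : ℝ) * ((c / b : ℕ) : ℝ) = c := by
        exact_mod_cast Nat.mod_add_div c b
      rw [← h1]
      ring
    rw [e1, e2, ls_ee_add]
    push_cast
    ring
  rw [e, h, sum_comm, sum_mul_sum]

lemma psi_zero (b : ℕ) (w : ℕ → ℕ → ℝ) (θ : ℝ) : psi b 0 w θ = 1 := by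
  unfold psi
  simp [Wt, ls_ee_zero]

lemma psi_add (b : ℕ) (hb : 0 < b) (s : ℕ) (r : ℕ) : ∀ (w : ℕ → ℕ → ℝ) (θ : ℝ),
    psi b (r + s) w θ = psi b r w θ * psi b s (fun i => w (i + r)) ((b : ℝ) ^ r * θ) := by
  induction r with
  | zero => intro w θ; rw [psi_zero, one_mul, pow_zero, one_mul, Nat.zero_add]; rfl
  | succ r ih =>
    intro w θ
    rw [show r + 1 + s = (r + s) + 1 by ring, psi_succ b _ hb, ih, psi_succ b r hb, mul_assoc]
    congr 2
    have : (b : ℝ) ^ r * (b * θ) = (b : ℝ) ^ (r + 1) * θ := by ring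
    rw [this]
    rfl

lemma phi_le_one {b : ℕ} {w : ℕ → ℝ} (h0 : ∀ d, 0 ≤ w d) (h1 : ∑ d ∈ range b, w d = 1) (θ : ℝ) :
    ‖phi b w θ‖ ≤ 1 := by
  unfold phi
  refine (norm_sum_le _ _).trans ?_
  rw [← h1]
  refine sum_le_sum fun d _ => ?_
  rw [norm_mul, ls_norm_ee, mul_one, Complex.norm_real, Real.norm_of_nonneg (h0 d)]

lemma psi_le_one {b K : ℕ} (hb : 0 < b) {w : ℕ → ℕ → ℝ} (hw : Law b w) (θ : ℝ) : ‖psi b K w θ‖ ≤ 1 := by
  unfold psi
  refine (norm_sum_le _ _).trans ?_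
  rw [← sum_Wt hb K hw]
  refine sum_le_sum fun c _ => ?_
  rw [norm_mul, ls_norm_ee, mul_one, Complex.norm_real, Real.norm_of_nonneg (Wt_nonneg K hw c)]

lemma ee_add_int (x : ℝ) (n : ℤ) : ee (x + n) = ee x := by rw [ls_ee_add, ls_ee_int, mul_one]

lemma psi_per (b K : ℕ) (w : ℕ → ℕ → ℝ) (θ : ℝ) (n : ℤ) : psi b K w (θ + n) = psi b K w θ := by
  unfold psi
  refine sum_congr rfl fun c _ => ?_
  congr 1
  have : (c : ℝ) * (θ + n) = c * θ + ((c * n : ℤ) : ℝ) := by push_cast; ring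
  rw [this, ee_add_int]

lemma psi_neg (b K : ℕ) (w : ℕ → ℕ → ℝ) (θ : ℝ) : ‖psi b K w (-θ)‖ = ‖psi b K w θ‖ := by
  have h : psi b K w (-θ) = (starRingEnd ℂ) (psi b K w θ) := by
    unfold psi
    rw [map_sum]
    refine sum_congr rfl fun c _ => ?_
    rw [map_mul, ls_conj_ee, Complex.conj_ofReal, mul_neg]
  rw [h, RCLike.norm_conj]

/-- the product over the digits of `u` -/
noncomputable def HH (b : ℕ) : ℕ → (ℕ → ℕ → ℝ) → ℕ → ℝ
  | 0, _, _ => 1
  | r + 1, h, u => h 0 (u / b ^ r) * HH b r (fun i => h (i + 1)) (u % b ^ r)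

/-- `h` bounds the Fourier transform of `w` on the intervals `[v / b, (v + 1) / b]` -/
def Cell (b : ℕ) (w h : ℕ → ℝ) : Prop :=
  ∀ v < b, ∀ θ : ℝ, (v : ℝ) / b ≤ θ → θ ≤ ((v : ℝ) + 1) / b → ‖phi b w θ‖ ≤ h v

lemma HH_nonneg (b r : ℕ) : ∀ (h : ℕ → ℕ → ℝ), (∀ i v, 0 ≤ h i v) → ∀ u, 0 ≤ HH b r h u := by
  induction r with
  | zero => intro h _ u; exact zero_le_one
  | succ r ih => intro h hh u; exact mul_nonneg (hh 0 _) (ih _ (fun i v => hh (i + 1) v) _)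

lemma sum_HH (b : ℕ) (hb : 0 < b) (B : ℝ) (hB : 0 ≤ B) (r : ℕ) : ∀ (h : ℕ → ℕ → ℝ), (∀ i v, 0 ≤ h i v) →
    (∀ i, ∑ v ∈ range b, h i v ≤ B) → ∑ u ∈ range (b ^ r), HH b r h u ≤ B ^ r := by
  induction r with
  | zero => intro h _ _; simp [HH]
  | succ r ih =>
    intro h hh hs
    rw [pow_succ', pow_succ']
    have e : ∑ u ∈ range (b * b ^ r), HH b (r + 1) h u =
        ∑ u ∈ range (b * b ^ r), h 0 (u / b ^ r) * HH b r (fun i => h (i + 1)) (u % b ^ r) := rfl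
    rw [e, sum_split b (b ^ r) (Nat.pow_pos hb) (fun v u => h 0 v * HH b r (fun i => h (i + 1)) u), ← sum_mul_sum]
    exact mul_le_mul (hs 0) (ih _ (fun i v => hh (i + 1) v) (fun i => hs (i + 1)))
      (sum_nonneg fun u _ => HH_nonneg b r _ (fun i v => hh (i + 1) v) u) hB

lemma psi_le_HH (b : ℕ) (hb : 0 < b) (r : ℕ) : ∀ (w h : ℕ → ℕ → ℝ), (∀ i v, 0 ≤ h i v) → (∀ i, Cell b (w i) (h i)) →
    ∀ (u : ℕ) (θ : ℝ), u < b ^ r → (u : ℝ) / (b : ℝ) ^ r ≤ θ → θ ≤ ((u : ℝ) + 1) / (b : ℝ) ^ r →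
    ‖psi b r w θ‖ ≤ HH b r h u := by
  induction r with
  | zero => intro w h _ _ u θ _ _ _; rw [psi_zero, norm_one]; exact le_rfl
  | succ r ih =>
    intro w h hh hc u θ hu h1 h2
    have hb0 : (0 : ℝ) < b := by exact_mod_cast hb
    have hbr : 0 < b ^ r := Nat.pow_pos hb
    have hbr0 : (0 : ℝ) < (b : ℝ) ^ r := by positivity
    have hv : u / b ^ r < b := by
      rw [Nat.div_lt_iff_lt_mul hbr, ← pow_succ']
      exact hu
    have hdm : ((u / b ^ r : ℕ) : ℝ) * (b : ℝ) ^ r + ((u % b ^ r : ℕ) : ℝ) = u := by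
      have := Nat.div_add_mod' u (b ^ r)
      exact_mod_cast this
    have hm0 : (0 : ℝ) ≤ ((u % b ^ r : ℕ) : ℝ) := Nat.cast_nonneg _
    have hm1 : ((u % b ^ r : ℕ) : ℝ) + 1 ≤ (b : ℝ) ^ r := by
      exact_mod_cast (Nat.mod_lt u hbr)
    rw [pow_succ, div_le_iff₀ (by positivity)] at h1
    rw [pow_succ, le_div_iff₀ (by positivity)] at h2
    rw [psi_succ b r hb, norm_mul]
    show _ ≤ h 0 (u / b ^ r) * HH b r (fun i => h (i + 1)) (u % b ^ r)
    have e : ‖psi b r (fun i => w (i + 1)) (b * θ)‖ =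
        ‖psi b r (fun i => w (i + 1)) (b * θ - ((u / b ^ r : ℕ) : ℝ))‖ := by
      have h3 := psi_per b r (fun i => w (i + 1)) (b * θ - ((u / b ^ r : ℕ) : ℝ)) ((u / b ^ r : ℕ) : ℤ)
      rw [Int.cast_natCast, sub_add_cancel] at h3
      rw [h3]
    rw [e]
    refine mul_le_mul (hc 0 _ hv θ ?_ ?_) (ih _ _ (fun i v => hh (i + 1) v) (fun i => hc (i + 1)) _ _
      (Nat.mod_lt u hbr) ?_ ?_) (norm_nonneg _) (hh 0 _)
    · rw [div_le_iff₀ hb0]
      have h4 : ((u / b ^ r : ℕ) : ℝ) * (b : ℝ) ^ r ≤ (θ * b) * (b : ℝ) ^ r := by linarith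
      exact le_of_mul_le_mul_right h4 hbr0
    · rw [le_div_iff₀ hb0]
      have h4 : (θ * b) * (b : ℝ) ^ r ≤ (((u / b ^ r : ℕ) : ℝ) + 1) * (b : ℝ) ^ r := by linarith
      exact le_of_mul_le_mul_right h4 hbr0
    · rw [div_le_iff₀ hbr0]
      linarith
    · rw [le_div_iff₀ hbr0]
      linarith

/-- the leading and the last digits of the argument -/
theorem psi_two (b K L r s : ℕ) (hb : 0 < b) (hrs : r + s ≤ K) (hKL : K ≤ L) (w h : ℕ → ℕ → ℝ) (hw : Law b w)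
    (hh : ∀ i v, 0 ≤ h i v) (hc : ∀ i, Cell b (w i) (h i)) (x : ℕ) (hx : x < b ^ L) :
    ‖psi b K w ((x : ℝ) / (b : ℝ) ^ L)‖ ≤ HH b r h (x / b ^ (L - r)) *
      HH b s (fun i => h (i + (K - s))) ((x % b ^ (L - K + s)) / b ^ (L - K)) := by
  have hb0 : (0 : ℝ) < b := by exact_mod_cast hb
  obtain ⟨m, rfl⟩ : ∃ m, K = r + (m + s) := ⟨K - r - s, by omega⟩
  obtain ⟨l, rfl⟩ : ∃ l, L = r + (m + s) + l := ⟨L - (r + (m + s)), by omega⟩
  have e1 : r + (m + s) + l - r = m + s + l := by omega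
  have e2 : r + (m + s) + l - (r + (m + s)) = l := by omega
  have e3 : r + (m + s) - s = r + m := by omega
  rw [e1, e2, e3, psi_add b hb, psi_add b hb, norm_mul, norm_mul]
  set θ : ℝ := (x : ℝ) / (b : ℝ) ^ (r + (m + s) + l) with hθ
  have hA : ‖psi b r w θ‖ ≤ HH b r h (x / b ^ (m + s + l)) := by
    have hpos : 0 < b ^ (m + s + l) := Nat.pow_pos hb
    have hpos' : (0 : ℝ) < (b : ℝ) ^ (m + s + l) := by positivity
    have hdm : ((x / b ^ (m + s + l) : ℕ) : ℝ) * (b : ℝ) ^ (m + s + l) + ((x % b ^ (m + s + l) : ℕ) : ℝ) = x := by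
      exact_mod_cast Nat.div_add_mod' x (b ^ (m + s + l))
    have hm0 : (0 : ℝ) ≤ ((x % b ^ (m + s + l) : ℕ) : ℝ) := Nat.cast_nonneg _
    have hm1 : ((x % b ^ (m + s + l) : ℕ) : ℝ) + 1 ≤ (b : ℝ) ^ (m + s + l) := by
      exact_mod_cast (Nat.mod_lt x hpos)
    have hbr0 : (0 : ℝ) < (b : ℝ) ^ r := by positivity
    have e4 : (b : ℝ) ^ (r + (m + s) + l) = (b : ℝ) ^ r * (b : ℝ) ^ (m + s + l) := by
      rw [← pow_add]; congr 1; ring
    apply psi_le_HH b hb r w h hh hc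
    · rw [Nat.div_lt_iff_lt_mul hpos, ← pow_add]
      rw [show r + (m + s) + l = r + (m + s + l) by ring] at hx
      exact hx
    · rw [hθ, e4, div_le_div_iff₀ hbr0 (by positivity)]
      have : ((x / b ^ (m + s + l) : ℕ) : ℝ) * ((b : ℝ) ^ r * (b : ℝ) ^ (m + s + l)) =
          (((x / b ^ (m + s + l) : ℕ) : ℝ) * (b : ℝ) ^ (m + s + l)) * (b : ℝ) ^ r := by ring
      rw [this]
      apply mul_le_mul_of_nonneg_right _ hbr0.le
      linarith
    · rw [hθ, e4, div_le_div_iff₀ (by positivity) hbr0]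
      have : (((x / b ^ (m + s + l) : ℕ) : ℝ) + 1) * ((b : ℝ) ^ r * (b : ℝ) ^ (m + s + l)) =
          ((((x / b ^ (m + s + l) : ℕ) : ℝ) + 1) * (b : ℝ) ^ (m + s + l)) * (b : ℝ) ^ r := by ring
      rw [this]
      apply mul_le_mul_of_nonneg_right _ hbr0.le
      linarith
  have hB : ‖psi b m (fun i => w (i + r)) ((b : ℝ) ^ r * θ)‖ ≤ 1 := psi_le_one hb (hw.shift r) _
  have hC : ‖psi b s (fun i => (fun i => w (i + r)) (i + m)) ((b : ℝ) ^ m * ((b : ℝ) ^ r * θ))‖ ≤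
      HH b s (fun i => h (i + (r + m))) (x % b ^ (l + s) / b ^ l) := by
    have hpos : 0 < b ^ (l + s) := Nat.pow_pos hb
    have hposl : 0 < b ^ l := Nat.pow_pos hb
    have hpos' : (0 : ℝ) < (b : ℝ) ^ (l + s) := by positivity
    obtain ⟨y, hy⟩ : ∃ y, y = x % b ^ (l + s) := ⟨_, rfl⟩
    rw [← hy]
    have hyl : y < b ^ (l + s) := by rw [hy]; exact Nat.mod_lt x hpos
    have e5 : (b : ℝ) ^ m * ((b : ℝ) ^ r * θ) = (y : ℝ) / (b : ℝ) ^ (l + s) + ((x / b ^ (l + s) : ℕ) : ℤ) := by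
      have hdm : ((x / b ^ (l + s) : ℕ) : ℝ) * (b : ℝ) ^ (l + s) + (y : ℝ) = x := by
        rw [hy]; exact_mod_cast Nat.div_add_mod' x (b ^ (l + s))
      rw [Int.cast_natCast, hθ, ← hdm]
      have : (b : ℝ) ^ (r + (m + s) + l) = (b : ℝ) ^ m * (b : ℝ) ^ r * (b : ℝ) ^ (l + s) := by
        rw [← pow_add, ← pow_add]; congr 1; ring
      rw [this]
      field_simp
      ring
    rw [e5, psi_per]
    have hdm : ((y / b ^ l : ℕ) : ℝ) * (b : ℝ) ^ l + ((y % b ^ l : ℕ) : ℝ) = y := by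
      exact_mod_cast Nat.div_add_mod' y (b ^ l)
    have hm0 : (0 : ℝ) ≤ ((y % b ^ l : ℕ) : ℝ) := Nat.cast_nonneg _
    have hm1 : ((y % b ^ l : ℕ) : ℝ) + 1 ≤ (b : ℝ) ^ l := by
      exact_mod_cast (Nat.mod_lt y hposl)
    have hbs0 : (0 : ℝ) < (b : ℝ) ^ s := by positivity
    have hbl0 : (0 : ℝ) < (b : ℝ) ^ l := by positivity
    apply psi_le_HH b hb s _ _ (fun i v => hh _ v)
    · intro i
      have := hc (i + (r + m))
      rw [show i + (r + m) = i + m + r by ring] at this ⊢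
      exact this
    · rw [Nat.div_lt_iff_lt_mul hposl, ← pow_add, Nat.add_comm s l]
      exact hyl
    · rw [pow_add, div_le_div_iff₀ hbs0 (by positivity)]
      have : ((y / b ^ l : ℕ) : ℝ) * ((b : ℝ) ^ l * (b : ℝ) ^ s) = (((y / b ^ l : ℕ) : ℝ) * (b : ℝ) ^ l) * (b : ℝ) ^ s := by
        ring
      rw [this]
      apply mul_le_mul_of_nonneg_right _ hbs0.le
      linarith
    · rw [pow_add, div_le_div_iff₀ (by positivity) hbs0]
      have : (((y / b ^ l : ℕ) : ℝ) + 1) * ((b : ℝ) ^ l * (b : ℝ) ^ s) =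
          ((((y / b ^ l : ℕ) : ℝ) + 1) * (b : ℝ) ^ l) * (b : ℝ) ^ s := by
        ring
      rw [this]
      apply mul_le_mul_of_nonneg_right _ hbs0.le
      linarith
  have hHr := HH_nonneg b r h hh (x / b ^ (m + s + l))
  have hD : ‖psi b m (fun i => w (i + r)) ((b : ℝ) ^ r * θ)‖ *
      ‖psi b s (fun i => (fun i => w (i + r)) (i + m)) ((b : ℝ) ^ m * ((b : ℝ) ^ r * θ))‖ ≤
      1 * HH b s (fun i => h (i + (r + m))) (x % b ^ (l + s) / b ^ l) :=
    mul_le_mul hB hC (norm_nonneg _) zero_le_one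
  rw [one_mul] at hD
  exact mul_le_mul hA hD (mul_nonneg (norm_nonneg _) (norm_nonneg _)) hHr

end Pool.Agent.L7h18.DG
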