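import Pool.Agent.L7h18.DG.A1

/-!
The sum of the Fourier transform of the law of a number with independent digits over major arcs.
-/

set_option autoImplicit false

namespace Pool.Agent.L7h18.DG

open Finset
open Pool.Agent.Helper112

/-- `θ` is near a fraction with a denominator at most `W` -/
def Maj (W : ℕ) (η : ℝ) (θ : ℝ) : Prop := ∃ q : ℕ, 1 ≤ q ∧ q ≤ W ∧ ∃ a : ℤ, |q * θ - a| ≤ η

lemma maj_near (W : ℕ) (η δ : ℝ) (θ θ' : ℝ) (e : ℤ) (h : Maj W η θ) (h' : Maj W η θ') (hδ : |θ - θ' - e| < δ)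
    (hW : (δ + 2 * η) * (W : ℝ) ^ 2 ≤ 1) : |θ - θ' - e| ≤ 2 * η := by
  obtain ⟨q, hq1, hqW, a, ha⟩ := h
  obtain ⟨q', hq1', hqW', a', ha'⟩ := h'
  have hη : 0 ≤ η := (abs_nonneg _).trans ha
  have hq : (1 : ℝ) ≤ q := by exact_mod_cast hq1
  have hq' : (1 : ℝ) ≤ q' := by exact_mod_cast hq1'
  have hqW2 : (q : ℝ) ≤ W := by exact_mod_cast hqW
  have hqW2' : (q' : ℝ) ≤ W := by exact_mod_cast hqW'
  have h1 : |θ - a / q| ≤ η := by
    have : θ - a / q = (q * θ - a) / q := by field_simp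
    rw [this, abs_div, abs_of_pos (by linarith : (0 : ℝ) < q), div_le_iff₀ (by linarith)]
    nlinarith
  have h1' : |θ' - a' / q'| ≤ η := by
    have : θ' - a' / q' = (q' * θ' - a') / q' := by field_simp
    rw [this, abs_div, abs_of_pos (by linarith : (0 : ℝ) < q'), div_le_iff₀ (by linarith)]
    nlinarith
  have h2 : |(a : ℝ) / q - a' / q' - e| < δ + 2 * η := by
    have : (a : ℝ) / q - a' / q' - e = (θ - θ' - e) - (θ - a / q) + (θ' - a' / q') := by ring
    rw [this]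
    have h3 := abs_add_le ((θ - θ' - e) - (θ - a / q)) (θ' - a' / q')
    have h4 := abs_sub (θ - θ' - e) (θ - a / q)
    linarith
  have h3 : (a : ℝ) / q - a' / q' - e = ((a * q' - a' * q - e * q * q' : ℤ) : ℝ) / (q * q') := by
    push_cast
    field_simp
  have h4 : a * q' - a' * q - e * q * q' = 0 := by
    by_contra hne
    have h5 : (1 : ℝ) ≤ |((a * q' - a' * q - e * q * q' : ℤ) : ℝ)| := by
      exact_mod_cast Int.one_le_abs hne
    rw [h3, abs_div, abs_of_pos (by positivity : (0 : ℝ) < q * q'), div_lt_iff₀ (by positivity)] at h2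
    have h6 : (q : ℝ) * q' ≤ (W : ℝ) ^ 2 := by
      rw [sq]
      exact mul_le_mul hqW2 hqW2' (by linarith) (by linarith)
    have h7 : 0 ≤ δ + 2 * η := by
      have := (abs_nonneg _).trans_lt hδ
      linarith
    have h8 := mul_le_mul_of_nonneg_left h6 h7
    linarith
  have h5 : θ - θ' - e = (θ - a / q) - (θ' - a' / q') := by
    have h6 : (a : ℝ) / q - a' / q' - e = 0 := by rw [h3, h4]; simp
    linarith
  rw [h5]
  have := abs_sub (θ - a / q) (θ' - a' / q')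
  linarith

/-- a sum over a set the intersections of which with the intervals `[u D, (u + 1) D)` have a small diameter -/
lemma grouping (N D m T : ℕ) (hD : 0 < D) (hm : 0 < m) (hN : N ≤ T * D) (S : Finset ℕ) (hS : ∀ x ∈ S, x < N)
    (hdiam : ∀ x ∈ S, ∀ y ∈ S, x / D = y / D → x < y + m) (f g : ℕ → ℝ) (hf : ∀ u, 0 ≤ f u) (hg : ∀ v, 0 ≤ g v) :
    ∑ x ∈ S, f (x / D) * g (x % m) ≤ (∑ u ∈ range T, f u) * ∑ v ∈ range m, g v := by
  classical
  have hmap : ∀ x ∈ S, x / D ∈ range T := by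
    intro x hx
    rw [mem_range, Nat.div_lt_iff_lt_mul hD]
    exact (hS x hx).trans_le hN
  rw [← sum_fiberwise_of_maps_to hmap, sum_mul]
  refine sum_le_sum fun u _ => ?_
  have h1 : ∑ x ∈ S.filter (fun x => x / D = u), f (x / D) * g (x % m) =
      f u * ∑ x ∈ S.filter (fun x => x / D = u), g (x % m) := by
    rw [mul_sum]
    refine sum_congr rfl fun x hx => ?_
    rw [(mem_filter.1 hx).2]
  rw [h1]
  apply mul_le_mul_of_nonneg_left _ (hf u)
  have hinj : Set.InjOn (fun x => x % m) ((S.filter (fun x => x / D = u) : Finset ℕ) : Set ℕ) := by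
    intro x hx y hy hxy
    rw [mem_coe, mem_filter] at hx hy
    have h2 := hdiam x hx.1 y hy.1 (by rw [hx.2, hy.2])
    have h3 := hdiam y hy.1 x hx.1 (by rw [hx.2, hy.2])
    have h4 : x ≡ y [MOD m] := hxy
    rcases le_total x y with h | h
    · have h5 := (Nat.modEq_iff_dvd' h).1 h4
      have h6 := Nat.eq_zero_of_dvd_of_lt h5 (by omega)
      omega
    · have h5 := (Nat.modEq_iff_dvd' h).1 h4.symm
      have h6 := Nat.eq_zero_of_dvd_of_lt h5 (by omega)
      omega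
  rw [← sum_image (f := g) (fun x hx y hy => hinj hx hy)]
  apply sum_le_sum_of_subset_of_nonneg
  · intro v hv
    rw [mem_image] at hv
    obtain ⟨x, _, rfl⟩ := hv
    exact mem_range.2 (Nat.mod_lt _ hm)
  · intro v _ _
    exact hg v

/-- the differences `j - j0` modulo `R` -/
def dif (R j0 j : ℕ) : ℕ := (j + (R - j0)) % R

lemma dif_lt {R : ℕ} (hR : 0 < R) (j0 j : ℕ) : dif R j0 j < R := Nat.mod_lt _ hR

lemma dif_spec {R : ℕ} (hR : 0 < R) (j0 j : ℕ) (hj0 : j0 ≤ R) :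
    ∃ e : ℤ, ((dif R j0 j : ℕ) : ℝ) / R = ((j : ℝ) - j0) / R + e := by
  obtain ⟨Q, hQ⟩ : ∃ Q, Q = (j + (R - j0)) / R := ⟨_, rfl⟩
  refine ⟨1 - (Q : ℤ), ?_⟩
  have h1 : ((dif R j0 j : ℕ) : ℝ) + R * (Q : ℝ) = j + (R - j0) := by
    have := Nat.mod_add_div (j + (R - j0)) R
    rw [← hQ] at this
    have h2 : (((j + (R - j0) : ℕ)) : ℝ) = j + (R - j0) := by
      rw [Nat.cast_add, Nat.cast_sub hj0]
    rw [← h2]
    exact_mod_cast this
  have hR0 : (0 : ℝ) < R := by exact_mod_cast hR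
  have h2 : ((dif R j0 j : ℕ) : ℝ) = j + (R - j0) - R * (Q : ℝ) := by linarith
  rw [h2]
  push_cast
  field_simp
  ring

lemma dif_inj {R : ℕ} (_hR : 0 < R) (j0 : ℕ) {j j' : ℕ} (hj : j < R) (hj' : j' < R) (h : dif R j0 j = dif R j0 j') :
    j = j' := by
  have h1 : j + (R - j0) ≡ j' + (R - j0) [MOD R] := h
  have h2 : j ≡ j' [MOD R] := Nat.ModEq.add_right_cancel' _ h1
  have h3 : j % R = j' % R := h2
  rwa [Nat.mod_eq_of_lt hj, Nat.mod_eq_of_lt hj'] at h3

/-- the psi of a difference -/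
lemma psi_dif (b K : ℕ) (w : ℕ → ℕ → ℝ) {R : ℕ} (hR : 0 < R) (j0 j : ℕ) (hj0 : j0 ≤ R) :
    psi b K w (((j : ℝ) - j0) / R) = psi b K w (((dif R j0 j : ℕ) : ℝ) / R) := by
  obtain ⟨e, he⟩ := dif_spec hR j0 j hj0
  rw [he, psi_per]

open Classical in
/-- sums over major arcs -/
theorem maj_sum (R D m T W j0 : ℕ) (η : ℝ) (hR : 0 < R) (hD : 0 < D) (hm : 0 < m) (hRT : R ≤ T * D) (hj0 : j0 ≤ R)
    (hW : ((D : ℝ) / R + 2 * η) * (W : ℝ) ^ 2 ≤ 1) (hηm : 2 * η * R < m) (f g : ℕ → ℝ) (hf : ∀ u, 0 ≤ f u)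
    (hg : ∀ v, 0 ≤ g v) :
    ∑ j ∈ (range R).filter (fun j : ℕ => Maj W η ((j : ℝ) / R)), f (dif R j0 j / D) * g (dif R j0 j % m) ≤
      (∑ u ∈ range T, f u) * ∑ v ∈ range m, g v := by
  have hR0 : (0 : ℝ) < R := by exact_mod_cast hR
  set S := (range R).filter (fun j : ℕ => Maj W η ((j : ℝ) / R)) with hS
  have hinj : Set.InjOn (dif R j0) (S : Set ℕ) := by
    intro x hx y hy hxy
    rw [mem_coe, hS, mem_filter, mem_range] at hx hy
    exact dif_inj hR j0 hx.1 hy.1 hxy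
  rw [← sum_image (f := fun x => f (x / D) * g (x % m)) (fun x hx y hy => hinj hx hy)]
  apply grouping R D m T hD hm hRT _ _ _ f g hf hg
  · intro x hx
    rw [mem_image] at hx
    obtain ⟨j, _, rfl⟩ := hx
    exact dif_lt hR j0 j
  · intro x hx y hy hxy
    rw [mem_image] at hx hy
    obtain ⟨j, hj, rfl⟩ := hx
    obtain ⟨j', hj', rfl⟩ := hy
    rw [hS, mem_filter, mem_range] at hj hj'
    obtain ⟨e, he⟩ := dif_spec hR j0 j hj0
    obtain ⟨e', he'⟩ := dif_spec hR j0 j' hj0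
    set x := dif R j0 j with hx
    set y := dif R j0 j' with hy
    have h1 : (j : ℝ) / R - j' / R - ((e' - e : ℤ) : ℝ) = ((x : ℝ) - y) / R := by
      have e1 : (x : ℝ) / R - y / R = ((j : ℝ) - j0) / R + e - (((j' : ℝ) - j0) / R + e') := by rw [he, he']
      push_cast
      rw [sub_div] at *
      have e2 : ((j' : ℝ) - j0) / R = j' / R - j0 / R := sub_div _ _ _
      rw [e2] at e1
      linarith
    have h2 : |((x : ℝ) - y) / R| < (D : ℝ) / R := by
      rw [abs_div, abs_of_pos hR0]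
      apply div_lt_div_of_pos_right _ hR0
      have h3 := Nat.div_add_mod x D
      have h4 := Nat.div_add_mod y D
      have h5 := Nat.mod_lt x hD
      have h6 := Nat.mod_lt y hD
      rw [hxy] at h3
      rw [abs_lt]
      constructor
      · have : (y : ℝ) < x + D := by exact_mod_cast (by omega : y < x + D)
        linarith
      · have : (x : ℝ) < y + D := by exact_mod_cast (by omega : x < y + D)
        linarith
    have h3 := maj_near W η ((D : ℝ) / R) _ _ (e' - e) hj.2 hj'.2 (by rw [h1]; exact h2) hW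
    rw [h1, abs_div, abs_of_pos hR0, div_le_iff₀ hR0] at h3
    have h4 : (x : ℝ) - y < m := (le_abs_self _).trans_lt (h3.trans_lt hηm)
    have h5 : (x : ℝ) < ((y + m : ℕ) : ℝ) := by push_cast; linarith
    exact_mod_cast h5

open Classical in
/-- the number of the points on major arcs -/
theorem maj_card (R D m T W : ℕ) (η : ℝ) (hR : 0 < R) (hD : 0 < D) (hm : 0 < m) (hRT : R ≤ T * D)
    (hW : ((D : ℝ) / R + 2 * η) * (W : ℝ) ^ 2 ≤ 1) (hηm : 2 * η * R < m) :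
    ((((range R).filter (fun j : ℕ => Maj W η ((j : ℝ) / R))).card : ℕ) : ℝ) ≤ T * m := by
  have h := maj_sum R D m T W 0 η hR hD hm hRT (Nat.zero_le _) hW hηm (fun _ => 1) (fun _ => 1)
    (fun _ => zero_le_one) (fun _ => zero_le_one)
  simpa using h

open Classical in
/-- the sum of the Fourier transform over major arcs -/
theorem psi_maj (b K L r s W j0 : ℕ) (hb : 0 < b) (hrs : r + s ≤ K) (hKL : K ≤ L) (w h : ℕ → ℕ → ℝ) (hw : Law b w)
    (hh : ∀ i v, 0 ≤ h i v) (hc : ∀ i, Cell b (w i) (h i)) (B : ℝ) (hB0 : 0 ≤ B)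
    (hB : ∀ i, ∑ v ∈ range b, h i v ≤ B) (η : ℝ) (hj0 : j0 ≤ b ^ L) (hW1 : 2 * (W : ℝ) ^ 2 ≤ (b : ℝ) ^ r)
    (hW2 : 4 * η * (W : ℝ) ^ 2 ≤ 1) (hη : 2 * η * (b : ℝ) ^ K < (b : ℝ) ^ s) :
    ∑ j ∈ (range (b ^ L)).filter (fun j : ℕ => Maj W η ((j : ℝ) / (b : ℝ) ^ L)),
      ‖psi b K w (((j : ℝ) - j0) / (b : ℝ) ^ L)‖ ≤ (b : ℝ) ^ (L - K) * B ^ (r + s) := by
  have hb0 : (0 : ℝ) < b := by exact_mod_cast hb
  have hR : 0 < b ^ L := Nat.pow_pos hb
  have hcast : ((b ^ L : ℕ) : ℝ) = (b : ℝ) ^ L := by push_cast; rfl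
  have h1 : ∀ j : ℕ, ‖psi b K w (((j : ℝ) - j0) / (b : ℝ) ^ L)‖ ≤
      HH b r h (dif (b ^ L) j0 j / b ^ (L - r)) *
        HH b s (fun i => h (i + (K - s))) ((dif (b ^ L) j0 j % b ^ (L - K + s)) / b ^ (L - K)) := by
    intro j
    have h2 := psi_dif b K w hR j0 j hj0
    rw [hcast] at h2
    rw [h2]
    exact psi_two b K L r s hb hrs hKL w h hw hh hc _ (dif_lt hR j0 j)
  refine (sum_le_sum fun j _ => h1 j).trans ?_
  have h2 := maj_sum (b ^ L) (b ^ (L - r)) (b ^ (L - K + s)) (b ^ r) W j0 η hR (Nat.pow_pos hb) (Nat.pow_pos hb)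
    (le_of_eq (by rw [← pow_add]; congr 1; omega)) hj0 (by
      push_cast
      have e : (b : ℝ) ^ (L - r) / (b : ℝ) ^ L = 1 / (b : ℝ) ^ r := by
        rw [div_eq_div_iff (by positivity) (by positivity), ← pow_add, one_mul]
        congr 1; omega
      rw [e, add_mul]
      have h3 : 1 / (b : ℝ) ^ r * (W : ℝ) ^ 2 ≤ 1 / 2 := by
        rw [one_div_mul_eq_div, div_le_iff₀ (by positivity)]
        linarith
      linarith) (by
      push_cast
      have e : (b : ℝ) ^ L = (b : ℝ) ^ K * (b : ℝ) ^ (L - K) := by rw [← pow_add]; congr 1; omega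
      rw [e, pow_add, ← mul_assoc, mul_comm ((b : ℝ) ^ (L - K))]
      exact mul_lt_mul_of_pos_right hη (by positivity))
    (HH b r h) (fun x => HH b s (fun i => h (i + (K - s))) (x / b ^ (L - K))) (HH_nonneg b r h hh)
    (fun v => HH_nonneg b s _ (fun i v => hh _ v) _)
  rw [hcast] at h2
  refine h2.trans ?_
  have h3 := sum_HH b hb B hB0 r h hh hB
  have h4 : ∑ v ∈ range (b ^ (L - K + s)), HH b s (fun i => h (i + (K - s))) (v / b ^ (L - K)) ≤
      (b : ℝ) ^ (L - K) * B ^ s := by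
    have h5 := sum_split (b ^ s) (b ^ (L - K)) (Nat.pow_pos hb) (fun v _ => HH b s (fun i => h (i + (K - s))) v)
    rw [← pow_add, Nat.add_comm s (L - K)] at h5
    rw [h5]
    simp only [sum_const, card_range, nsmul_eq_mul]
    rw [← mul_sum]
    push_cast
    apply mul_le_mul_of_nonneg_left _ (by positivity)
    exact sum_HH b hb B hB0 s _ (fun i v => hh _ v) (fun i => hB _)
  calc (∑ u ∈ range (b ^ r), HH b r h u) *
        ∑ v ∈ range (b ^ (L - K + s)), HH b s (fun i => h (i + (K - s))) (v / b ^ (L - K))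
      ≤ B ^ r * ((b : ℝ) ^ (L - K) * B ^ s) :=
        mul_le_mul h3 h4 (sum_nonneg fun v _ => HH_nonneg b s _ (fun i v => hh _ v) _) (by positivity)
    _ = _ := by rw [pow_add]; ring

/-- the sum of the Fourier transform over all points -/
theorem psi_total (b K L j0 : ℕ) (hb : 0 < b) (hKL : K ≤ L) (w h : ℕ → ℕ → ℝ) (hw : Law b w)
    (hh : ∀ i v, 0 ≤ h i v) (hc : ∀ i, Cell b (w i) (h i)) (B : ℝ) (hB0 : 0 ≤ B)
    (hB : ∀ i, ∑ v ∈ range b, h i v ≤ B) (hj0 : j0 ≤ b ^ L) :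
    ∑ j ∈ range (b ^ L), ‖psi b K w (((j : ℝ) - j0) / (b : ℝ) ^ L)‖ ≤ (b : ℝ) ^ (L - K) * B ^ K := by
  classical
  have hb0 : (0 : ℝ) < b := by exact_mod_cast hb
  have hR : 0 < b ^ L := Nat.pow_pos hb
  have hcast : ((b ^ L : ℕ) : ℝ) = (b : ℝ) ^ L := by push_cast; rfl
  have h1 : ∑ j ∈ range (b ^ L), ‖psi b K w (((j : ℝ) - j0) / (b : ℝ) ^ L)‖ ≤
      ∑ x ∈ range (b ^ L), ‖psi b K w ((x : ℝ) / (b : ℝ) ^ L)‖ := by
    have e : ∀ j : ℕ, ‖psi b K w (((j : ℝ) - j0) / (b : ℝ) ^ L)‖ = ‖psi b K w (((dif (b ^ L) j0 j : ℕ) : ℝ) / (b : ℝ) ^ L)‖ := by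
      intro j
      have h2 := psi_dif b K w hR j0 j hj0
      rw [hcast] at h2
      rw [h2]
    rw [sum_congr rfl (fun j _ => e j)]
    rw [← sum_image (f := fun x : ℕ => ‖psi b K w ((x : ℝ) / (b : ℝ) ^ L)‖) (s := range (b ^ L)) (g := dif (b ^ L) j0)
      (fun x hx y hy hxy => dif_inj hR j0 (mem_range.1 hx) (mem_range.1 hy) hxy)]
    apply sum_le_sum_of_subset_of_nonneg
    · intro x hx
      rw [mem_image] at hx
      obtain ⟨j, _, rfl⟩ := hx
      exact mem_range.2 (dif_lt hR j0 j)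
    · intro _ _ _; exact norm_nonneg _
  refine h1.trans ?_
  have h2 : ∀ x ∈ range (b ^ L), ‖psi b K w ((x : ℝ) / (b : ℝ) ^ L)‖ ≤ HH b K h (x / b ^ (L - K)) := by
    intro x hx
    have h3 := psi_two b K L K 0 hb (by omega) hKL w h hw hh hc x (mem_range.1 hx)
    rw [show HH b 0 (fun i => h (i + (K - 0))) ((x % b ^ (L - K + 0)) / b ^ (L - K)) = 1 from rfl, mul_one] at h3
    exact h3
  refine (sum_le_sum h2).trans ?_
  have h5 := sum_split (b ^ K) (b ^ (L - K)) (Nat.pow_pos hb) (fun v _ => HH b K h v)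
  rw [← pow_add, show K + (L - K) = L by omega] at h5
  rw [h5]
  simp only [sum_const, card_range, nsmul_eq_mul]
  rw [← mul_sum]
  push_cast
  apply mul_le_mul_of_nonneg_left _ (by positivity)
  exact sum_HH b hb B hB0 K _ hh hB

end Pool.Agent.L7h18.DG
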