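import Pool.Agent.L7h18.DG.A2
import Pool.Agent.TH204.WR.W2

/-!
The second moment over the numbers with independent digits of the sums of a function at the numbers `G n ± c`.
-/

set_option autoImplicit false

namespace Pool.Agent.L7h18.DG

open Finset
open Pool.Agent.Helper112
open Pool.Agent.W110.HV (orth mul_conj_norm)
open Pool.Agent.TH204.WR (EE cutf cutf_in cutf_out sq_rc)
open Pool.Agent.TH892.SW (rc_zero)

/-- Schur's bound -/
theorem second_A (b K : ℕ) (R : ℝ) (w : ℕ → ℕ → ℝ) (hw : Law b w) (A : Finset ℕ) (E g : ℕ → ℂ) (σ : ℝ)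
    (hσ : σ = 1 ∨ σ = -1) (D : ℝ)
    (hD : ∀ j ∈ A, ‖g j‖ * ∑ j' ∈ A, ‖g j'‖ * ‖psi b K w (((j' : ℝ) - j) / R)‖ ≤ D) :
    ∑ c ∈ range (b ^ K), Wt b K w c * ‖∑ j ∈ A, E j * g j * ee (σ * c * (j / R))‖ ^ 2 ≤ D * ∑ j ∈ A, ‖E j‖ ^ 2 := by
  have hW : ∀ c, 0 ≤ Wt b K w c := fun c => Wt_nonneg K hw c
  have h1 : ((∑ c ∈ range (b ^ K), Wt b K w c * ‖∑ j ∈ A, E j * g j * ee (σ * c * (j / R))‖ ^ 2 : ℝ) : ℂ) =
      ∑ j ∈ A, ∑ j' ∈ A, (E j * g j) * (starRingEnd ℂ) (E j' * g j') * psi b K w (σ * (((j : ℝ) - j') / R)) := by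
    push_cast
    have e1 : ∀ c ∈ range (b ^ K), (Wt b K w c : ℂ) * ((‖∑ j ∈ A, E j * g j * ee (σ * c * (j / R))‖ : ℝ) : ℂ) ^ 2 =
        ∑ j ∈ A, ∑ j' ∈ A, (E j * g j) * (starRingEnd ℂ) (E j' * g j') *
          ((Wt b K w c : ℂ) * ee (c * (σ * (((j : ℝ) - j') / R)))) := by
      intro c _
      have h2 : ((‖∑ j ∈ A, E j * g j * ee (σ * c * (j / R))‖ : ℝ) : ℂ) ^ 2 =
          (∑ j ∈ A, E j * g j * ee (σ * c * (j / R))) * (starRingEnd ℂ) (∑ j ∈ A, E j * g j * ee (σ * c * (j / R))) := by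
        rw [mul_conj_norm]; push_cast; rfl
      rw [h2, map_sum, sum_mul_sum, mul_sum]
      refine sum_congr rfl fun j _ => ?_
      rw [mul_sum]
      refine sum_congr rfl fun j' _ => ?_
      rw [map_mul (starRingEnd ℂ) (E j' * g j'), ls_conj_ee]
      have e2 : (c : ℝ) * (σ * (((j : ℝ) - j') / R)) = σ * c * (j / R) + -(σ * c * (j' / R)) := by ring
      rw [e2, ls_ee_add]
      ring
    rw [sum_congr rfl e1, sum_comm]
    refine sum_congr rfl fun j _ => ?_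
    rw [sum_comm]
    refine sum_congr rfl fun j' _ => ?_
    rw [← mul_sum]
    rfl
  have h0 : 0 ≤ ∑ c ∈ range (b ^ K), Wt b K w c * ‖∑ j ∈ A, E j * g j * ee (σ * c * (j / R))‖ ^ 2 :=
    sum_nonneg fun c _ => mul_nonneg (hW c) (sq_nonneg _)
  have h2 : ∑ c ∈ range (b ^ K), Wt b K w c * ‖∑ j ∈ A, E j * g j * ee (σ * c * (j / R))‖ ^ 2 =
      ‖∑ j ∈ A, ∑ j' ∈ A, (E j * g j) * (starRingEnd ℂ) (E j' * g j') * psi b K w (σ * (((j : ℝ) - j') / R))‖ := by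
    rw [← h1, Complex.norm_real, Real.norm_of_nonneg h0]
  rw [h2]
  set κ : ℕ → ℕ → ℝ := fun j j' => ‖g j‖ * ‖g j'‖ * ‖psi b K w (((j' : ℝ) - j) / R)‖ with hκ
  have hκs : ∀ j j', κ j j' = κ j' j := by
    intro j j'
    simp only [hκ]
    have : ((j' : ℝ) - j) / R = -(((j : ℝ) - j') / R) := by ring
    rw [this, psi_neg]
    ring
  have hκ0 : ∀ j j', 0 ≤ κ j j' := fun j j' => by simp only [hκ]; positivity
  have h3 : ∀ j j', ‖(E j * g j) * (starRingEnd ℂ) (E j' * g j') * psi b K w (σ * (((j : ℝ) - j') / R))‖ =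
      ‖E j‖ * ‖E j'‖ * κ j j' := by
    intro j j'
    rw [norm_mul, norm_mul, RCLike.norm_conj, norm_mul, norm_mul]
    have : ‖psi b K w (σ * (((j : ℝ) - j') / R))‖ = ‖psi b K w (((j' : ℝ) - j) / R)‖ := by
      rcases hσ with h | h
      · rw [h, one_mul, ← psi_neg]
        congr 2
        ring
      · rw [h]
        congr 2
        ring
    rw [this]
    simp only [hκ]
    ring
  calc ‖∑ j ∈ A, ∑ j' ∈ A, (E j * g j) * (starRingEnd ℂ) (E j' * g j') * psi b K w (σ * (((j : ℝ) - j') / R))‖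
      ≤ ∑ j ∈ A, ∑ j' ∈ A, ‖E j‖ * ‖E j'‖ * κ j j' := by
        refine (norm_sum_le _ _).trans (sum_le_sum fun j _ => (norm_sum_le _ _).trans (sum_le_sum fun j' _ => ?_))
        rw [h3]
    _ ≤ ∑ j ∈ A, ∑ j' ∈ A, (‖E j‖ ^ 2 / 2 * κ j j' + ‖E j'‖ ^ 2 / 2 * κ j' j) := by
        refine sum_le_sum fun j _ => sum_le_sum fun j' _ => ?_
        rw [hκs j' j, ← add_mul]
        apply mul_le_mul_of_nonneg_right _ (hκ0 _ _)
        nlinarith [sq_nonneg (‖E j‖ - ‖E j'‖)]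
    _ = ∑ j ∈ A, ‖E j‖ ^ 2 * ∑ j' ∈ A, κ j j' := by
        simp_rw [sum_add_distrib]
        rw [sum_comm (f := fun j j' => ‖E j'‖ ^ 2 / 2 * κ j' j), ← sum_add_distrib]
        refine sum_congr rfl fun j _ => ?_
        rw [← mul_sum]
        ring
    _ ≤ ∑ j ∈ A, ‖E j‖ ^ 2 * D := by
        refine sum_le_sum fun j hj => mul_le_mul_of_nonneg_left ?_ (by positivity)
        refine le_trans (le_of_eq ?_) (hD j hj)
        rw [mul_sum]
        refine sum_congr rfl fun j' _ => ?_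
        simp only [hκ]
        ring
    _ = _ := by rw [← sum_mul, mul_comm]

/-- the layers of a small number -/
lemma layer (M g : ℝ) (hM : 0 ≤ M) (t1 t0 : ℕ) (ht : t1 ≤ t0) (hg : g ≤ M / 4 ^ t1) :
    g ≤ M / 4 ^ t0 + ∑ t ∈ Ico t1 t0, if M / 4 ^ (t + 1) < g then M / 4 ^ t else 0 := by
  induction t0, ht using Nat.le_induction with
  | base => simpa using hg
  | succ t0 ht ih =>
    rw [sum_Ico_succ_top ht]
    have h0 : 0 ≤ ∑ t ∈ Ico t1 t0, (if M / 4 ^ (t + 1) < g then M / 4 ^ t else 0) :=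
      sum_nonneg fun t _ => by split_ifs <;> positivity
    by_cases h : M / 4 ^ (t0 + 1) < g
    · rw [if_pos h]
      have : 0 ≤ M / 4 ^ (t0 + 1) := by positivity
      linarith
    · rw [if_neg h]
      push Not at h
      linarith

lemma geom_half (t1 t0 : ℕ) (ht : t1 ≤ t0) :
    1 / (2 : ℝ) ^ t0 + ∑ t ∈ Ico t1 t0, 1 / (2 : ℝ) ^ t ≤ 2 / 2 ^ t1 := by
  have h : 2 / (2 : ℝ) ^ t0 + ∑ t ∈ Ico t1 t0, 1 / (2 : ℝ) ^ t = 2 / 2 ^ t1 := by
    induction t0, ht using Nat.le_induction with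
    | base => simp
    | succ t0 ht ih =>
      rw [sum_Ico_succ_top ht, ← ih, pow_succ]
      field_simp
      ring
  rw [← h]
  have : 1 / (2 : ℝ) ^ t0 ≤ 2 / (2 : ℝ) ^ t0 := by
    apply div_le_div_of_nonneg_right (by norm_num) (by positivity)
  linarith

/-- Fourier inversion -/
lemma inversion (Y R : ℕ) (hR : 0 < R) (f : ℤ → ℝ) (x : ℤ) (hx : |x| + Y < R) :
    ∑ j ∈ range R, EE Y f ((j : ℝ) / R) * ee (-(x * ((j : ℝ) / R))) = (R : ℂ) * (cutf Y f x : ℂ) := by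
  have e1 : ∀ j ∈ range R, EE Y f ((j : ℝ) / R) * ee (-(x * ((j : ℝ) / R))) =
      ∑ m ∈ Icc (1 : ℤ) Y, (f m : ℂ) * ee (((m - x : ℤ) : ℝ) * ((j : ℝ) / R)) := by
    intro j _
    unfold EE Pool.Agent.W110.HV.ES
    rw [sum_mul]
    refine sum_congr rfl fun m _ => ?_
    rw [mul_assoc, ← ls_ee_add]
    congr 2
    push_cast
    ring
  rw [sum_congr rfl e1, sum_comm]
  have e2 : ∀ m ∈ Icc (1 : ℤ) Y, ∑ j ∈ range R, (f m : ℂ) * ee (((m - x : ℤ) : ℝ) * ((j : ℝ) / R)) =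
      if m = x then (R : ℂ) * (f x : ℂ) else 0 := by
    intro m hm
    rw [← mul_sum, orth R hR]
    by_cases hc : m = x
    · rw [if_pos hc, hc, sub_self, if_pos (dvd_zero _)]
      ring
    · rw [if_neg hc, if_neg, mul_zero]
      intro hd
      have h3 : m - x ≠ 0 := sub_ne_zero.2 hc
      have h4 := Int.le_of_dvd (b := |m - x|) (by positivity) ((dvd_abs _ _).2 hd)
      have h5 : |m - x| ≤ |m| + |x| := abs_sub _ _
      rw [mem_Icc] at hm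
      have h6 : |m| ≤ Y := abs_le.2 ⟨by omega, hm.2⟩
      linarith
  rw [sum_congr rfl e2]
  by_cases hc : x ∈ Icc (1 : ℤ) Y
  · rw [sum_ite_eq' (Icc (1 : ℤ) Y) x, if_pos hc, cutf_in hc]
  · rw [sum_ite_eq' (Icc (1 : ℤ) Y) x, if_neg hc, cutf_out hc]
    simp

open Classical in
/-- **the second moment** -/
theorem second_moment (b K L : ℕ) (hb : 0 < b) (w : ℕ → ℕ → ℝ) (hw : Law b w) (Y N : ℕ) (f : ℤ → ℝ)
    (G : ℕ → ℤ) (σ : ℤ) (hσ : σ = 1 ∨ σ = -1) (M Z Q Γ CA : ℝ) (t1 t0 : ℕ) (ht : t1 ≤ t0) (hKL : K ≤ L)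
    (hNM : (N : ℝ) ≤ M) (hrange : ∀ n < N, ∀ c < b ^ K, |G n + σ * c| + Y < (b : ℤ) ^ L) (hYR : Y ≤ b ^ L)
    (hsup : ∀ α : ℝ, ‖EE Y f α‖ ≤ Z) (hQ : ∑ y ∈ Icc (1 : ℤ) Y, f y ^ 2 ≤ Q) (hΓ : 0 ≤ Γ)
    (hlow : ((((range (b ^ L)).filter (fun j : ℕ =>
      M / 4 ^ t1 < ‖∑ n ∈ range N, ee (-(G n * ((j : ℝ) / (b : ℝ) ^ L)))‖)).card : ℕ) : ℝ) ≤ CA)
    (hmid : ∀ t, t1 ≤ t → t < t0 → ∀ j0 < b ^ L, ∑ j ∈ (range (b ^ L)).filter (fun j : ℕ =>
      M / 4 ^ (t + 1) < ‖∑ n ∈ range N, ee (-(G n * ((j : ℝ) / (b : ℝ) ^ L)))‖),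
      ‖psi b K w (((j : ℝ) - j0) / (b : ℝ) ^ L)‖ ≤ (b : ℝ) ^ (L - K) * (Γ * 2 ^ t))
    (htot : ∀ j0 < b ^ L, ∑ j ∈ range (b ^ L), ‖psi b K w (((j : ℝ) - j0) / (b : ℝ) ^ L)‖ ≤
      (b : ℝ) ^ (L - K) * (Γ * 2 ^ t0)) :
    ∑ c ∈ range (b ^ K), Wt b K w c * (∑ n ∈ range N, cutf Y f (G n + σ * c)) ^ 2 ≤
      2 * (CA * Z * M / (b : ℝ) ^ L) ^ 2 + 4 * M ^ 2 * Γ * Q / ((b : ℝ) ^ K * 8 ^ t1) := by
  have hb0 : (0 : ℝ) < b := by exact_mod_cast hb
  obtain ⟨R, hR⟩ : ∃ R : ℕ, R = b ^ L := ⟨_, rfl⟩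
  have hR0 : 0 < R := by rw [hR]; exact Nat.pow_pos hb
  have hRr : (R : ℝ) = (b : ℝ) ^ L := by rw [hR]; push_cast; rfl
  have hRr0 : (0 : ℝ) < R := by exact_mod_cast hR0
  rw [← hRr] at hlow hmid htot ⊢
  rw [← hR] at hlow hmid htot hYR
  have hRz : (R : ℤ) = (b : ℤ) ^ L := by rw [hR]; push_cast; rfl
  rw [← hRz] at hrange
  have hN0 : (0 : ℝ) ≤ N := Nat.cast_nonneg _
  have hM0 : 0 ≤ M := hN0.trans hNM
  have hZ0 : 0 ≤ Z := (norm_nonneg _).trans (hsup 0)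
  obtain ⟨g, hg⟩ : ∃ g : ℕ → ℂ, g = fun j : ℕ => ∑ n ∈ range N, ee (-(G n * ((j : ℝ) / R))) := ⟨_, rfl⟩
  have hgj : ∀ j : ℕ, ∑ n ∈ range N, ee (-(G n * ((j : ℝ) / R))) = g j := by intro j; rw [hg]
  simp only [hgj] at hlow hmid
  have hgM : ∀ j, ‖g j‖ ≤ M := by
    intro j
    rw [hg]
    refine (norm_sum_le _ _).trans ?_
    simp only [ls_norm_ee, sum_const, card_range, nsmul_eq_mul, mul_one]
    exact hNM
  obtain ⟨σr, hσr⟩ : ∃ σr : ℝ, σr = -(σ : ℝ) := ⟨_, rfl⟩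
  have hσr' : σr = 1 ∨ σr = -1 := by
    rcases hσ with h | h
    · right; rw [hσr, h]; simp
    · left; rw [hσr, h]; simp
  -- inversion
  have hinv : ∀ c ∈ range (b ^ K), ((R * ∑ n ∈ range N, cutf Y f (G n + σ * c) : ℝ) : ℂ) =
      ∑ j ∈ range R, EE Y f ((j : ℝ) / R) * g j * ee (σr * c * (j / R)) := by
    intro c hc
    rw [mem_range] at hc
    push_cast
    rw [mul_sum]
    have e1 : ∀ n ∈ range N, (R : ℂ) * (cutf Y f (G n + σ * c) : ℂ) =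
        ∑ j ∈ range R, EE Y f ((j : ℝ) / R) * (ee (-(G n * ((j : ℝ) / R))) * ee (σr * c * (j / R))) := by
      intro n hn
      rw [← inversion Y R hR0 f (G n + σ * c) (hrange n (mem_range.1 hn) c hc)]
      refine sum_congr rfl fun j _ => ?_
      rw [← ls_ee_add]
      congr 2
      rw [hσr]
      push_cast
      ring
    rw [sum_congr rfl e1, sum_comm]
    refine sum_congr rfl fun j _ => ?_
    rw [← mul_sum, ← sum_mul, hgj]
    ring
  -- the two parts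
  set A1 := (range R).filter (fun j : ℕ => M / 4 ^ t1 < ‖g j‖) with hA1
  set A2 := (range R).filter (fun j : ℕ => ¬ M / 4 ^ t1 < ‖g j‖) with hA2
  have hsplit : ∀ c ∈ range (b ^ K), (R : ℝ) ^ 2 * (∑ n ∈ range N, cutf Y f (G n + σ * c)) ^ 2 ≤
      2 * ‖∑ j ∈ A1, (EE Y f ((j : ℝ) / R) * g j) * 1 * ee (σr * c * (j / R))‖ ^ 2 +
        2 * ‖∑ j ∈ A2, EE Y f ((j : ℝ) / R) * g j * ee (σr * c * (j / R))‖ ^ 2 := by
    intro c hc
    have h1 : (R : ℝ) ^ 2 * (∑ n ∈ range N, cutf Y f (G n + σ * c)) ^ 2 =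
        ‖((R * ∑ n ∈ range N, cutf Y f (G n + σ * c) : ℝ) : ℂ)‖ ^ 2 := by
      rw [Complex.norm_real, Real.norm_eq_abs, sq_abs]; ring
    rw [h1, hinv c hc, ← sum_filter_add_sum_filter_not (range R) (fun j : ℕ => M / 4 ^ t1 < ‖g j‖)]
    simp only [mul_one]
    refine (pow_le_pow_left₀ (norm_nonneg _) (norm_add_le _ _) 2).trans ?_
    have := sq_nonneg (‖∑ j ∈ A1, EE Y f ((j : ℝ) / R) * g j * ee (σr * c * (j / R))‖ -
      ‖∑ j ∈ A2, EE Y f ((j : ℝ) / R) * g j * ee (σr * c * (j / R))‖)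
    rw [← hA1, ← hA2]
    nlinarith
  have hW : ∀ c, 0 ≤ Wt b K w c := fun c => Wt_nonneg K hw c
  have hA1c : (#A1 : ℝ) ≤ CA := hlow
  have hCA0 : 0 ≤ CA := (Nat.cast_nonneg _).trans hA1c
  -- the low part
  have hlo : ∑ c ∈ range (b ^ K), Wt b K w c * ‖∑ j ∈ A1, (EE Y f ((j : ℝ) / R) * g j) * 1 * ee (σr * c * (j / R))‖ ^ 2 ≤
      (CA * Z * M) ^ 2 := by
    have h1 := second_A b K R w hw A1 (fun j => EE Y f ((j : ℝ) / R) * g j) (fun _ => 1) σr hσr' CA (by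
      intro j _
      simp only [norm_one, one_mul]
      refine le_trans (sum_le_sum fun j' _ => psi_le_one hb hw _) ?_
      rw [sum_const, nsmul_eq_mul, mul_one]
      exact hA1c)
    refine h1.trans ?_
    have h2 : ∑ j ∈ A1, ‖EE Y f ((j : ℝ) / R) * g j‖ ^ 2 ≤ CA * (Z * M) ^ 2 := by
      calc ∑ j ∈ A1, ‖EE Y f ((j : ℝ) / R) * g j‖ ^ 2 ≤ ∑ _j ∈ A1, (Z * M) ^ 2 := by
            refine sum_le_sum fun j _ => ?_
            rw [norm_mul]
            exact pow_le_pow_left₀ (by positivity) (mul_le_mul (hsup _) (hgM j) (norm_nonneg _) hZ0) 2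
        _ = (#A1 : ℝ) * (Z * M) ^ 2 := by rw [sum_const, nsmul_eq_mul]
        _ ≤ _ := mul_le_mul_of_nonneg_right hA1c (by positivity)
    calc CA * ∑ j ∈ A1, ‖EE Y f ((j : ℝ) / R) * g j‖ ^ 2 ≤ CA * (CA * (Z * M) ^ 2) := mul_le_mul_of_nonneg_left h2 hCA0
      _ = _ := by ring
  -- the high part
  have hpars : ∑ j ∈ range R, ‖EE Y f ((j : ℝ) / R)‖ ^ 2 ≤ R * Q := by
    have h3 := sq_rc Y R 1 hR0 f 0 (by
      rw [abs_zero, zero_mul, zero_add]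
      exact_mod_cast hYR)
    have h4 : ∑ j ∈ range R, ‖EE Y f ((j : ℝ) / R)‖ ^ 2 = R * Pool.Agent.TH892.SW.rc Y f 0 := by
      simpa [ls_ee_zero] using h3
    rw [h4, rc_zero]
    exact mul_le_mul_of_nonneg_left hQ hRr0.le
  have hhi : ∑ c ∈ range (b ^ K), Wt b K w c * ‖∑ j ∈ A2, EE Y f ((j : ℝ) / R) * g j * ee (σr * c * (j / R))‖ ^ 2 ≤
      (2 * M ^ 2 * ((b : ℝ) ^ (L - K) * Γ) / 8 ^ t1) * (R * Q) := by
    have h1 := second_A b K R w hw A2 (fun j => EE Y f ((j : ℝ) / R)) g σr hσr'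
      (2 * M ^ 2 * ((b : ℝ) ^ (L - K) * Γ) / 8 ^ t1) (by
      intro j0 hj0
      rw [hA2, mem_filter, mem_range, not_lt] at hj0
      obtain ⟨H, hH⟩ : ∃ H, H = (b : ℝ) ^ (L - K) * Γ := ⟨_, rfl⟩
      have hH0 : 0 ≤ H := by rw [hH]; positivity
      have h2 : ∑ j' ∈ A2, ‖g j'‖ * ‖psi b K w (((j' : ℝ) - j0) / R)‖ ≤ M * H * (2 / 2 ^ t1) := by
        calc ∑ j' ∈ A2, ‖g j'‖ * ‖psi b K w (((j' : ℝ) - j0) / R)‖
            ≤ ∑ j' ∈ A2, (M / 4 ^ t0 + ∑ t ∈ Ico t1 t0, if M / 4 ^ (t + 1) < ‖g j'‖ then M / 4 ^ t else 0) *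
                ‖psi b K w (((j' : ℝ) - j0) / R)‖ := by
              refine sum_le_sum fun j' hj' => mul_le_mul_of_nonneg_right ?_ (norm_nonneg _)
              rw [hA2, mem_filter, not_lt] at hj'
              exact layer M _ hM0 t1 t0 ht hj'.2
          _ = M / 4 ^ t0 * (∑ j' ∈ A2, ‖psi b K w (((j' : ℝ) - j0) / R)‖) +
              ∑ t ∈ Ico t1 t0, M / 4 ^ t * ∑ j' ∈ A2.filter (fun j' => M / 4 ^ (t + 1) < ‖g j'‖),
                ‖psi b K w (((j' : ℝ) - j0) / R)‖ := by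
              simp_rw [add_mul, sum_mul]
              rw [sum_add_distrib, ← mul_sum, sum_comm]
              congr 1
              refine sum_congr rfl fun t _ => ?_
              have e5 : ∑ j' ∈ A2.filter (fun j' => M / 4 ^ (t + 1) < ‖g j'‖), ‖psi b K w (((j' : ℝ) - j0) / R)‖ =
                  ∑ j' ∈ A2, if M / 4 ^ (t + 1) < ‖g j'‖ then ‖psi b K w (((j' : ℝ) - j0) / R)‖ else 0 := sum_filter _ _
              rw [e5, mul_sum]
              refine sum_congr rfl fun j' _ => ?_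
              split_ifs <;> ring
          _ ≤ M / 4 ^ t0 * (H * 2 ^ t0) + ∑ t ∈ Ico t1 t0, M / 4 ^ t * (H * 2 ^ t) := by
              apply add_le_add
              · apply mul_le_mul_of_nonneg_left _ (by positivity)
                rw [hH, mul_assoc]
                refine le_trans ?_ (htot j0 hj0.1)
                exact sum_le_sum_of_subset_of_nonneg (filter_subset _ _) (fun _ _ _ => norm_nonneg _)
              · refine sum_le_sum fun t ht' => mul_le_mul_of_nonneg_left ?_ (by positivity)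
                rw [mem_Ico] at ht'
                rw [hH, mul_assoc]
                refine le_trans ?_ (hmid t ht'.1 ht'.2 j0 hj0.1)
                apply sum_le_sum_of_subset_of_nonneg _ (fun _ _ _ => norm_nonneg _)
                intro j hj
                rw [mem_filter, hA2, mem_filter] at hj
                rw [mem_filter]
                exact ⟨hj.1.1, hj.2⟩
          _ = M * H * (1 / 2 ^ t0 + ∑ t ∈ Ico t1 t0, 1 / 2 ^ t) := by
              have e4 : ∀ t : ℕ, M / 4 ^ t * (H * 2 ^ t) = M * H * (1 / 2 ^ t) := by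
                intro t
                have : (4 : ℝ) ^ t = 2 ^ t * 2 ^ t := by rw [← mul_pow]; norm_num
                rw [this]
                field_simp
              rw [e4, mul_add, mul_sum]
              congr 1
              exact sum_congr rfl fun t _ => e4 t
          _ ≤ M * H * (2 / 2 ^ t1) := mul_le_mul_of_nonneg_left (geom_half t1 t0 ht) (by positivity)
      have h3 : 0 ≤ ∑ j' ∈ A2, ‖g j'‖ * ‖psi b K w (((j' : ℝ) - j0) / R)‖ := sum_nonneg fun _ _ => by positivity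
      calc ‖g j0‖ * ∑ j' ∈ A2, ‖g j'‖ * ‖psi b K w (((j' : ℝ) - j0) / R)‖
          ≤ (M / 4 ^ t1) * (M * H * (2 / 2 ^ t1)) := mul_le_mul hj0.2 h2 h3 (by positivity)
        _ = 2 * M ^ 2 * H / 8 ^ t1 := by
            have : (8 : ℝ) ^ t1 = 4 ^ t1 * 2 ^ t1 := by rw [← mul_pow]; norm_num
            rw [this]
            field_simp
        _ = _ := by rw [hH])
    refine h1.trans ?_
    apply mul_le_mul_of_nonneg_left _ (by positivity)
    refine le_trans ?_ hpars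
    exact sum_le_sum_of_subset_of_nonneg (filter_subset _ _) (fun _ _ _ => sq_nonneg _)
  -- conclusion
  have hfin : (R : ℝ) ^ 2 * ∑ c ∈ range (b ^ K), Wt b K w c * (∑ n ∈ range N, cutf Y f (G n + σ * c)) ^ 2 ≤
      2 * (CA * Z * M) ^ 2 + 2 * ((2 * M ^ 2 * ((b : ℝ) ^ (L - K) * Γ) / 8 ^ t1) * (R * Q)) := by
    calc (R : ℝ) ^ 2 * ∑ c ∈ range (b ^ K), Wt b K w c * (∑ n ∈ range N, cutf Y f (G n + σ * c)) ^ 2
        = ∑ c ∈ range (b ^ K), Wt b K w c * ((R : ℝ) ^ 2 * (∑ n ∈ range N, cutf Y f (G n + σ * c)) ^ 2) := by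
          rw [mul_sum]
          exact sum_congr rfl fun c _ => by ring
      _ ≤ ∑ c ∈ range (b ^ K), Wt b K w c *
            (2 * ‖∑ j ∈ A1, (EE Y f ((j : ℝ) / R) * g j) * 1 * ee (σr * c * (j / R))‖ ^ 2 +
              2 * ‖∑ j ∈ A2, EE Y f ((j : ℝ) / R) * g j * ee (σr * c * (j / R))‖ ^ 2) :=
          sum_le_sum fun c hc => mul_le_mul_of_nonneg_left (hsplit c hc) (hW c)
      _ = 2 * (∑ c ∈ range (b ^ K), Wt b K w c *
            ‖∑ j ∈ A1, (EE Y f ((j : ℝ) / R) * g j) * 1 * ee (σr * c * (j / R))‖ ^ 2) +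
          2 * ∑ c ∈ range (b ^ K), Wt b K w c *
            ‖∑ j ∈ A2, EE Y f ((j : ℝ) / R) * g j * ee (σr * c * (j / R))‖ ^ 2 := by
          rw [mul_sum, mul_sum, ← sum_add_distrib]
          exact sum_congr rfl fun c _ => by ring
      _ ≤ _ := by linarith
  have hQ0 : 0 ≤ Q := (sum_nonneg fun _ _ => sq_nonneg _).trans hQ
  have e5 : 2 * (CA * Z * M / (R : ℝ)) ^ 2 + 4 * M ^ 2 * Γ * Q / ((b : ℝ) ^ K * 8 ^ t1) =
      (2 * (CA * Z * M) ^ 2 + 2 * ((2 * M ^ 2 * ((b : ℝ) ^ (L - K) * Γ) / 8 ^ t1) * (R * Q))) / (R : ℝ) ^ 2 := by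
    have e6 : (R : ℝ) = (b : ℝ) ^ K * (b : ℝ) ^ (L - K) := by
      rw [hRr, ← pow_add]; congr 1; omega
    have h7 : (0 : ℝ) < (b : ℝ) ^ K := by positivity
    have h8 : (0 : ℝ) < (b : ℝ) ^ (L - K) := by positivity
    rw [e6]
    field_simp
    ring
  rw [e5, le_div_iff₀ (by positivity), mul_comm]
  exact hfin

end Pool.Agent.L7h18.DG
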