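import Pool.Agent.L7h18.DG.A3
import Pool.Agent.TH204.WR.W3

/-!
The second moment with the inverse theorem for Weyl sums.
-/

set_option autoImplicit false

namespace Pool.Agent.L7h18.DG

open Finset
open Pool.Agent.Helper112
open Pool.Agent.TH204.WR (EE cutf ee_same)
open Pool.Agent.H373R2.NB (Ph IW IW_all)

/-- large Weyl sums come from major arcs -/
lemma weyl_maj (d : ℕ) (hd : 1 ≤ d) : ∃ c m : ℕ, 1 ≤ c ∧ 1 ≤ m ∧
    ∀ (N t : ℕ) (M θ : ℝ) (A0 : ℤ) (G : ℕ → ℤ), A0 ≠ 0 → (N : ℝ) ≤ M →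
    (∀ γ : ℝ, Ph d (γ * (A0 : ℝ)) (fun n => γ * ((G n : ℤ) : ℝ))) →
    M / 4 ^ t < ‖∑ n ∈ range N, ee (-(G n * θ))‖ →
    Maj (c * A0.natAbs * 4 ^ (m * t)) ((c * A0.natAbs * 4 ^ (m * t) : ℕ) / M ^ d) θ := by
  obtain ⟨c, m, hc, hI⟩ := IW_all d hd
  refine ⟨c, m + d, hc, by omega, fun N t M θ A0 G hA0 hNM hPh hbig => ?_⟩
  have hA1 : 1 ≤ A0.natAbs := Int.natAbs_pos.2 hA0
  have htriv : ‖∑ n ∈ range N, ee (-(G n * θ))‖ ≤ N := by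
    refine (norm_sum_le _ _).trans (le_of_eq ?_)
    simp [ls_norm_ee]
  have h4 : (0 : ℝ) < 4 ^ t := by positivity
  have hN0' : (0 : ℝ) ≤ N := Nat.cast_nonneg _
  have hM0' : 0 ≤ M := hN0'.trans hNM
  have hNt : M / 4 ^ t < N := hbig.trans_le htriv
  have hN0 : (0 : ℝ) < N := lt_of_le_of_lt (by positivity) hNt
  have hN1 : 1 ≤ N := by exact_mod_cast hN0
  have hM0 : 0 < M := by linarith
  have hφ := hPh (-θ)
  have e : ∑ n ∈ range N, ee (-(G n * θ)) = ∑ n ∈ range N, Pool.Agent.Helper602.MK.ee ((fun n => -θ * ((G n : ℤ) : ℝ)) n) := by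
    refine sum_congr rfl fun n _ => ?_
    rw [ee_same]
    congr 1
    ring
  have hu : (1 : ℝ) ≤ 4 ^ t := one_le_pow₀ (by norm_num)
  obtain ⟨q, hq1, hq2, a, ha⟩ := hI N (4 ^ t) _ _ hN1 hu hφ (by
    rw [← e]
    rw [div_lt_iff₀ h4] at hbig
    linarith)
  have hq2' : q ≤ c * 4 ^ (m * t) := by
    have : (q : ℝ) ≤ ((c * 4 ^ (m * t) : ℕ) : ℝ) := by
      push_cast
      rw [mul_comm m t, pow_mul]
      exact hq2
    exact_mod_cast this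
  have hmono : 4 ^ (m * t) ≤ 4 ^ ((m + d) * t) := Nat.pow_le_pow_right (by norm_num) (Nat.mul_le_mul_right _ (by omega))
  have hfin : (c : ℝ) * (4 ^ t) ^ m / (N : ℝ) ^ d ≤ ((c * A0.natAbs * 4 ^ ((m + d) * t) : ℕ) : ℝ) / M ^ d := by
    have h1 : (M / 4 ^ t) ^ d ≤ (N : ℝ) ^ d := pow_le_pow_left₀ (by positivity) hNt.le d
    have h2 : (c : ℝ) * (4 ^ t) ^ m / (N : ℝ) ^ d ≤ c * (4 ^ t) ^ m / (M / 4 ^ t) ^ d :=
      div_le_div_of_nonneg_left (by positivity) (by positivity) h1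
    have h3 : (c : ℝ) * (4 ^ t) ^ m / (M / 4 ^ t) ^ d = c * 4 ^ ((m + d) * t) / M ^ d := by
      have e4 : (4 : ℝ) ^ ((m + d) * t) = (4 ^ t) ^ m * (4 ^ t) ^ d := by
        rw [← pow_add, ← pow_mul, mul_comm]
      rw [e4, div_pow]
      field_simp
    have h4' : (c : ℝ) * 4 ^ ((m + d) * t) ≤ ((c * A0.natAbs * 4 ^ ((m + d) * t) : ℕ) : ℝ) := by
      have : c * 4 ^ ((m + d) * t) ≤ c * A0.natAbs * 4 ^ ((m + d) * t) :=
        Nat.mul_le_mul_right _ (Nat.le_mul_of_pos_right _ hA1)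
      exact_mod_cast this
    rw [h3] at h2
    exact h2.trans (div_le_div_of_nonneg_right h4' (by positivity))
  refine ⟨q * A0.natAbs, Nat.mul_pos hq1 hA1, ?_, ?_⟩
  · calc q * A0.natAbs ≤ (c * 4 ^ (m * t)) * A0.natAbs := Nat.mul_le_mul_right _ hq2'
      _ ≤ (c * 4 ^ ((m + d) * t)) * A0.natAbs := Nat.mul_le_mul_right _ (Nat.mul_le_mul_left _ hmono)
      _ = _ := by ring
  · rcases lt_or_gt_of_ne hA0 with hneg | hpos
    · refine ⟨a, ?_⟩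
      have e3 : (A0 : ℝ) = -((A0.natAbs : ℕ) : ℝ) := by
        rw [Nat.cast_natAbs, abs_of_neg hneg]
        push_cast
        ring
      rw [e3] at ha
      have e5 : ((q * A0.natAbs : ℕ) : ℝ) * θ - a = q * (-θ * -((A0.natAbs : ℕ) : ℝ)) - a := by push_cast; ring
      rw [e5]
      exact ha.trans hfin
    · refine ⟨-a, ?_⟩
      have e3 : (A0 : ℝ) = ((A0.natAbs : ℕ) : ℝ) := by
        rw [Nat.cast_natAbs, abs_of_pos hpos]
      rw [e3] at ha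
      have e5 : ((q * A0.natAbs : ℕ) : ℝ) * θ - ((-a : ℤ) : ℝ) = -(q * (-θ * ((A0.natAbs : ℕ) : ℝ)) - a) := by
        push_cast; ring
      rw [e5, abs_neg]
      exact ha.trans hfin

open Classical in
/-- **the second moment, explicit** -/
theorem digit_moment (d : ℕ) (hd : 1 ≤ d) : ∃ c0 m0 : ℕ, 1 ≤ c0 ∧ 1 ≤ m0 ∧
    ∀ (b : ℕ), 2 ≤ b → ∀ (w h : ℕ → ℕ → ℝ) (B : ℝ), Law b w → (∀ i v, 0 ≤ h i v) → (∀ i, Cell b (w i) (h i)) →
    0 ≤ B → (∀ i, ∑ v ∈ range b, h i v ≤ B) → B ^ (16 * m0) ≤ b →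
    ∀ (K L Y N Λ t1 Cw : ℕ) (f : ℤ → ℝ) (G : ℕ → ℤ) (σ A0 : ℤ) (M Z Q : ℝ), (σ = 1 ∨ σ = -1) → A0 ≠ 0 → K ≤ L →
    1 ≤ Λ → (N : ℝ) ≤ M → 1 ≤ M → (b : ℝ) ^ K ≤ Λ * M ^ d →
    (∀ γ : ℝ, Ph d (γ * (A0 : ℝ)) (fun n => γ * ((G n : ℤ) : ℝ))) →
    (∀ n < N, ∀ c < b ^ K, |G n + σ * c| + Y < (b : ℤ) ^ L) → Y ≤ b ^ L →
    (∀ α : ℝ, ‖EE Y f α‖ ≤ Z) → (∑ y ∈ Icc (1 : ℤ) Y, f y ^ 2 ≤ Q) →
    Cw = c0 * A0.natAbs → 4 ^ (8 * m0 * t1) ≤ b ^ K → (4 * b ^ 2 * Cw ^ 4 * Λ ^ 2 * 4 ^ (8 * m0)) ^ 2 ≤ b ^ K →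
    ∑ c ∈ range (b ^ K), Wt b K w c * (∑ n ∈ range N, cutf Y f (G n + σ * c)) ^ 2 ≤
      2 * ((b * (2 * Cw ^ 2 * Λ * 4 ^ (2 * m0 * t1))) ^ 2 * Z * M / (b : ℝ) ^ K) ^ 2 +
        4 * M ^ 2 * (8 * b ^ 2 * Cw ^ 4 * Λ ^ 2) * Q / ((b : ℝ) ^ K * 8 ^ t1) := by
  obtain ⟨c0, m0, hc0, hm0, hweyl⟩ := weyl_maj d hd
  refine ⟨c0, m0, hc0, hm0, ?_⟩
  intro b hb2 w h B hw hh hc hB0 hB hBb K L Y N Λ t1 Cw f G σ A0 M Z Q hσ hA0 hKL hΛ hNM hM1 hXM hPh hrange hYR hsup hQ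
    hCw ht1 hbig
  have hb : 0 < b := by omega
  have hb0 : (0 : ℝ) < b := by exact_mod_cast hb
  have hA1 : 1 ≤ A0.natAbs := Int.natAbs_pos.2 hA0
  have hCw1 : 1 ≤ Cw := by rw [hCw]; exact Nat.mul_pos hc0 hA1
  have hM0 : 0 < M := by linarith
  -- the level t0
  obtain ⟨t0, ht0a, ht0b⟩ : ∃ t0 : ℕ, b ^ K ≤ 4 ^ (8 * m0 * t0) ∧ 4 ^ (8 * m0 * t0) ≤ 4 ^ (8 * m0) * b ^ K := by
    have hex : ∃ t : ℕ, b ^ K ≤ 4 ^ (8 * m0 * t) := by
      refine ⟨b ^ K, ?_⟩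
      have h1 : b ^ K < 4 ^ (b ^ K) := Nat.lt_pow_self (by norm_num)
      have h2 : 4 ^ (b ^ K) ≤ 4 ^ (8 * m0 * b ^ K) := by
        apply Nat.pow_le_pow_right (by norm_num)
        exact Nat.le_mul_of_pos_left _ (by omega)
      omega
    refine ⟨Nat.find hex, Nat.find_spec hex, ?_⟩
    rcases Nat.eq_zero_or_pos (Nat.find hex) with h0 | h0
    · rw [h0]
      simp only [Nat.mul_zero, pow_zero]
      exact Nat.mul_pos (Nat.pow_pos (by norm_num)) (Nat.pow_pos hb)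
    · have h1 := Nat.find_min hex (m := Nat.find hex - 1) (by omega)
      push Not at h1
      have e : 8 * m0 * Nat.find hex = 8 * m0 + 8 * m0 * (Nat.find hex - 1) := by
        obtain ⟨k, hk⟩ : ∃ k, Nat.find hex = k + 1 := ⟨Nat.find hex - 1, by omega⟩
        rw [hk, Nat.add_sub_cancel]
        ring
      rw [e, pow_add]
      exact Nat.mul_le_mul_left _ h1.le
  have ht10 : t1 ≤ t0 := by
    by_contra hcon
    push Not at hcon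
    have h1 : 8 * m0 * t0 < 8 * m0 * t1 := Nat.mul_lt_mul_of_pos_left hcon (by omega)
    have h2 : 4 ^ (8 * m0 * t0) < 4 ^ (8 * m0 * t1) := Nat.pow_lt_pow_right (by norm_num) h1
    omega
  -- the numbers of digits
  have hlev : ∀ t ≤ t0, ∃ r : ℕ, 2 * r ≤ K ∧ b ^ r ≤ b * (2 * Cw ^ 2 * Λ * 4 ^ (2 * m0 * t)) ∧
      2 * (((Cw * 4 ^ (m0 * t) : ℕ)) : ℝ) ^ 2 ≤ (b : ℝ) ^ r ∧
      4 * ((((Cw * 4 ^ (m0 * t) : ℕ)) : ℝ) / M ^ d) * (((Cw * 4 ^ (m0 * t) : ℕ)) : ℝ) ^ 2 ≤ 1 ∧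
      2 * ((((Cw * 4 ^ (m0 * t) : ℕ)) : ℝ) / M ^ d) * (b : ℝ) ^ K < (b : ℝ) ^ r := by
    intro t ht
    obtain ⟨V, hV⟩ : ∃ V, V = 2 * Cw ^ 2 * Λ * 4 ^ (2 * m0 * t) := ⟨_, rfl⟩
    have h4t : 1 ≤ 4 ^ (2 * m0 * t) := Nat.one_le_pow _ _ (by norm_num)
    have hV1 : 1 ≤ V := by
      rw [hV]
      have : 0 < 2 * Cw ^ 2 * Λ * 4 ^ (2 * m0 * t) := by positivity
      omega
    have hex : ∃ r : ℕ, V < b ^ r := ⟨V, Nat.lt_pow_self (by omega)⟩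
    obtain ⟨r, hr⟩ : ∃ r, r = Nat.find hex := ⟨_, rfl⟩
    have hr1 : V < b ^ r := by rw [hr]; exact Nat.find_spec hex
    have hr0 : r ≠ 0 := by
      intro h0
      rw [h0, pow_zero] at hr1
      omega
    have hr2 : b ^ r ≤ b * V := by
      have h1 := Nat.find_min hex (m := r - 1) (by rw [← hr]; omega)
      push Not at h1
      obtain ⟨k, hk⟩ : ∃ k, r = k + 1 := ⟨r - 1, by omega⟩
      rw [hk, Nat.add_sub_cancel] at h1
      rw [hk, pow_succ']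
      exact Nat.mul_le_mul_left _ h1
    have h4t0 : (4 ^ (4 * m0 * t)) ^ 2 ≤ 4 ^ (8 * m0) * b ^ K := by
      rw [← pow_mul]
      refine le_trans ?_ ht0b
      apply Nat.pow_le_pow_right (by norm_num)
      calc 4 * m0 * t * 2 = 8 * m0 * t := by ring
        _ ≤ 8 * m0 * t0 := Nat.mul_le_mul_left _ ht
    -- (b V)^2 ≤ b^K
    obtain ⟨U, hU⟩ : ∃ U, U = 4 * b ^ 2 * Cw ^ 4 * Λ ^ 2 * 4 ^ (8 * m0) := ⟨_, rfl⟩
    rw [← hU] at hbig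
    have hbV : (b * V) ^ 2 ≤ b ^ K := by
      have e1 : (b * V) ^ 2 * 4 ^ (8 * m0) = U * 4 ^ (4 * m0 * t) := by
        have : (4 : ℕ) ^ (4 * m0 * t) = 4 ^ (2 * m0 * t) * 4 ^ (2 * m0 * t) := by
          rw [← pow_add]; congr 1; ring
        rw [hV, hU, this]
        ring
      have h5 : (U * 4 ^ (4 * m0 * t)) ^ 2 ≤ (4 ^ (8 * m0) * b ^ K) ^ 2 := by
        calc (U * 4 ^ (4 * m0 * t)) ^ 2 = U ^ 2 * (4 ^ (4 * m0 * t)) ^ 2 := mul_pow _ _ _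
          _ ≤ b ^ K * (4 ^ (8 * m0) * b ^ K) := Nat.mul_le_mul hbig h4t0
          _ ≤ 4 ^ (8 * m0) * (b ^ K * (4 ^ (8 * m0) * b ^ K)) :=
              Nat.le_mul_of_pos_left _ (Nat.pow_pos (by norm_num))
          _ = _ := by ring
      have h6 : U * 4 ^ (4 * m0 * t) ≤ 4 ^ (8 * m0) * b ^ K :=
        (Nat.pow_le_pow_iff_left (by norm_num)).1 h5
      rw [← e1, mul_comm] at h6
      exact Nat.le_of_mul_le_mul_left h6 (Nat.pow_pos (by norm_num))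
    have hVr : (V : ℝ) < (b : ℝ) ^ r := by exact_mod_cast hr1
    have hCwr : (1 : ℝ) ≤ Cw := by exact_mod_cast hCw1
    have hΛr : (1 : ℝ) ≤ Λ := by exact_mod_cast hΛ
    have hMd : (0 : ℝ) < M ^ d := by positivity
    have hX : (0 : ℝ) < (b : ℝ) ^ K := by positivity
    obtain ⟨q, hq⟩ : ∃ q : ℝ, q = (4 : ℝ) ^ (m0 * t) := ⟨_, rfl⟩
    have hq1 : 1 ≤ q := by rw [hq]; exact one_le_pow₀ (by norm_num)
    have hVq : (V : ℝ) = 2 * Cw ^ 2 * Λ * q ^ 2 := by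
      rw [hV, hq, ← pow_mul]
      push_cast
      congr 2
      ring
    have hcast : ((Cw * 4 ^ (m0 * t) : ℕ) : ℝ) = Cw * q := by rw [hq]; push_cast; rfl
    refine ⟨r, ?_, ?_, ?_, ?_, ?_⟩
    · have h7 : b ^ (2 * r) ≤ b ^ K := by
        calc b ^ (2 * r) = (b ^ r) ^ 2 := by rw [← pow_mul, mul_comm]
          _ ≤ (b * V) ^ 2 := Nat.pow_le_pow_left hr2 2
          _ ≤ b ^ K := hbV
      exact (Nat.pow_le_pow_iff_right (by omega)).1 h7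
    · rw [← hV]; exact hr2
    · rw [hcast]
      refine le_trans ?_ hVr.le
      rw [hVq]
      have : 0 ≤ 2 * ((Cw : ℝ) * q) ^ 2 * (Λ - 1) := mul_nonneg (by positivity) (by linarith)
      nlinarith
    · rw [hcast]
      rw [show 4 * ((Cw : ℝ) * q / M ^ d) * (Cw * q) ^ 2 = 4 * (Cw * q) ^ 3 / M ^ d by ring, div_le_one hMd]
      -- 4 (Cw q)^3 Λ ≤ b^K
      have h8 : 4 * ((Cw : ℝ) * q) ^ 3 * Λ ≤ (b : ℝ) ^ K := by
        have h9 : ((b : ℝ) * V) ^ 2 ≤ (b : ℝ) ^ K := by exact_mod_cast hbV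
        refine le_trans ?_ h9
        rw [hVq]
        have hb2r : (2 : ℝ) ≤ b := by exact_mod_cast hb2
        have e9 : ((b : ℝ) * (2 * Cw ^ 2 * Λ * q ^ 2)) ^ 2 = 4 * (Cw * q) ^ 3 * Λ * (b ^ 2 * (Cw * (Λ * q))) := by ring
        rw [e9]
        apply le_mul_of_one_le_right (by positivity)
        have h10 : 1 ≤ (Λ : ℝ) * q := one_le_mul_of_one_le_of_one_le hΛr hq1
        have h11 : 1 ≤ (Cw : ℝ) * (Λ * q) := one_le_mul_of_one_le_of_one_le hCwr h10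
        have h12 : (1 : ℝ) ≤ (b : ℝ) ^ 2 := one_le_pow₀ (by linarith)
        exact one_le_mul_of_one_le_of_one_le h12 h11
      have h9 := h8.trans hXM
      have h10 : (Λ : ℝ) * (4 * ((Cw : ℝ) * q) ^ 3) ≤ Λ * M ^ d := by linarith
      exact le_of_mul_le_mul_left h10 (by linarith)
    · rw [hcast]
      refine lt_of_le_of_lt ?_ hVr
      rw [show 2 * ((Cw : ℝ) * q / M ^ d) * (b : ℝ) ^ K = 2 * (Cw * q) * (b : ℝ) ^ K / M ^ d by ring, div_le_iff₀ hMd,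
        hVq]
      calc 2 * ((Cw : ℝ) * q) * (b : ℝ) ^ K ≤ 2 * (Cw * q) * (Λ * M ^ d) := by gcongr
        _ = 2 * (Cw * q) * Λ * M ^ d * 1 := by ring
        _ ≤ 2 * (Cw * q) * Λ * M ^ d * (Cw * q) :=
            mul_le_mul_of_nonneg_left (one_le_mul_of_one_le_of_one_le hCwr hq1) (by positivity)
        _ = _ := by ring
  -- psi on a level
  have hBt : ∀ t r : ℕ, b ^ r ≤ b * (2 * Cw ^ 2 * Λ * 4 ^ (2 * m0 * t)) →
      B ^ (r + r) ≤ (4 * b ^ 2 * Cw ^ 4 * Λ ^ 2) * 2 ^ t := by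
    intro t r hr
    have h1 : (B ^ (r + r)) ^ (16 * m0) ≤ ((4 * (b : ℝ) ^ 2 * Cw ^ 4 * Λ ^ 2) * 2 ^ t) ^ (16 * m0) := by
      have hC1 : (1 : ℝ) ≤ 4 * (b : ℝ) ^ 2 * Cw ^ 4 * Λ ^ 2 := by
        have : 1 ≤ 4 * b ^ 2 * Cw ^ 4 * Λ ^ 2 := by
          have : 0 < 4 * b ^ 2 * Cw ^ 4 * Λ ^ 2 := by positivity
          omega
        exact_mod_cast this
      have hr' : ((b : ℝ) ^ r) ≤ b * (2 * Cw ^ 2 * Λ * 4 ^ (2 * m0 * t)) := by exact_mod_cast hr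
      calc (B ^ (r + r)) ^ (16 * m0) = (B ^ (16 * m0)) ^ (r + r) := by rw [← pow_mul, ← pow_mul, mul_comm]
        _ ≤ (b : ℝ) ^ (r + r) := pow_le_pow_left₀ (by positivity) hBb _
        _ = ((b : ℝ) ^ r) ^ 2 := by rw [← pow_mul]; congr 1; ring
        _ ≤ (b * (2 * Cw ^ 2 * Λ * 4 ^ (2 * m0 * t))) ^ 2 := pow_le_pow_left₀ (by positivity) hr' 2
        _ = (4 * (b : ℝ) ^ 2 * Cw ^ 4 * Λ ^ 2) * 4 ^ (4 * m0 * t) := by
            have : (4 : ℝ) ^ (4 * m0 * t) = 4 ^ (2 * m0 * t) * 4 ^ (2 * m0 * t) := by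
              rw [← pow_add]; congr 1; ring
            rw [this]
            ring
        _ ≤ (4 * (b : ℝ) ^ 2 * Cw ^ 4 * Λ ^ 2) ^ (16 * m0) * (2 ^ t) ^ (16 * m0) := by
            apply mul_le_mul (le_self_pow₀ hC1 (by omega)) _ (by positivity) (by positivity)
            rw [← pow_mul, show (4 : ℝ) = 2 ^ 2 by norm_num, ← pow_mul]
            apply pow_le_pow_right₀ (by norm_num)
            have : t * (16 * m0) = 2 * (4 * m0 * t) + 8 * m0 * t := by ring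
            omega
        _ = _ := (mul_pow _ _ _).symm
    exact le_of_pow_le_pow_left₀ (by omega) (by positivity) h1
  have hcastL : ((b ^ L : ℕ) : ℝ) = (b : ℝ) ^ L := by push_cast; rfl
  have hmaj : ∀ (t j : ℕ), M / 4 ^ t < ‖∑ n ∈ range N, ee (-(G n * ((j : ℝ) / (b : ℝ) ^ L)))‖ →
      Maj (Cw * 4 ^ (m0 * t)) (((Cw * 4 ^ (m0 * t) : ℕ) : ℝ) / M ^ d) ((j : ℝ) / (b : ℝ) ^ L) := by
    intro t j hj
    rw [hCw]
    exact hweyl N t M _ A0 G hA0 hNM hPh hj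
  obtain ⟨Γ, hΓ⟩ : ∃ Γ : ℝ, Γ = 8 * b ^ 2 * Cw ^ 4 * Λ ^ 2 := ⟨_, rfl⟩
  obtain ⟨V1, hV1⟩ : ∃ V1 : ℕ, V1 = b * (2 * Cw ^ 2 * Λ * 4 ^ (2 * m0 * t1)) := ⟨_, rfl⟩
  have hmain := second_moment b K L hb w hw Y N f G σ hσ M Z Q Γ ((b : ℝ) ^ (L - K) * (V1 : ℝ) ^ 2) t1 t0 ht10 hKL hNM hrange
    hYR hsup hQ (by rw [hΓ]; positivity) ?_ ?_ ?_
  · refine hmain.trans (le_of_eq ?_)
    have e6 : (b : ℝ) ^ L = (b : ℝ) ^ K * (b : ℝ) ^ (L - K) := by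
      rw [← pow_add]; congr 1; omega
    have h7 : (0 : ℝ) < (b : ℝ) ^ K := by positivity
    have h8 : (0 : ℝ) < (b : ℝ) ^ (L - K) := by positivity
    rw [e6, hΓ, hV1]
    push_cast
    congr 1
    congr 1
    field_simp
  · obtain ⟨r, hrK, hrb, hr1, hr2, hr3⟩ := hlev t1 ht10
    have hsub : (range (b ^ L)).filter (fun j : ℕ => M / 4 ^ t1 <
        ‖∑ n ∈ range N, ee (-(G n * ((j : ℝ) / (b : ℝ) ^ L)))‖) ⊆
        (range (b ^ L)).filter (fun j : ℕ => Maj (Cw * 4 ^ (m0 * t1))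
          (((Cw * 4 ^ (m0 * t1) : ℕ) : ℝ) / M ^ d) ((j : ℝ) / ((b ^ L : ℕ) : ℝ))) := by
      intro j hj
      rw [mem_filter] at hj ⊢
      rw [hcastL]
      exact ⟨hj.1, hmaj t1 j hj.2⟩
    have h1 : ((((range (b ^ L)).filter (fun j : ℕ => M / 4 ^ t1 <
        ‖∑ n ∈ range N, ee (-(G n * ((j : ℝ) / (b : ℝ) ^ L)))‖)).card : ℕ) : ℝ) ≤
        ((((range (b ^ L)).filter (fun j : ℕ => Maj (Cw * 4 ^ (m0 * t1))
          (((Cw * 4 ^ (m0 * t1) : ℕ) : ℝ) / M ^ d) ((j : ℝ) / ((b ^ L : ℕ) : ℝ)))).card : ℕ) : ℝ) := by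
      exact_mod_cast card_le_card hsub
    refine h1.trans ?_
    have h2 := maj_card (b ^ L) (b ^ (L - r)) (b ^ (L - K + r)) (b ^ r) (Cw * 4 ^ (m0 * t1))
      (((Cw * 4 ^ (m0 * t1) : ℕ) : ℝ) / M ^ d) (Nat.pow_pos hb) (Nat.pow_pos hb) (Nat.pow_pos hb)
      (le_of_eq (by rw [← pow_add]; congr 1; omega)) (by
        have e : ((b ^ (L - r) : ℕ) : ℝ) / ((b ^ L : ℕ) : ℝ) = 1 / (b : ℝ) ^ r := by
          push_cast
          rw [div_eq_div_iff (by positivity) (by positivity), ← pow_add, one_mul]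
          congr 1; omega
        rw [e, add_mul]
        have h3 : 1 / (b : ℝ) ^ r * (((Cw * 4 ^ (m0 * t1) : ℕ)) : ℝ) ^ 2 ≤ 1 / 2 := by
          rw [one_div_mul_eq_div, div_le_iff₀ (by positivity)]
          linarith
        linarith) (by
        push_cast
        push_cast at hr3
        have e : (b : ℝ) ^ L = (b : ℝ) ^ K * (b : ℝ) ^ (L - K) := by rw [← pow_add]; congr 1; omega
        rw [e, pow_add, ← mul_assoc, mul_comm ((b : ℝ) ^ (L - K))]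
        exact mul_lt_mul_of_pos_right hr3 (by positivity))
    refine h2.trans ?_
    push_cast
    have h3 : (b : ℝ) ^ r ≤ V1 := by rw [hV1]; exact_mod_cast hrb
    calc (b : ℝ) ^ r * (b : ℝ) ^ (L - K + r) = (b : ℝ) ^ (L - K) * ((b : ℝ) ^ r) ^ 2 := by rw [pow_add]; ring
      _ ≤ _ := by gcongr
  · intro t ht1' ht0' j0 hj0
    obtain ⟨r, hrK, hrb, hr1, hr2, hr3⟩ := hlev (t + 1) (by omega)
    have hsub : (range (b ^ L)).filter (fun j : ℕ => M / 4 ^ (t + 1) <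
        ‖∑ n ∈ range N, ee (-(G n * ((j : ℝ) / (b : ℝ) ^ L)))‖) ⊆
        (range (b ^ L)).filter (fun j : ℕ => Maj (Cw * 4 ^ (m0 * (t + 1)))
          (((Cw * 4 ^ (m0 * (t + 1)) : ℕ) : ℝ) / M ^ d) ((j : ℝ) / (b : ℝ) ^ L)) := by
      intro j hj
      rw [mem_filter] at hj ⊢
      exact ⟨hj.1, hmaj (t + 1) j hj.2⟩
    refine (sum_le_sum_of_subset_of_nonneg hsub (fun _ _ _ => norm_nonneg _)).trans ?_
    refine (psi_maj b K L r r _ j0 hb (by omega) hKL w h hw hh hc B hB0 hB _ hj0.le hr1 hr2 hr3).trans ?_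
    apply mul_le_mul_of_nonneg_left _ (by positivity)
    refine (hBt (t + 1) r hrb).trans (le_of_eq ?_)
    rw [hΓ, pow_succ]
    ring
  · intro j0 hj0
    refine (psi_total b K L j0 hb hKL w h hw hh hc B hB0 hB hj0.le).trans ?_
    apply mul_le_mul_of_nonneg_left _ (by positivity)
    have h1 : (B ^ K) ^ (16 * m0) ≤ (2 ^ t0) ^ (16 * m0) := by
      calc (B ^ K) ^ (16 * m0) = (B ^ (16 * m0)) ^ K := by rw [← pow_mul, ← pow_mul, mul_comm]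
        _ ≤ (b : ℝ) ^ K := pow_le_pow_left₀ (by positivity) hBb _
        _ ≤ (4 : ℝ) ^ (8 * m0 * t0) := by exact_mod_cast ht0a
        _ = (2 ^ t0) ^ (16 * m0) := by
            rw [show (4 : ℝ) = 2 ^ 2 by norm_num, ← pow_mul, ← pow_mul]
            congr 1
            ring
    have h2 : B ^ K ≤ 2 ^ t0 := le_of_pow_le_pow_left₀ (by omega) (by positivity) h1
    refine h2.trans ?_
    apply le_mul_of_one_le_left (by positivity)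
    rw [hΓ]
    have : 1 ≤ 8 * b ^ 2 * Cw ^ 4 * Λ ^ 2 := by
      have : 0 < 8 * b ^ 2 * Cw ^ 4 * Λ ^ 2 := by positivity
      omega
    exact_mod_cast this

end Pool.Agent.L7h18.DG
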