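import Pool.Agent.L7h18.DG.A1

/-!
Laws of digits of small variation.
-/

set_option autoImplicit false

namespace Pool.Agent.L7h18.DG

open Finset
open Pool.Agent.Helper112

/-- the total variation of a function on `{0, ..., b - 1}`, continued by zero -/
noncomputable def vari (b : ℕ) (w : ℕ → ℝ) : ℝ :=
  |w 0| + ∑ d ∈ range (b - 1), |w (d + 1) - w d| + |w (b - 1)|

lemma abel_phi (w : ℕ → ℝ) (θ : ℝ) (n : ℕ) :
    (1 - ee θ) * phi (n + 1) w θ = (w 0 : ℂ) + ∑ d ∈ range n, ((w (d + 1) - w d : ℝ) : ℂ) * ee (((d + 1 : ℕ) : ℝ) * θ) -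
      (w n : ℂ) * ee (((n + 1 : ℕ) : ℝ) * θ) := by
  induction n with
  | zero =>
    unfold phi
    simp only [zero_add, sum_range_one, range_zero, sum_empty, Nat.cast_zero, zero_mul, ls_ee_zero, Nat.cast_one,
      one_mul]
    ring
  | succ n ih =>
    have e1 : phi (n + 1 + 1) w θ = phi (n + 1) w θ + (w (n + 1) : ℂ) * ee (((n + 1 : ℕ) : ℝ) * θ) := by
      unfold phi
      rw [sum_range_succ]
    have e2 : ee (((n + 1 + 1 : ℕ) : ℝ) * θ) = ee (((n + 1 : ℕ) : ℝ) * θ) * ee θ := by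
      rw [← ls_ee_add]
      congr 1
      push_cast
      ring
    rw [e1, mul_add, ih, sum_range_succ, e2]
    push_cast
    ring

lemma phi_vari (b : ℕ) (hb : 1 ≤ b) (w : ℕ → ℝ) (θ : ℝ) : ‖1 - ee θ‖ * ‖phi b w θ‖ ≤ vari b w := by
  obtain ⟨n, rfl⟩ : ∃ n, b = n + 1 := ⟨b - 1, by omega⟩
  rw [← norm_mul, abel_phi]
  unfold vari
  rw [Nat.add_sub_cancel]
  refine (norm_sub_le _ _).trans ?_
  apply add_le_add
  · refine (norm_add_le _ _).trans (add_le_add ?_ ?_)
    · rw [Complex.norm_real, Real.norm_eq_abs]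
    · refine (norm_sum_le _ _).trans (sum_le_sum fun d _ => ?_)
      rw [norm_mul, ls_norm_ee, mul_one, Complex.norm_real, Real.norm_eq_abs]
  · rw [norm_mul, ls_norm_ee, mul_one, Complex.norm_real, Real.norm_eq_abs]

lemma sin_lower (x : ℝ) (h0 : 0 ≤ x) (h1 : x ≤ 1) : 2 * min x (1 - x) ≤ Real.sin (Real.pi * x) := by
  have hpi := Real.pi_pos
  have key : ∀ y : ℝ, 0 ≤ y → y ≤ 1 / 2 → 2 * y ≤ Real.sin (Real.pi * y) := by
    intro y hy0 hy1
    have h := Real.mul_le_sin (x := Real.pi * y) (by positivity) (by nlinarith)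
    have e : 2 / Real.pi * (Real.pi * y) = 2 * y := by field_simp
    rw [e] at h
    exact h
  rcases le_total x (1 / 2) with h | h
  · rw [min_eq_left (by linarith)]
    exact key x h0 h
  · rw [min_eq_right (by linarith)]
    have h2 := key (1 - x) (by linarith) (by linarith)
    have e : Real.pi * (1 - x) = Real.pi - Real.pi * x := by ring
    rw [e, Real.sin_pi_sub] at h2
    exact h2

/-- the bound on the cells -/
noncomputable def hv (b : ℕ) (w : ℕ → ℝ) (v : ℕ) : ℝ :=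
  (if v = 0 ∨ v = b - 1 then 1 else 0) + vari b w * b / 4 * (1 / (v : ℝ) + 1 / ((b - 1 - v : ℕ) : ℝ))

lemma vari_nonneg (b : ℕ) (w : ℕ → ℝ) : 0 ≤ vari b w := by
  unfold vari
  positivity

lemma hv_nonneg (b : ℕ) (w : ℕ → ℝ) (v : ℕ) : 0 ≤ hv b w v := by
  unfold hv
  have h := vari_nonneg b w
  have h2 : (0 : ℝ) ≤ (if v = 0 ∨ v = b - 1 then (1 : ℝ) else 0) := by split_ifs <;> norm_num
  positivity

lemma cell_hv (b : ℕ) (hb : 2 ≤ b) (w : ℕ → ℝ) (h0 : ∀ d, 0 ≤ w d) (h1 : ∑ d ∈ range b, w d = 1) :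
    Cell b w (hv b w) := by
  intro v hv' θ hθ1 hθ2
  have hV := vari_nonneg b w
  have hb0 : (0 : ℝ) < b := by exact_mod_cast (by omega : 0 < b)
  by_cases hc : v = 0 ∨ v = b - 1
  · refine (phi_le_one h0 h1 θ).trans ?_
    unfold hv
    rw [if_pos hc]
    have : 0 ≤ vari b w * b / 4 * (1 / (v : ℝ) + 1 / ((b - 1 - v : ℕ) : ℝ)) := by positivity
    linarith
  · push Not at hc
    have hv1 : 1 ≤ v := by omega
    have hv2 : 1 ≤ b - 1 - v := by omega
    have hv1r : (1 : ℝ) ≤ v := by exact_mod_cast hv1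
    have hv2r : (1 : ℝ) ≤ ((b - 1 - v : ℕ) : ℝ) := by exact_mod_cast hv2
    have e1 : ((b - 1 - v : ℕ) : ℝ) = b - (v + 1) := by
      have : b - 1 - v + (v + 1) = b := by omega
      have h2 : ((b - 1 - v + (v + 1) : ℕ) : ℝ) = b := by rw [this]
      push_cast at h2 ⊢
      linarith
    obtain ⟨u, hu⟩ : ∃ u : ℝ, u = ((b - 1 - v : ℕ) : ℝ) := ⟨_, rfl⟩
    rw [← hu] at hv2r e1
    rw [div_le_iff₀ hb0] at hθ1
    rw [le_div_iff₀ hb0] at hθ2
    have hθ0 : 0 ≤ θ := by
      by_contra hcon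
      push Not at hcon
      have := mul_neg_of_neg_of_pos hcon hb0
      linarith
    have hθ3 : θ ≤ 1 := by
      by_contra hcon
      push Not at hcon
      have := mul_lt_mul_of_pos_right hcon hb0
      linarith
    have hmin : 1 / b * min (v : ℝ) u ≤ min θ (1 - θ) := by
      apply le_min
      · rw [one_div_mul_eq_div, div_le_iff₀ hb0]
        exact (min_le_left _ _).trans hθ1
      · rw [one_div_mul_eq_div, div_le_iff₀ hb0]
        refine (min_le_right _ _).trans ?_
        rw [e1]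
        linarith
    have hs := sin_lower θ hθ0 hθ3
    have hn : 4 * (1 / b * min (v : ℝ) u) ≤ ‖1 - ee θ‖ := by
      rw [← norm_neg, neg_sub, ls_norm_ee_sub_one]
      refine le_trans ?_ (le_abs_self _)
      linarith
    have hp := phi_vari b (by omega) w θ
    have hmin1 : 1 ≤ min (v : ℝ) u := le_min hv1r hv2r
    have hmin0 : 0 < min (v : ℝ) u := by linarith
    have h3 : 4 * (1 / b * min (v : ℝ) u) * ‖phi b w θ‖ ≤ vari b w :=
      (mul_le_mul_of_nonneg_right hn (norm_nonneg _)).trans hp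
    have h4 : ‖phi b w θ‖ ≤ vari b w * b / 4 * (1 / min (v : ℝ) u) := by
      have h5 : 0 < 4 * (1 / b * min (v : ℝ) u) := by positivity
      have h6 : ‖phi b w θ‖ ≤ vari b w / (4 * (1 / b * min (v : ℝ) u)) := by
        rw [le_div_iff₀ h5]; linarith
      refine h6.trans (le_of_eq ?_)
      field_simp
    refine h4.trans ?_
    unfold hv
    rw [if_neg (by push Not; exact hc), zero_add, ← hu]
    apply mul_le_mul_of_nonneg_left _ (by positivity)
    rcases le_total (v : ℝ) u with h | h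
    · rw [min_eq_left h]
      have : 0 ≤ 1 / u := by positivity
      linarith
    · rw [min_eq_right h]
      have : 0 ≤ 1 / (v : ℝ) := by positivity
      linarith

lemma harm (n : ℕ) : ∑ v ∈ range (n + 1), 1 / (v : ℝ) ≤ 1 + Real.log n := by
  rw [sum_range_succ']
  simp only [Nat.cast_zero, div_zero, add_zero]
  have h := harmonic_le_one_add_log n
  have e : ((harmonic n : ℚ) : ℝ) = ∑ i ∈ range n, 1 / ((i + 1 : ℕ) : ℝ) := by
    unfold harmonic
    push_cast
    refine sum_congr rfl fun i _ => ?_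
    rw [one_div]
  rw [e] at h
  exact h

lemma sum_hv (b : ℕ) (hb : 2 ≤ b) (w : ℕ → ℝ) :
    ∑ v ∈ range b, hv b w v ≤ 2 + vari b w * b / 2 * (1 + Real.log b) := by
  have hV := vari_nonneg b w
  obtain ⟨n, rfl⟩ : ∃ n, b = n + 1 := ⟨b - 1, by omega⟩
  have hn1 : 1 ≤ n := by omega
  unfold hv
  rw [sum_add_distrib, ← mul_sum, sum_add_distrib]
  simp only [Nat.add_sub_cancel]
  have h1 : ∑ v ∈ range (n + 1), (if v = 0 ∨ v = n then (1 : ℝ) else 0) ≤ 2 := by
    calc ∑ v ∈ range (n + 1), (if v = 0 ∨ v = n then (1 : ℝ) else 0)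
        ≤ ∑ v ∈ range (n + 1), ((if v = 0 then (1 : ℝ) else 0) + (if v = n then (1 : ℝ) else 0)) := by
          refine sum_le_sum fun v _ => ?_
          by_cases ha : v = 0
          · rw [if_pos (Or.inl ha), if_pos ha]
            split_ifs <;> norm_num
          · by_cases hc : v = n
            · rw [if_pos (Or.inr hc), if_neg ha, if_pos hc]; norm_num
            · rw [if_neg (by tauto), if_neg ha, if_neg hc]; norm_num
      _ ≤ 2 := by
          rw [sum_add_distrib, sum_ite_eq' (range (n + 1)) 0, sum_ite_eq' (range (n + 1)) n, if_pos (by simp),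
            if_pos (by simp)]
          norm_num
  have h2 : ∑ v ∈ range (n + 1), 1 / ((n - v : ℕ) : ℝ) = ∑ v ∈ range (n + 1), 1 / (v : ℝ) := by
    have := sum_range_reflect (fun v : ℕ => 1 / (v : ℝ)) (n + 1)
    simpa using this
  have h3 := harm n
  have h4 : Real.log n ≤ Real.log ((n + 1 : ℕ) : ℝ) := by
    apply Real.log_le_log (by exact_mod_cast hn1)
    push_cast; linarith
  rw [h2]
  have h5 : vari (n + 1) w * ((n + 1 : ℕ) : ℝ) / 4 * (∑ v ∈ range (n + 1), 1 / (v : ℝ) + ∑ v ∈ range (n + 1), 1 / (v : ℝ)) ≤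
      vari (n + 1) w * ((n + 1 : ℕ) : ℝ) / 2 * (1 + Real.log ((n + 1 : ℕ) : ℝ)) := by
    have h6 : vari (n + 1) w * ((n + 1 : ℕ) : ℝ) / 4 * (∑ v ∈ range (n + 1), 1 / (v : ℝ) + ∑ v ∈ range (n + 1), 1 / (v : ℝ)) =
        vari (n + 1) w * ((n + 1 : ℕ) : ℝ) / 2 * (∑ v ∈ range (n + 1), 1 / (v : ℝ)) := by ring
    rw [h6]
    apply mul_le_mul_of_nonneg_left (by linarith) (by positivity)
  linarith

/-- the variation of a law is at least `2 / b` -/
lemma vari_ge (b : ℕ) (hb : 1 ≤ b) (w : ℕ → ℝ) (_h0 : ∀ d, 0 ≤ w d) (h1 : ∑ d ∈ range b, w d = 1) :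
    1 ≤ vari b w * b := by
  obtain ⟨n, rfl⟩ : ∃ n, b = n + 1 := ⟨b - 1, by omega⟩
  -- every value is at most the variation
  have h2 : ∀ d, d ≤ n → w d ≤ |w 0| + ∑ e ∈ range d, |w (e + 1) - w e| := by
    intro d hd
    induction d with
    | zero => simp [le_abs_self]
    | succ d ih =>
      rw [sum_range_succ]
      have h3 := ih (by omega)
      have h4 := le_abs_self (w (d + 1) - w d)
      linarith
  have h3 : ∀ d ∈ range (n + 1), w d ≤ vari (n + 1) w := by
    intro d hd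
    rw [mem_range] at hd
    refine (h2 d (by omega)).trans ?_
    unfold vari
    rw [Nat.add_sub_cancel]
    have h4 : ∑ e ∈ range d, |w (e + 1) - w e| ≤ ∑ e ∈ range n, |w (e + 1) - w e| :=
      sum_le_sum_of_subset_of_nonneg (range_subset_range.2 (by omega)) (fun _ _ _ => abs_nonneg _)
    have := abs_nonneg (w n)
    linarith
  have h4 := sum_le_sum h3
  rw [h1, sum_const, card_range, nsmul_eq_mul] at h4
  linarith

/-- in a large base the sums over the cells are at most a small power of the base -/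
lemma small_B (n : ℕ) (_hn : 1 ≤ n) : ∃ b0 : ℕ, 2 ≤ b0 ∧ ∀ b : ℕ, b0 ≤ b → ∀ w : ℕ → ℕ → ℝ, Law b w →
    (∀ i, (vari b (w i) * b) ^ (2 * n) ≤ b) → ∃ B : ℝ, 0 ≤ B ∧ (∀ i, ∑ v ∈ range b, hv b (w i) v ≤ B) ∧ B ^ n ≤ b := by
  have hlim : ∀ᶠ b : ℕ in Filter.atTop, (3 + Real.log b) ^ (2 * n) ≤ b := by
    have h1 : (fun x : ℝ => (3 + Real.log x) ^ (2 * n)) =o[Filter.atTop] fun x : ℝ => x := by
      have h2 : (fun x : ℝ => (3 + Real.log x)) =O[Filter.atTop] fun x : ℝ => Real.log x := by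
        apply Asymptotics.IsBigO.add
        · exact (Real.isLittleO_const_log_atTop (c := 3)).isBigO
        · exact Asymptotics.isBigO_refl _ _
      have h3 := (h2.pow (2 * n)).trans_isLittleO
        (g := fun x : ℝ => Real.log x ^ (2 * n)) (k := fun x : ℝ => x) Real.isLittleO_pow_log_id_atTop
      exact h3
    have h4 := h1.bound (show (0 : ℝ) < 1 by norm_num)
    filter_upwards [tendsto_natCast_atTop_atTop.eventually h4, Filter.eventually_ge_atTop 1] with b hb hb1
    have hlog : 0 ≤ Real.log b := Real.log_nonneg (by exact_mod_cast hb1)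
    rw [Real.norm_of_nonneg (by positivity), Real.norm_of_nonneg (Nat.cast_nonneg _), one_mul] at hb
    exact hb
  obtain ⟨b0, hb0⟩ := Filter.eventually_atTop.1 hlim
  refine ⟨max b0 2, le_max_right _ _, fun b hb w hw hV => ?_⟩
  have hb2 : 2 ≤ b := (le_max_right _ _).trans hb
  have hbb := hb0 b ((le_max_left _ _).trans hb)
  have hbr : (0 : ℝ) < b := by exact_mod_cast (by omega : 0 < b)
  have hlog : 0 ≤ Real.log b := Real.log_nonneg (by exact_mod_cast (by omega : 1 ≤ b))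
  obtain ⟨s, hs⟩ : ∃ s : ℝ, s = (b : ℝ) ^ ((1 : ℝ) / (2 * n : ℕ)) := ⟨_, rfl⟩
  have hs0 : 0 ≤ s := by rw [hs]; positivity
  have hsn : s ^ (2 * n) = b := by
    rw [hs, ← Real.rpow_natCast, ← Real.rpow_mul hbr.le]
    have : (1 : ℝ) / (2 * n : ℕ) * (2 * n : ℕ) = 1 := by
      have : ((2 * n : ℕ) : ℝ) ≠ 0 := by
        have : 2 * n ≠ 0 := by omega
        exact_mod_cast this
      field_simp
    rw [this, Real.rpow_one]
  refine ⟨s * (3 + Real.log b), by positivity, ?_, ?_⟩
  · intro i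
    have h1 := sum_hv b hb2 (w i)
    have h2 := vari_ge b (by omega) (w i) (hw i).1 (hw i).2
    have h3 : vari b (w i) * b ≤ s := by
      have h4 : (vari b (w i) * b) ^ (2 * n) ≤ s ^ (2 * n) := by rw [hsn]; exact hV i
      exact le_of_pow_le_pow_left₀ (by omega) hs0 h4
    have h4 : 2 + vari b (w i) * b / 2 * (1 + Real.log b) ≤ s * (3 + Real.log b) := by
      have h5 : 1 ≤ s := h2.trans h3
      have h6 : vari b (w i) * b / 2 * (1 + Real.log b) ≤ s / 2 * (1 + Real.log b) := by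
        apply mul_le_mul_of_nonneg_right _ (by positivity)
        linarith
      nlinarith
    exact h1.trans h4
  · have h1 : ((s * (3 + Real.log b)) ^ n) ^ 2 ≤ (b : ℝ) ^ 2 := by
      have e : ((s * (3 + Real.log b)) ^ n) ^ 2 = s ^ (2 * n) * (3 + Real.log b) ^ (2 * n) := by
        rw [← pow_mul, mul_comm n 2, mul_pow]
      rw [e, hsn, sq]
      exact mul_le_mul_of_nonneg_left hbb hbr.le
    exact le_of_pow_le_pow_left₀ (by norm_num) hbr.le h1

end Pool.Agent.L7h18.DG
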