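import Pool.Agent.L7h18.DG.A4
import Pool.Agent.L7h18.DG.A5

/-!
The second moment with logarithmic savings.
-/

set_option autoImplicit false

namespace Pool.Agent.L7h18.DG

open Finset Polynomial
open Pool.Agent.Helper112
open Pool.Agent.TH204.WR (EE cutf)
open Pool.Agent.H373R2.NB (Ph Ph_poly)

lemma evt_two (n : ℕ) : ∃ K0 : ℕ, ∀ K : ℕ, K0 ≤ K → K ^ n ≤ 2 ^ K := by
  have h := tendsto_pow_const_div_const_pow_of_one_lt n (show (1 : ℝ) < 2 by norm_num)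
  have h2 := (h.eventually_lt_const (show (0 : ℝ) < 1 by norm_num))
  obtain ⟨K0, hK0⟩ := Filter.eventually_atTop.1 h2
  refine ⟨K0, fun K hK => ?_⟩
  have h3 := hK0 K hK
  rw [div_lt_one (by positivity)] at h3
  exact_mod_cast h3.le

/-- the root of order `e` of `b ^ K` -/
noncomputable def xr (b K e : ℕ) : ℝ := ((b : ℝ) ^ K) ^ ((1 : ℝ) / e)

lemma xr_pow (b K e : ℕ) (he : 1 ≤ e) : xr b K e ^ e = (b : ℝ) ^ K := by
  unfold xr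
  rw [← Real.rpow_natCast, ← Real.rpow_mul (by positivity)]
  have : (1 : ℝ) / e * (e : ℕ) = 1 := by
    have : (e : ℝ) ≠ 0 := by
      have : e ≠ 0 := by omega
      exact_mod_cast this
    field_simp
  rw [this, Real.rpow_one]

lemma xr_ge (b K e : ℕ) (hb : 1 ≤ b) : 1 ≤ xr b K e := by
  unfold xr
  apply Real.one_le_rpow (one_le_pow₀ (by exact_mod_cast hb)) (by positivity)

/-- the second moment with logarithmic savings -/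
theorem cut_bound (e : ℕ) (he : 1 ≤ e) : ∃ n0 : ℕ, 1 ≤ n0 ∧ ∀ b : ℕ, 2 ≤ b → ∀ A W : ℕ, ∃ A' K0 : ℕ, ∀ K : ℕ, K0 ≤ K →
    ∀ (w h : ℕ → ℕ → ℝ) (B : ℝ), Law b w → (∀ i v, 0 ≤ h i v) → (∀ i, Cell b (w i) (h i)) →
    0 ≤ B → (∀ i, ∑ v ∈ range b, h i v ≤ B) → B ^ n0 ≤ b →
    ∀ (P : ℤ[X]) (N Y : ℕ) (σ : ℤ) (f : ℤ → ℝ) (Z Q : ℝ), P.natDegree = e → P.leadingCoeff.natAbs ≤ K ^ A →
      (N : ℝ) ≤ (K : ℝ) ^ A * xr b K e → (σ = 1 ∨ σ = -1) →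
      (∀ α : ℝ, ‖EE Y f α‖ ≤ Z) → (∑ y ∈ Icc (1 : ℤ) Y, f y ^ 2 ≤ Q) → Z ≤ (b : ℝ) ^ K / (K : ℝ) ^ A' →
      Q ≤ (b : ℝ) ^ K * (K : ℝ) ^ A →
      ∑ c ∈ range (b ^ K), Wt b K w c * (∑ n ∈ range N, cutf Y f (P.eval (n : ℤ) + σ * c)) ^ 2 ≤
        xr b K e ^ 2 / (K : ℝ) ^ W := by
  obtain ⟨c0, m0, hc0, hm0, hmom⟩ := digit_moment e he
  refine ⟨16 * m0, by omega, fun b hb2 A W => ?_⟩
  obtain ⟨a, ha⟩ : ∃ a, a = 7 * A + 6 + W + 2 := ⟨_, rfl⟩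
  obtain ⟨p, hp⟩ : ∃ p, p = 2 * A + 4 + 8 * m0 * a := ⟨_, rfl⟩
  obtain ⟨A', hA'⟩ : ∃ A', A' = 2 * p + A + W + 1 := ⟨_, rfl⟩
  obtain ⟨K1, hK1⟩ := evt_two (32 * m0 * a)
  obtain ⟨K2, hK2⟩ := evt_two (8 * A + 10)
  refine ⟨A', max (max K1 K2) (c0 * e.factorial + 4 * b ^ 2 * 4 ^ (8 * m0) + 64), fun K hK => ?_⟩
  have g1 : K1 ≤ K := le_trans (le_trans (le_max_left _ _) (le_max_left _ _)) hK
  have g2 : K2 ≤ K := le_trans (le_trans (le_max_right _ _) (le_max_left _ _)) hK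
  have g3 : c0 * e.factorial + 4 * b ^ 2 * 4 ^ (8 * m0) + 64 ≤ K := (le_max_right _ _).trans hK
  intro w h B hw hh hc hB0 hB hBb P N Y σ f Z Q hP hlc hN hσ hsup hQ hZ hQ2
  have hb : 0 < b := by omega
  have hbr : (0 : ℝ) < b := by exact_mod_cast hb
  have hK64 : 64 ≤ K := by omega
  have hKr : (64 : ℝ) ≤ K := by exact_mod_cast hK64
  have hK0 : (0 : ℝ) < K := by linarith
  have hKp : ∀ n : ℕ, (0 : ℝ) < (K : ℝ) ^ n := fun n => by positivity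
  have hK1' : (1 : ℝ) ≤ K := by linarith
  have hKp1 : ∀ n : ℕ, (1 : ℝ) ≤ (K : ℝ) ^ n := fun n => one_le_pow₀ hK1'
  have hX : (0 : ℝ) < (b : ℝ) ^ K := by positivity
  have hx1 := xr_ge b K e (by omega)
  obtain ⟨x, hx⟩ : ∃ x, x = xr b K e := ⟨_, rfl⟩
  rw [← hx] at hx1 hN ⊢
  have hxe : x ^ e = (b : ℝ) ^ K := by rw [hx]; exact xr_pow b K e he
  have hx0 : 0 < x := by linarith
  -- t1
  obtain ⟨l, hl⟩ : ∃ l, l = Nat.log 2 K + 1 := ⟨_, rfl⟩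
  have hl1 : K < 2 ^ l := by rw [hl]; exact Nat.lt_pow_succ_log_self (by norm_num) K
  have hl2 : 2 ^ l ≤ K ^ 2 := by
    have : 2 ^ (Nat.log 2 K) ≤ K := Nat.pow_log_le_self 2 (by omega)
    rw [hl, pow_succ, sq]
    exact Nat.mul_le_mul this (by omega)
  obtain ⟨t1, ht1⟩ : ∃ t1, t1 = a * l := ⟨_, rfl⟩
  have h8 : (K : ℝ) ^ a ≤ (8 : ℝ) ^ t1 := by
    have : K ^ a ≤ 8 ^ t1 := by
      calc K ^ a ≤ (2 ^ l) ^ a := Nat.pow_le_pow_left hl1.le a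
        _ = 2 ^ t1 := by rw [← pow_mul, ht1, mul_comm]
        _ ≤ 8 ^ t1 := Nat.pow_le_pow_left (by norm_num) _
    exact_mod_cast this
  have h4a : 4 ^ (2 * m0 * t1) ≤ K ^ (8 * m0 * a) := by
    calc 4 ^ (2 * m0 * t1) = (2 ^ l) ^ (4 * m0 * a) := by
          rw [show (4 : ℕ) = 2 ^ 2 by norm_num, ← pow_mul, ← pow_mul, ht1]
          congr 1
          ring
      _ ≤ (K ^ 2) ^ (4 * m0 * a) := Nat.pow_le_pow_left hl2 _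
      _ = K ^ (8 * m0 * a) := by rw [← pow_mul]; congr 1; ring
  have h4b : 4 ^ (8 * m0 * t1) ≤ b ^ K := by
    calc 4 ^ (8 * m0 * t1) = (2 ^ l) ^ (16 * m0 * a) := by
          rw [show (4 : ℕ) = 2 ^ 2 by norm_num, ← pow_mul, ← pow_mul, ht1]
          congr 1
          ring
      _ ≤ (K ^ 2) ^ (16 * m0 * a) := Nat.pow_le_pow_left hl2 _
      _ = K ^ (32 * m0 * a) := by rw [← pow_mul]; congr 1; ring
      _ ≤ 2 ^ K := hK1 K g1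
      _ ≤ b ^ K := Nat.pow_le_pow_left hb2 K
  -- A0
  have hlc0 : P.leadingCoeff ≠ 0 := by
    apply leadingCoeff_ne_zero.2
    intro h0
    rw [h0, natDegree_zero] at hP
    omega
  obtain ⟨A0, hA0⟩ : ∃ A0 : ℤ, A0 = (e.factorial : ℤ) * P.leadingCoeff := ⟨_, rfl⟩
  have hA0n : A0 ≠ 0 := by
    rw [hA0]
    exact mul_ne_zero (by exact_mod_cast Nat.factorial_ne_zero e) hlc0
  obtain ⟨Cw, hCw⟩ : ∃ Cw, Cw = c0 * A0.natAbs := ⟨_, rfl⟩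
  have hCwK : Cw ≤ K ^ (A + 1) := by
    have h1 : A0.natAbs = e.factorial * P.leadingCoeff.natAbs := by
      rw [hA0, Int.natAbs_mul, Int.natAbs_natCast]
    rw [hCw, h1, pow_succ]
    calc c0 * (e.factorial * P.leadingCoeff.natAbs) = P.leadingCoeff.natAbs * (c0 * e.factorial) := by ring
      _ ≤ K ^ A * K := Nat.mul_le_mul hlc (by omega)
  have hbig : (4 * b ^ 2 * Cw ^ 4 * 1 ^ 2 * 4 ^ (8 * m0)) ^ 2 ≤ b ^ K := by
    calc (4 * b ^ 2 * Cw ^ 4 * 1 ^ 2 * 4 ^ (8 * m0)) ^ 2 = ((4 * b ^ 2 * 4 ^ (8 * m0)) * Cw ^ 4) ^ 2 := by ring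
      _ ≤ (K * (K ^ (A + 1)) ^ 4) ^ 2 := by
          apply Nat.pow_le_pow_left
          exact Nat.mul_le_mul (by omega) (Nat.pow_le_pow_left hCwK 4)
      _ = K ^ (8 * A + 10) := by ring
      _ ≤ 2 ^ K := hK2 K g2
      _ ≤ b ^ K := Nat.pow_le_pow_left hb2 K
  have hPh : ∀ γ : ℝ, Ph e (γ * (A0 : ℝ)) (fun n => γ * ((P.eval (n : ℤ) : ℤ) : ℝ)) := by
    intro γ
    have h1 := Ph_poly e P hP.le γ
    have h2 : ((e.factorial : ℝ) * (P.coeff e : ℤ)) = (A0 : ℝ) := by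
      rw [hA0, ← hP]
      push_cast
      rfl
    rw [h2] at h1
    exact h1
  -- L
  obtain ⟨S, hS⟩ : ∃ S : ℕ, S = (∑ n ∈ range N, (P.eval (n : ℤ)).natAbs) + b ^ K + Y + 1 := ⟨_, rfl⟩
  have hSL : S < b ^ (K + S) := by
    calc S < 2 ^ S := Nat.lt_two_pow_self
      _ ≤ b ^ S := Nat.pow_le_pow_left hb2 S
      _ ≤ b ^ (K + S) := Nat.pow_le_pow_right hb (by omega)
  have hrange : ∀ n < N, ∀ c < b ^ K, |P.eval (n : ℤ) + σ * c| + Y < (b : ℤ) ^ (K + S) := by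
    intro n hn c hc'
    have h1 : (P.eval (n : ℤ)).natAbs ≤ ∑ n ∈ range N, (P.eval (n : ℤ)).natAbs :=
      single_le_sum (f := fun n : ℕ => (P.eval (n : ℤ)).natAbs) (fun i _ => Nat.zero_le _) (mem_range.2 hn)
    have h2 : |P.eval (n : ℤ) + σ * c| ≤ |P.eval (n : ℤ)| + c := by
      refine (abs_add_le _ _).trans ?_
      have : |σ * (c : ℤ)| = c := by
        rcases hσ with h | h <;> rw [h] <;> simp
      rw [this]
    have h3 : |P.eval (n : ℤ)| = ((P.eval (n : ℤ)).natAbs : ℤ) := Int.abs_eq_natAbs _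
    have h4 : (S : ℤ) < (b : ℤ) ^ (K + S) := by exact_mod_cast hSL
    have h5 : |P.eval (n : ℤ) + σ * c| + Y ≤ (S : ℤ) := by
      rw [h3] at h2
      have h6 : ((P.eval (n : ℤ)).natAbs : ℤ) + c + Y ≤ S := by
        have : (P.eval (n : ℤ)).natAbs + c + Y ≤ S := by omega
        exact_mod_cast this
      linarith
    linarith
  have hYR : Y ≤ b ^ (K + S) := by omega
  have hKA : (1 : ℝ) ≤ (K : ℝ) ^ A := hKp1 A
  have hM1 : 1 ≤ (K : ℝ) ^ A * x := one_le_mul_of_one_le_of_one_le hKA hx1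
  have hXM : (b : ℝ) ^ K ≤ ((1 : ℕ) : ℝ) * ((K : ℝ) ^ A * x) ^ e := by
    rw [Nat.cast_one, one_mul, mul_pow, hxe]
    exact le_mul_of_one_le_left hX.le (one_le_pow₀ hKA)
  have key := hmom b hb2 w h B hw hh hc hB0 hB hBb K (K + S) Y N 1 t1 Cw f (fun n => P.eval (n : ℤ)) σ A0
    ((K : ℝ) ^ A * x) Z Q hσ hA0n (by omega) le_rfl hN hM1 hXM hPh hrange hYR hsup hQ hCw h4b hbig
  refine key.trans ?_
  have hZ0 : 0 ≤ Z := (norm_nonneg _).trans (hsup 0)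
  have hCwr : (Cw : ℝ) ≤ (K : ℝ) ^ (A + 1) := by exact_mod_cast hCwK
  have hCw0 : (0 : ℝ) ≤ Cw := Nat.cast_nonneg _
  have hb4 : (b : ℝ) ≤ K := by
    have h1 : b ≤ b ^ 2 := Nat.le_self_pow (by norm_num) b
    have h2 : b ^ 2 ≤ 4 * b ^ 2 * 4 ^ (8 * m0) := by
      calc b ^ 2 ≤ 4 * b ^ 2 := by omega
        _ ≤ 4 * b ^ 2 * 4 ^ (8 * m0) := Nat.le_mul_of_pos_right _ (Nat.pow_pos (by norm_num))
    exact_mod_cast (by omega : b ≤ K)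
  have h4ar : (4 : ℝ) ^ (2 * m0 * t1) ≤ (K : ℝ) ^ (8 * m0 * a) := by exact_mod_cast h4a
  -- first term
  have hT1 : 2 * (((b : ℝ) * (2 * (Cw : ℝ) ^ 2 * ((1 : ℕ) : ℝ) * 4 ^ (2 * m0 * t1))) ^ 2 * Z * ((K : ℝ) ^ A * x) / (b : ℝ) ^ K) ^ 2 ≤
      x ^ 2 / (K : ℝ) ^ W / 2 := by
    have h1 : (b : ℝ) * (2 * (Cw : ℝ) ^ 2 * ((1 : ℕ) : ℝ) * 4 ^ (2 * m0 * t1)) ≤ (K : ℝ) ^ p := by
      calc (b : ℝ) * (2 * (Cw : ℝ) ^ 2 * ((1 : ℕ) : ℝ) * 4 ^ (2 * m0 * t1))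
          ≤ K * (K * ((K : ℝ) ^ (A + 1)) ^ 2 * ((1 : ℕ) : ℝ) * (K : ℝ) ^ (8 * m0 * a)) := by
            gcongr
            linarith
        _ = (K : ℝ) ^ p := by
            rw [hp]
            push_cast
            ring
    have h2 : ((b : ℝ) * (2 * (Cw : ℝ) ^ 2 * ((1 : ℕ) : ℝ) * 4 ^ (2 * m0 * t1))) ^ 2 * Z * ((K : ℝ) ^ A * x) / (b : ℝ) ^ K ≤
        x / (K : ℝ) ^ (W + 1) := by
      rw [div_le_iff₀ hX]
      calc ((b : ℝ) * (2 * (Cw : ℝ) ^ 2 * ((1 : ℕ) : ℝ) * 4 ^ (2 * m0 * t1))) ^ 2 * Z * ((K : ℝ) ^ A * x)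
          ≤ ((K : ℝ) ^ p) ^ 2 * ((b : ℝ) ^ K / (K : ℝ) ^ A') * ((K : ℝ) ^ A * x) := by gcongr
        _ = x / (K : ℝ) ^ (W + 1) * (b : ℝ) ^ K := by
            have e1 : (K : ℝ) ^ A' = ((K : ℝ) ^ p) ^ 2 * (K : ℝ) ^ A * (K : ℝ) ^ (W + 1) := by
              rw [hA']; ring
            rw [e1]
            have := (hKp p).ne'
            have := (hKp A).ne'
            have := (hKp (W + 1)).ne'
            field_simp
    have h3 : (((b : ℝ) * (2 * (Cw : ℝ) ^ 2 * ((1 : ℕ) : ℝ) * 4 ^ (2 * m0 * t1))) ^ 2 * Z * ((K : ℝ) ^ A * x) / (b : ℝ) ^ K) ^ 2 ≤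
        (x / (K : ℝ) ^ (W + 1)) ^ 2 := pow_le_pow_left₀ (by positivity) h2 2
    have h4 : 2 * (x / (K : ℝ) ^ (W + 1)) ^ 2 ≤ x ^ 2 / (K : ℝ) ^ W / 2 := by
      have e2 : 2 * (x / (K : ℝ) ^ (W + 1)) ^ 2 = (4 / ((K : ℝ) ^ W * K ^ 2)) * (x ^ 2 / (K : ℝ) ^ W / 2) := by
        have := (hKp W).ne'
        rw [pow_succ (K : ℝ) W]
        field_simp
        norm_num
      rw [e2]
      apply mul_le_of_le_one_left (by positivity)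
      rw [div_le_one (by positivity)]
      have h5 : (1 : ℝ) ≤ (K : ℝ) ^ W := hKp1 W
      nlinarith
    linarith
  have hQ0 : 0 ≤ Q := (sum_nonneg fun _ _ => sq_nonneg _).trans hQ
  -- second term
  have hT2 : 4 * ((K : ℝ) ^ A * x) ^ 2 * (8 * (b : ℝ) ^ 2 * (Cw : ℝ) ^ 4 * ((1 : ℕ) : ℝ) ^ 2) * Q / ((b : ℝ) ^ K * 8 ^ t1) ≤
      x ^ 2 / (K : ℝ) ^ W / 2 := by
    have h1 : 4 * ((K : ℝ) ^ A * x) ^ 2 * (8 * (b : ℝ) ^ 2 * (Cw : ℝ) ^ 4 * ((1 : ℕ) : ℝ) ^ 2) * Q ≤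
        32 * (K : ℝ) ^ (7 * A + 6) * x ^ 2 * (b : ℝ) ^ K := by
      calc 4 * ((K : ℝ) ^ A * x) ^ 2 * (8 * (b : ℝ) ^ 2 * (Cw : ℝ) ^ 4 * ((1 : ℕ) : ℝ) ^ 2) * Q
          ≤ 4 * ((K : ℝ) ^ A * x) ^ 2 * (8 * (K : ℝ) ^ 2 * ((K : ℝ) ^ (A + 1)) ^ 4 * ((1 : ℕ) : ℝ) ^ 2) *
              ((b : ℝ) ^ K * (K : ℝ) ^ A) := by gcongr
        _ = _ := by
            push_cast
            ring
    rw [div_le_iff₀ (by positivity)]
    refine h1.trans ?_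
    have h2 : 32 * (K : ℝ) ^ (7 * A + 6) ≤ 1 / (K : ℝ) ^ W / 2 * 8 ^ t1 := by
      have h3 : 1 / (K : ℝ) ^ W / 2 * (K : ℝ) ^ a ≤ 1 / (K : ℝ) ^ W / 2 * 8 ^ t1 :=
        mul_le_mul_of_nonneg_left h8 (by positivity)
      refine le_trans ?_ h3
      have e3 : 1 / (K : ℝ) ^ W / 2 * (K : ℝ) ^ a = (K : ℝ) ^ (7 * A + 6) * (K ^ 2 / 2) := by
        rw [ha, pow_add, pow_add _ (7 * A + 6) W]
        have := (hKp W).ne'
        field_simp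
      rw [e3]
      have h5 : (32 : ℝ) ≤ K ^ 2 / 2 := by nlinarith
      have h6 := mul_le_mul_of_nonneg_left h5 (hKp (7 * A + 6)).le
      linarith
    calc 32 * (K : ℝ) ^ (7 * A + 6) * x ^ 2 * (b : ℝ) ^ K ≤ (1 / (K : ℝ) ^ W / 2 * 8 ^ t1) * x ^ 2 * (b : ℝ) ^ K := by
          gcongr
      _ = _ := by ring
  linarith

end Pool.Agent.L7h18.DG
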