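import Pool.Agent.L7h18.DG.A6
import Pool.Agent.TH892.LW.N7

/-!
Bounded functions with small exponential sums at polynomial values with constant terms with independent digits.
-/

set_option autoImplicit false

namespace Pool.Agent.L7h18.DG

open Finset Polynomial
open Pool.Agent.Helper112
open Pool.Agent.TH204.WR (EE cutf cutf_in cutf_out)
open Pool.Agent.TH892.LW (Dav sq_dav)

/-- a law with cells -/
def Good (b n : ℕ) (w : ℕ → ℕ → ℝ) : Prop := Law b w ∧ ∃ (h : ℕ → ℕ → ℝ) (B : ℝ), (∀ i v, 0 ≤ h i v) ∧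
  (∀ i, Cell b (w i) (h i)) ∧ 0 ≤ B ∧ (∀ i, ∑ v ∈ range b, h i v ≤ B) ∧ B ^ n ≤ b

lemma cutf_two (f : ℤ → ℝ) (hev : ∀ v, f (-v) = f v) (h0 : f 0 = 0) (Y : ℕ) (v : ℤ) (hv : |v| ≤ Y) :
    f v = cutf Y f v + cutf Y f (-v) := by
  rw [abs_le] at hv
  unfold cutf
  rcases lt_trichotomy v 0 with h | h | h
  · rw [if_neg (by omega), if_pos (by omega), hev, zero_add]
  · rw [h, neg_zero, if_neg (by omega), h0, add_zero]
  · rw [if_pos (by omega), if_neg (by omega), add_zero]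

/-- the size of the values of a polynomial -/
lemma eval_size (F : ℤ[X]) (e : ℕ) (hF : F.natDegree ≤ e) (H : ℝ) (_hH : 0 ≤ H) (hc : ∀ i, |(F.coeff i : ℝ)| ≤ H)
    (m : ℤ) (T : ℝ) (hT : 1 ≤ T) (hm : |(m : ℝ)| ≤ T) : |((F.eval m : ℤ) : ℝ)| ≤ (e + 1) * (H * T ^ e) := by
  rw [eval_eq_sum_range' (Nat.lt_succ_of_le hF)]
  push_cast
  refine (abs_sum_le_sum_abs _ _).trans ?_
  calc ∑ i ∈ range (e + 1), |(F.coeff i : ℝ) * (m : ℝ) ^ i| ≤ ∑ _i ∈ range (e + 1), H * T ^ e := by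
        refine sum_le_sum fun i hi => ?_
        rw [mem_range] at hi
        rw [abs_mul, abs_pow]
        apply mul_le_mul (hc i) _ (by positivity) (by linarith)
        calc |(m : ℝ)| ^ i ≤ T ^ i := pow_le_pow_left₀ (abs_nonneg _) hm i
          _ ≤ T ^ e := pow_le_pow_right₀ hT (by omega)
    _ = _ := by rw [sum_const, card_range, nsmul_eq_mul]; push_cast; ring

/-- the polynomial with given coefficients -/
noncomputable def polyOf (e : ℕ) (a : Fin (e + 1) → ℤ) : ℤ[X] := ∑ i : Fin (e + 1), C (a i) * X ^ (i : ℕ)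

lemma polyOf_coeff (F : ℤ[X]) (e : ℕ) (hF : F.natDegree = e) : polyOf e (fun i => F.coeff i) = F := by
  unfold polyOf
  conv_rhs => rw [F.as_sum_range_C_mul_X_pow, hF, Finset.sum_range]

lemma sum_biUnion_le_sum_of_nonneg' {ι : Type*} [DecidableEq ι] (b K : ℕ) (w : ℕ → ℕ → ℝ) (hW : ∀ c, 0 ≤ Wt b K w c)
    (I : Finset ι) (Bd : ι → Finset ℕ) : ∑ c ∈ I.biUnion Bd, Wt b K w c ≤ ∑ i ∈ I, ∑ c ∈ Bd i, Wt b K w c := by
  classical
  induction I using Finset.induction_on with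
  | empty => simp
  | insert i I hi ih =>
    rw [biUnion_insert, sum_insert hi]
    have h1 : ∑ c ∈ Bd i ∪ I.biUnion Bd, Wt b K w c + ∑ c ∈ Bd i ∩ I.biUnion Bd, Wt b K w c =
        ∑ c ∈ Bd i, Wt b K w c + ∑ c ∈ I.biUnion Bd, Wt b K w c := sum_union_inter
    have h2 : 0 ≤ ∑ c ∈ Bd i ∩ I.biUnion Bd, Wt b K w c := sum_nonneg fun c _ => hW c
    linarith

open Classical in
/-- **one function, all the polynomials of degree `e`** -/
theorem all_poly (e : ℕ) (he : 1 ≤ e) : ∃ n0 : ℕ, 1 ≤ n0 ∧ ∀ b : ℕ, 2 ≤ b → ∀ (A U : ℕ) (f : ℤ → ℝ), Dav f →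
    (∀ v, f (-v) = f v) → f 0 = 0 → ∃ K0 : ℕ, ∀ K : ℕ, K0 ≤ K → ∀ w : ℕ → ℕ → ℝ, Good b n0 w →
    ∀ c₁ : ℤ, |c₁| ≤ (K : ℤ) ^ A * (b : ℤ) ^ K →
    ∃ Ex : Finset ℕ, Ex ⊆ range (b ^ K) ∧ ∑ c ∈ Ex, Wt b K w c ≤ 1 / (K : ℝ) ^ U ∧
    ∀ c < b ^ K, c ∉ Ex → ∀ F : ℤ[X], F.natDegree = e → (∀ i, |F.coeff i| ≤ (K : ℤ) ^ A) →
    ∀ q r N : ℕ, 1 ≤ q → q ≤ K ^ A → r < q → (q : ℝ) * N ≤ (K : ℝ) ^ (A + 1) * xr b K e →
      |∑ n ∈ range N, f (F.eval ((q * n + r : ℕ) : ℤ) + (c₁ + c))| ≤ xr b K e / (K : ℝ) ^ U := by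
  obtain ⟨n0, hn0, hcut⟩ := cut_bound e he
  refine ⟨n0, hn0, fun b hb2 A U f hf hev hf0 => ?_⟩
  obtain ⟨A3, hA3⟩ : ∃ A3, A3 = A + (A + 1) * e + 3 := ⟨_, rfl⟩
  obtain ⟨A9, hA9⟩ : ∃ A9, A9 = (A + 1) * (e + 1) + A + A + (A + U + 5) := ⟨_, rfl⟩
  obtain ⟨W, hW⟩ : ∃ W, W = A9 + (2 * U + 2) + U + 1 := ⟨_, rfl⟩
  obtain ⟨A', K1, hK1⟩ := hcut b hb2 A3 W
  obtain ⟨As, hAs⟩ : ∃ As, As = A3 + A' + 1 := ⟨_, rfl⟩
  obtain ⟨N1, hN1⟩ := hf.2 As
  obtain ⟨pw, hpw⟩ : ∃ pw, pw = 2 ^ As := ⟨_, rfl⟩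
  obtain ⟨K2, hK2⟩ := evt_two ((U + 3) * e)
  refine ⟨max (max K1 K2) (pw + N1 + e + b + 16), fun K hK w hw c₁ hc₁ => ?_⟩
  have g1 : K1 ≤ K := le_trans (le_trans (le_max_left _ _) (le_max_left _ _)) hK
  have g2 : K2 ≤ K := le_trans (le_trans (le_max_right _ _) (le_max_left _ _)) hK
  have g3 : pw + N1 + e + b + 16 ≤ K := (le_max_right _ _).trans hK
  obtain ⟨hlaw, h, B, hh, hc, hB0, hB, hBn⟩ := hw
  have hmain := hK1 K g1 w h B hlaw hh hc hB0 hB hBn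
  have hb : 0 < b := by omega
  have hbr : (2 : ℝ) ≤ b := by exact_mod_cast hb2
  have hbr0 : (0 : ℝ) < b := by linarith
  have hK16 : 16 ≤ K := by omega
  have hKr : (16 : ℝ) ≤ K := by exact_mod_cast hK16
  have hK0 : (0 : ℝ) < K := by linarith
  have hKp : ∀ n : ℕ, (0 : ℝ) < (K : ℝ) ^ n := fun n => by positivity
  have hK1' : (1 : ℝ) ≤ K := by linarith
  have hKp1 : ∀ n : ℕ, (1 : ℝ) ≤ (K : ℝ) ^ n := fun n => one_le_pow₀ hK1'
  have hX : (0 : ℝ) < (b : ℝ) ^ K := by positivity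
  have hX1 : (1 : ℝ) ≤ (b : ℝ) ^ K := one_le_pow₀ (by linarith)
  have hx1 := xr_ge b K e (by omega)
  obtain ⟨x, hx⟩ : ∃ x, x = xr b K e := ⟨_, rfl⟩
  rw [← hx] at hx1 hmain ⊢
  have hxe : x ^ e = (b : ℝ) ^ K := by rw [hx]; exact xr_pow b K e he
  have hx0 : 0 < x := by linarith
  have hWt : ∀ c, 0 ≤ Wt b K w c := fun c => Wt_nonneg K hlaw c
  -- the grid
  have hxbig : (K : ℝ) ^ (U + 3) ≤ x := by
    have h1 : ((K : ℝ) ^ (U + 3)) ^ e ≤ x ^ e := by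
      rw [hxe, ← pow_mul]
      calc (K : ℝ) ^ ((U + 3) * e) ≤ 2 ^ K := by exact_mod_cast hK2 K g2
        _ ≤ (b : ℝ) ^ K := pow_le_pow_left₀ (by norm_num) hbr _
    exact le_of_pow_le_pow_left₀ (by omega) hx0.le h1
  obtain ⟨Δ, hΔ⟩ : ∃ Δ, Δ = ⌊x / (K : ℝ) ^ (U + 2)⌋₊ := ⟨_, rfl⟩
  have hxK : 2 ≤ x / (K : ℝ) ^ (U + 2) := by
    rw [le_div_iff₀ (hKp _)]
    calc 2 * (K : ℝ) ^ (U + 2) ≤ K * (K : ℝ) ^ (U + 2) := by
          apply mul_le_mul_of_nonneg_right (by linarith) (hKp _).le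
      _ = (K : ℝ) ^ (U + 3) := by ring
      _ ≤ x := hxbig
  have hΔ1 : (Δ : ℝ) ≤ x / (K : ℝ) ^ (U + 2) := by rw [hΔ]; exact Nat.floor_le (by positivity)
  have hΔ2 : x / (K : ℝ) ^ (U + 2) ≤ 2 * Δ := by
    have := Nat.lt_floor_add_one (x / (K : ℝ) ^ (U + 2))
    rw [← hΔ] at this
    linarith
  have hΔ0 : 1 ≤ Δ := by
    have : (1 : ℝ) ≤ Δ := by linarith
    exact_mod_cast this
  have hΔr : (1 : ℝ) ≤ Δ := by exact_mod_cast hΔ0
  -- the size of the values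
  obtain ⟨Y, hY⟩ : ∃ Y, Y = b ^ K * K ^ A3 := ⟨_, rfl⟩
  have hYr : (Y : ℝ) = (b : ℝ) ^ K * (K : ℝ) ^ A3 := by rw [hY]; push_cast; rfl
  have hval : ∀ c < b ^ K, ∀ F : ℤ[X], F.natDegree = e → (∀ i, |F.coeff i| ≤ (K : ℤ) ^ A) → ∀ m : ℕ,
      (m : ℝ) ≤ (K : ℝ) ^ (A + 1) * x → |F.eval (m : ℤ) + (c₁ + c)| ≤ Y := by
    intro c hc' F hF hFc m hm
    have h1 := eval_size F e hF.le ((K : ℝ) ^ A) (hKp A).le (fun i => by exact_mod_cast hFc i) (m : ℤ)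
      ((K : ℝ) ^ (A + 1) * x) (one_le_mul_of_one_le_of_one_le (hKp1 _) hx1) (by
        rw [Int.cast_natCast, abs_of_nonneg (Nat.cast_nonneg m)]; exact hm)
    have h2 : |((F.eval (m : ℤ) + (c₁ + c) : ℤ) : ℝ)| ≤ (e + 1) * ((K : ℝ) ^ A * ((K : ℝ) ^ (A + 1) * x) ^ e) +
        ((K : ℝ) ^ A * (b : ℝ) ^ K + (b : ℝ) ^ K) := by
      push_cast
      refine (abs_add_le _ _).trans (add_le_add h1 ((abs_add_le _ _).trans (add_le_add ?_ ?_)))
      · exact_mod_cast hc₁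
      · rw [abs_of_nonneg (Nat.cast_nonneg c)]
        exact_mod_cast hc'.le
    have h3 : (e + 1) * ((K : ℝ) ^ A * ((K : ℝ) ^ (A + 1) * x) ^ e) + ((K : ℝ) ^ A * (b : ℝ) ^ K + (b : ℝ) ^ K) ≤ (Y : ℝ) := by
      rw [hYr, mul_pow, hxe]
      have e1 : (K : ℝ) ^ A3 = K * (K * ((K : ℝ) ^ A * ((K : ℝ) ^ (A + 1)) ^ e)) * K := by
        rw [hA3, ← pow_mul]; ring
      obtain ⟨g, hg⟩ : ∃ g : ℝ, g = (K : ℝ) ^ A * ((K : ℝ) ^ (A + 1)) ^ e := ⟨_, rfl⟩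
      have hgA : (K : ℝ) ^ A ≤ g := by
        rw [hg]
        exact le_mul_of_one_le_right (hKp A).le (one_le_pow₀ (hKp1 _))
      have hg1 : 1 ≤ g := (hKp1 A).trans hgA
      have e2 : (e + 1) * ((K : ℝ) ^ A * (((K : ℝ) ^ (A + 1)) ^ e * (b : ℝ) ^ K)) = (e + 1) * g * (b : ℝ) ^ K := by
        rw [hg]; ring
      rw [e1, e2, ← hg]
      have h4 : ((e : ℝ) + 1) ≤ K := by exact_mod_cast (by omega : e + 1 ≤ K)
      have h5 : ((e : ℝ) + 1) * g ≤ K * g := mul_le_mul_of_nonneg_right h4 (by linarith)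
      have h6 : K * g + (g + 1) ≤ K * (K * g) * K := by
        have h7 : g ≤ (K : ℝ) * g := le_mul_of_one_le_left (by linarith) hK1'
        have h8 : 3 * (K * g) ≤ K * (K * g) := mul_le_mul_of_nonneg_right (by linarith) (by linarith)
        have h9 : K * (K * g) * 1 ≤ K * (K * g) * K := mul_le_mul_of_nonneg_left hK1' (by positivity)
        linarith
      calc (e + 1) * g * (b : ℝ) ^ K + ((K : ℝ) ^ A * (b : ℝ) ^ K + (b : ℝ) ^ K)
          = ((e + 1) * g + ((K : ℝ) ^ A + 1)) * (b : ℝ) ^ K := by ring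
        _ ≤ (K * (K * g) * K) * (b : ℝ) ^ K := mul_le_mul_of_nonneg_right (by linarith) hX.le
        _ = _ := by ring
    have h4 := h2.trans h3
    rw [← Int.cast_abs] at h4
    exact_mod_cast h4
  -- the exponential sums
  have hlogY : (K : ℝ) / 2 ≤ Real.log Y := by
    have h1 : (2 : ℝ) ^ K ≤ Y := by
      rw [hYr]
      calc (2 : ℝ) ^ K ≤ (b : ℝ) ^ K := pow_le_pow_left₀ (by norm_num) hbr _
        _ ≤ _ := le_mul_of_one_le_right hX.le (hKp1 _)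
    have h2 := Real.log_le_log (by positivity) h1
    rw [Real.log_pow] at h2
    have := Real.log_two_gt_d9
    nlinarith
  have hYN : N1 ≤ Y := by
    have h1 : (N1 : ℝ) ≤ Y := by
      have h2 : (K : ℝ) < 2 ^ K := by exact_mod_cast Nat.lt_two_pow_self
      have h3 : (2 : ℝ) ^ K ≤ Y := by
        rw [hYr]
        calc (2 : ℝ) ^ K ≤ (b : ℝ) ^ K := pow_le_pow_left₀ (by norm_num) hbr _
          _ ≤ _ := le_mul_of_one_le_right hX.le (hKp1 _)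
      have h4 : (N1 : ℝ) ≤ K := by exact_mod_cast (by omega : N1 ≤ K)
      linarith
    exact_mod_cast h1
  have hsup : ∀ α : ℝ, ‖EE Y f α‖ ≤ (b : ℝ) ^ K / (K : ℝ) ^ A' := by
    intro α
    refine (hN1 Y hYN α).trans ?_
    have h1 : ((K : ℝ) / 2) ^ As ≤ Real.log Y ^ As := pow_le_pow_left₀ (by positivity) hlogY _
    have h2 : (Y : ℝ) / Real.log Y ^ As ≤ Y / ((K : ℝ) / 2) ^ As :=
      div_le_div_of_nonneg_left (Nat.cast_nonneg _) (by positivity) h1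
    refine h2.trans ?_
    rw [hYr, div_pow, div_div_eq_mul_div, div_le_div_iff₀ (hKp _) (hKp _)]
    have h3 : (2 : ℝ) ^ As ≤ K := by
      have h4 : pw ≤ K := by omega
      rw [hpw] at h4
      exact_mod_cast h4
    calc (b : ℝ) ^ K * (K : ℝ) ^ A3 * 2 ^ As * (K : ℝ) ^ A' ≤ (b : ℝ) ^ K * (K : ℝ) ^ A3 * K * (K : ℝ) ^ A' := by gcongr
      _ = (b : ℝ) ^ K * (K : ℝ) ^ As := by rw [hAs]; ring
  have hQ : ∑ y ∈ Icc (1 : ℤ) Y, f y ^ 2 ≤ (b : ℝ) ^ K * (K : ℝ) ^ A3 := by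
    rw [← hYr]
    exact sq_dav f hf.1 Y
  -- one index
  have hone : ∀ F : ℤ[X], F.natDegree = e → (∀ i, |F.coeff i| ≤ (K : ℤ) ^ A) → ∀ q r N : ℕ, 1 ≤ q → q ≤ K ^ A → r < q →
      (q : ℝ) * N ≤ (K : ℝ) ^ (A + 1) * x →
      ∑ c ∈ range (b ^ K), Wt b K w c * (∑ n ∈ range N, f (F.eval ((q * n + r : ℕ) : ℤ) + (c₁ + c))) ^ 2 ≤
        4 * (x ^ 2 / (K : ℝ) ^ W) := by
    intro F hF hFc q r N hq1 hq hr hqN
    obtain ⟨P, hP⟩ : ∃ P : ℤ[X], P = F.comp (C (q : ℤ) * X + C (r : ℤ)) := ⟨_, rfl⟩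
    have hq0 : (q : ℤ) ≠ 0 := by
      have : q ≠ 0 := by omega
      exact_mod_cast this
    have hlin : (C (q : ℤ) * X + C (r : ℤ)).natDegree = 1 := natDegree_linear hq0
    have hPd : P.natDegree = e := by rw [hP, natDegree_comp, hlin, mul_one, hF]
    have hPl : P.leadingCoeff = F.leadingCoeff * (q : ℤ) ^ e := by
      rw [hP, leadingCoeff_comp (by rw [hlin]; norm_num), leadingCoeff_linear hq0, hF]
    have hPl2 : P.leadingCoeff.natAbs ≤ K ^ A3 := by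
      rw [hPl, Int.natAbs_mul, Int.natAbs_pow, Int.natAbs_natCast]
      have h1 : F.leadingCoeff.natAbs ≤ K ^ A := by
        have := hFc F.natDegree
        rw [Int.abs_eq_natAbs] at this
        exact_mod_cast this
      calc F.leadingCoeff.natAbs * q ^ e ≤ K ^ A * (K ^ A) ^ e := Nat.mul_le_mul h1 (Nat.pow_le_pow_left hq e)
        _ = K ^ (A + A * e) := by rw [← pow_mul, ← pow_add]
        _ ≤ K ^ A3 := by
            apply Nat.pow_le_pow_right (by omega)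
            rw [hA3]
            nlinarith
    have hPe : ∀ n : ℕ, P.eval (n : ℤ) = F.eval ((q * n + r : ℕ) : ℤ) := by
      intro n
      rw [hP, eval_comp]
      congr 1
      simp
    have hNr : (N : ℝ) ≤ (K : ℝ) ^ A3 * x := by
      have h1 : (1 : ℝ) ≤ q := by exact_mod_cast hq1
      have h2 : (N : ℝ) ≤ q * N := le_mul_of_one_le_left (Nat.cast_nonneg _) h1
      refine h2.trans (hqN.trans ?_)
      apply mul_le_mul_of_nonneg_right _ hx0.le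
      apply pow_le_pow_right₀ hK1'
      rw [hA3]
      nlinarith
    obtain ⟨P', hP'⟩ : ∃ P' : ℤ[X], P' = P + C c₁ := ⟨_, rfl⟩
    have hPd' : P'.natDegree = e := by rw [hP', natDegree_add_C, hPd]
    have hPl' : P'.leadingCoeff = P.leadingCoeff := by
      unfold leadingCoeff
      rw [hPd', hPd, hP', coeff_add, coeff_C, if_neg (by omega), add_zero]
    have hPl2' : P'.leadingCoeff.natAbs ≤ K ^ A3 := by rw [hPl']; exact hPl2
    have hPe' : ∀ n : ℕ, P'.eval (n : ℤ) = F.eval ((q * n + r : ℕ) : ℤ) + c₁ := by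
      intro n
      rw [hP', eval_add, eval_C, hPe]
    have k1 := hmain P' N Y 1 f _ _ hPd' hPl2' hNr (Or.inl rfl) hsup hQ le_rfl le_rfl
    have k2 := hmain (-P') N Y (-1) f _ _ (by rw [natDegree_neg]; exact hPd') (by rw [leadingCoeff_neg, Int.natAbs_neg]; exact hPl2')
      hNr (Or.inr rfl) hsup hQ le_rfl le_rfl
    have hsplit : ∀ c ∈ range (b ^ K), Wt b K w c * (∑ n ∈ range N, f (F.eval ((q * n + r : ℕ) : ℤ) + (c₁ + c))) ^ 2 ≤
        2 * (Wt b K w c * (∑ n ∈ range N, cutf Y f (P'.eval (n : ℤ) + 1 * c)) ^ 2) +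
          2 * (Wt b K w c * (∑ n ∈ range N, cutf Y f ((-P').eval (n : ℤ) + (-1) * c)) ^ 2) := by
      intro c hc'
      rw [mem_range] at hc'
      have h1 : ∑ n ∈ range N, f (F.eval ((q * n + r : ℕ) : ℤ) + (c₁ + c)) =
          ∑ n ∈ range N, cutf Y f (P'.eval (n : ℤ) + 1 * c) + ∑ n ∈ range N, cutf Y f ((-P').eval (n : ℤ) + (-1) * c) := by
        rw [← sum_add_distrib]
        refine sum_congr rfl fun n hn => ?_
        rw [mem_range] at hn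
        have h2 : ((q * n + r : ℕ) : ℝ) ≤ (K : ℝ) ^ (A + 1) * x := by
          refine le_trans ?_ hqN
          have : q * n + r ≤ q * N := by
            calc q * n + r ≤ q * n + q := by omega
              _ = q * (n + 1) := by ring
              _ ≤ q * N := Nat.mul_le_mul_left _ hn
          exact_mod_cast this
        rw [cutf_two f hev hf0 Y _ (hval c hc' F hF hFc _ h2), hPe', eval_neg, hPe']
        congr 2 <;> ring
      rw [h1]
      have := hWt c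
      have h3 : (∑ n ∈ range N, cutf Y f (P'.eval (n : ℤ) + 1 * c) + ∑ n ∈ range N, cutf Y f ((-P').eval (n : ℤ) + (-1) * c)) ^ 2 ≤
          2 * (∑ n ∈ range N, cutf Y f (P'.eval (n : ℤ) + 1 * c)) ^ 2 +
            2 * (∑ n ∈ range N, cutf Y f ((-P').eval (n : ℤ) + (-1) * c)) ^ 2 := by
        nlinarith [sq_nonneg (∑ n ∈ range N, cutf Y f (P'.eval (n : ℤ) + 1 * c) -
          ∑ n ∈ range N, cutf Y f ((-P').eval (n : ℤ) + (-1) * c))]
      calc _ ≤ Wt b K w c * (2 * (∑ n ∈ range N, cutf Y f (P'.eval (n : ℤ) + 1 * c)) ^ 2 +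
            2 * (∑ n ∈ range N, cutf Y f ((-P').eval (n : ℤ) + (-1) * c)) ^ 2) := mul_le_mul_of_nonneg_left h3 this
        _ = _ := by ring
    refine (sum_le_sum hsplit).trans ?_
    rw [sum_add_distrib, ← mul_sum, ← mul_sum]
    linarith
  -- the exceptional set
  obtain ⟨I, hI⟩ : ∃ I : Finset ((Fin (e + 1) → ℤ) × (ℕ × (ℕ × ℕ))), I =
    (Fintype.piFinset (fun _ : Fin (e + 1) => Icc (-((K : ℤ) ^ A)) ((K : ℤ) ^ A))) ×ˢ
      ((Icc 1 (K ^ A)) ×ˢ ((range (K ^ A)) ×ˢ (range (K ^ (A + U + 4) + 1)))) := ⟨_, rfl⟩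
  obtain ⟨Cd, hCd⟩ : ∃ Cd : ((Fin (e + 1) → ℤ) × (ℕ × (ℕ × ℕ))) → Prop, Cd = fun i =>
    (polyOf e i.1).natDegree = e ∧ (∀ j, |(polyOf e i.1).coeff j| ≤ (K : ℤ) ^ A) ∧ 1 ≤ i.2.1 ∧ i.2.1 ≤ K ^ A ∧
      i.2.2.1 < i.2.1 ∧ (i.2.1 : ℝ) * ((i.2.2.2 * Δ : ℕ) : ℝ) ≤ (K : ℝ) ^ (A + 1) * x := ⟨_, rfl⟩
  obtain ⟨Bd, hBd⟩ : ∃ Bd : ((Fin (e + 1) → ℤ) × (ℕ × (ℕ × ℕ))) → Finset ℕ, Bd = fun i =>
    (range (b ^ K)).filter (fun c : ℕ => Cd i ∧ x / (K : ℝ) ^ (U + 1) <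
      |∑ n ∈ range (i.2.2.2 * Δ), f ((polyOf e i.1).eval ((i.2.1 * n + i.2.2.1 : ℕ) : ℤ) + (c₁ + c))|) := ⟨_, rfl⟩
  have hIcard : (#I : ℝ) ≤ (K : ℝ) ^ A9 := by
    have h1 : #I = (2 * K ^ A + 1) ^ (e + 1) * (K ^ A * (K ^ A * (K ^ (A + U + 4) + 1))) := by
      rw [hI, card_product, card_product, card_product, Fintype.card_piFinset]
      simp only [prod_const, card_univ, Fintype.card_fin, Int.card_Icc, Nat.card_Icc, card_range]
      congr 2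
      have h2 : (K : ℤ) ^ A = ((K ^ A : ℕ) : ℤ) := by push_cast; rfl
      rw [h2]
      omega
    have h2 : #I ≤ K ^ A9 := by
      rw [h1]
      have h3 : 1 ≤ K ^ A := Nat.one_le_pow _ _ (by omega)
      have h4 : 2 * K ^ A + 1 ≤ K ^ (A + 1) := by
        rw [pow_succ]
        nlinarith
      have h5 : K ^ (A + U + 4) + 1 ≤ K ^ (A + U + 5) := by
        have h6 : 1 ≤ K ^ (A + U + 4) := Nat.one_le_pow _ _ (by omega)
        have h7 : K ^ (A + U + 5) = K ^ (A + U + 4) * K := by rw [← pow_succ]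
        rw [h7]
        nlinarith
      calc (2 * K ^ A + 1) ^ (e + 1) * (K ^ A * (K ^ A * (K ^ (A + U + 4) + 1)))
          ≤ (K ^ (A + 1)) ^ (e + 1) * (K ^ A * (K ^ A * K ^ (A + U + 5))) := by gcongr
        _ = K ^ A9 := by
            rw [hA9, ← pow_mul, pow_add _ (_ + _ + _) (_ + _ + _), pow_add _ (_ + _) A, pow_add _ ((A + 1) * (e + 1)) A]
            ring
    exact_mod_cast h2
  have hBdw : ∀ i ∈ I, ∑ c ∈ Bd i, Wt b K w c ≤ 4 * (K : ℝ) ^ (2 * U + 2) / (K : ℝ) ^ W := by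
    intro i _
    by_cases hCi : Cd i
    · have hCi' := hCi
      rw [hCd] at hCi'
      obtain ⟨p1, p2, p3, p4, p5, p6⟩ := hCi'
      have h1 := hone (polyOf e i.1) p1 p2 i.2.1 i.2.2.1 (i.2.2.2 * Δ) p3 p4 p5 p6
      have h2 : (x / (K : ℝ) ^ (U + 1)) ^ 2 * ∑ c ∈ Bd i, Wt b K w c ≤ 4 * (x ^ 2 / (K : ℝ) ^ W) := by
        refine le_trans ?_ h1
        rw [mul_sum]
        have h3 : Bd i ⊆ range (b ^ K) := by rw [hBd]; exact filter_subset _ _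
        refine le_trans (sum_le_sum (g := fun c => Wt b K w c * (∑ n ∈ range (i.2.2.2 * Δ),
          f ((polyOf e i.1).eval ((i.2.1 * n + i.2.2.1 : ℕ) : ℤ) + (c₁ + c))) ^ 2) fun c hc' => ?_)
          (sum_le_sum_of_subset_of_nonneg h3 (fun c _ _ => mul_nonneg (hWt c) (sq_nonneg _)))
        rw [hBd, mem_filter] at hc'
        rw [mul_comm]
        apply mul_le_mul_of_nonneg_left _ (hWt c)
        rw [← sq_abs (∑ n ∈ range (i.2.2.2 * Δ), f ((polyOf e i.1).eval ((i.2.1 * n + i.2.2.1 : ℕ) : ℤ) + (c₁ + c)))]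
        exact pow_le_pow_left₀ (by positivity) hc'.2.2.le 2
      have h3 : (0 : ℝ) < (x / (K : ℝ) ^ (U + 1)) ^ 2 := by positivity
      have h4 : ∑ c ∈ Bd i, Wt b K w c ≤ 4 * (x ^ 2 / (K : ℝ) ^ W) / (x / (K : ℝ) ^ (U + 1)) ^ 2 := by
        rw [le_div_iff₀ h3]; linarith
      refine h4.trans (le_of_eq ?_)
      have e1 : (K : ℝ) ^ (2 * U + 2) = ((K : ℝ) ^ (U + 1)) ^ 2 := by rw [← pow_mul]; congr 1; ring
      rw [e1]
      have := (hKp W).ne'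
      have := (hKp (U + 1)).ne'
      field_simp
    · have h1 : Bd i = ∅ := by
        rw [hBd]
        apply filter_false_of_mem
        intro c _ h2
        exact hCi h2.1
      rw [h1, sum_empty]
      positivity
  refine ⟨I.biUnion Bd, ?_, ?_, ?_⟩
  · apply biUnion_subset.2
    intro i _
    rw [hBd]
    exact filter_subset _ _
  · calc ∑ c ∈ I.biUnion Bd, Wt b K w c ≤ ∑ i ∈ I, ∑ c ∈ Bd i, Wt b K w c :=
          sum_biUnion_le_sum_of_nonneg' b K w hWt I Bd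
      _ ≤ ∑ _i ∈ I, 4 * (K : ℝ) ^ (2 * U + 2) / (K : ℝ) ^ W := sum_le_sum hBdw
      _ = #I * (4 * (K : ℝ) ^ (2 * U + 2) / (K : ℝ) ^ W) := by rw [sum_const, nsmul_eq_mul]
      _ ≤ (K : ℝ) ^ A9 * (4 * (K : ℝ) ^ (2 * U + 2) / (K : ℝ) ^ W) :=
          mul_le_mul_of_nonneg_right hIcard (by positivity)
      _ = 4 / K * (1 / (K : ℝ) ^ U) := by
          rw [hW, pow_add _ (A9 + (2 * U + 2) + U) 1, pow_add _ (A9 + (2 * U + 2)) U, pow_add _ A9 (2 * U + 2), pow_one]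
          have := (hKp A9).ne'
          have := (hKp (2 * U + 2)).ne'
          have := (hKp U).ne'
          field_simp
      _ ≤ 1 * (1 / (K : ℝ) ^ U) := by
          apply mul_le_mul_of_nonneg_right _ (by positivity)
          rw [div_le_one hK0]; linarith
      _ = _ := one_mul _
  · intro c hcb hcE F hF hFc q r N hq1 hq hr hqN
    obtain ⟨j, hj⟩ : ∃ j, j = N / Δ := ⟨_, rfl⟩
    have hjN : j * Δ ≤ N := by rw [hj]; exact Nat.div_mul_le_self _ _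
    have hNj : N < j * Δ + Δ := by
      have h1 := Nat.lt_div_mul_add hΔ0 (a := N)
      rw [← hj] at h1
      exact h1
    have hjb : j < K ^ (A + U + 4) + 1 := by
      have h1 : (j : ℝ) * Δ ≤ (K : ℝ) ^ (A + 1) * x := by
        have h2 : (j : ℝ) * Δ ≤ N := by exact_mod_cast hjN
        have h3 : (1 : ℝ) ≤ q := by exact_mod_cast hq1
        have h4 : (N : ℝ) ≤ q * N := le_mul_of_one_le_left (Nat.cast_nonneg _) h3
        linarith
      have h2 : x ≤ 2 * Δ * (K : ℝ) ^ (U + 2) := by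
        rw [div_le_iff₀ (hKp _)] at hΔ2
        exact hΔ2
      have h3 : (j : ℝ) * Δ ≤ ((K : ℝ) ^ (A + 1) * (2 * (K : ℝ) ^ (U + 2))) * Δ := by
        calc (j : ℝ) * Δ ≤ (K : ℝ) ^ (A + 1) * x := h1
          _ ≤ (K : ℝ) ^ (A + 1) * (2 * Δ * (K : ℝ) ^ (U + 2)) := mul_le_mul_of_nonneg_left h2 (hKp _).le
          _ = _ := by ring
      have h4 : (j : ℝ) ≤ (K : ℝ) ^ (A + 1) * (2 * (K : ℝ) ^ (U + 2)) := le_of_mul_le_mul_right h3 (by linarith)
      have h5 : (j : ℝ) ≤ ((K ^ (A + U + 4) : ℕ) : ℝ) := by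
        push_cast
        calc (j : ℝ) ≤ (K : ℝ) ^ (A + 1) * (2 * (K : ℝ) ^ (U + 2)) := h4
          _ ≤ (K : ℝ) ^ (A + 1) * (K * (K : ℝ) ^ (U + 2)) := by gcongr; linarith
          _ = _ := by ring
      have h6 : j ≤ K ^ (A + U + 4) := by exact_mod_cast h5
      omega
    have hpoly := polyOf_coeff F e hF
    have hmem : ((fun i : Fin (e + 1) => F.coeff i, (q, (r, j))) : (Fin (e + 1) → ℤ) × (ℕ × (ℕ × ℕ))) ∈ I := by
      rw [hI, mem_product, mem_product, mem_product, Fintype.mem_piFinset]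
      refine ⟨fun i => ?_, ?_, ?_, ?_⟩
      · rw [mem_Icc]; exact abs_le.1 (hFc _)
      · rw [mem_Icc]; exact ⟨hq1, hq⟩
      · rw [mem_range]; exact lt_of_lt_of_le hr hq
      · rw [mem_range]; exact hjb
    have hnot : c ∉ Bd (fun i : Fin (e + 1) => F.coeff i, (q, (r, j))) := by
      intro h1
      exact hcE (mem_biUnion.2 ⟨_, hmem, h1⟩)
    have hCdi : Cd (fun i : Fin (e + 1) => F.coeff i, (q, (r, j))) := by
      rw [hCd]
      simp only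
      rw [hpoly]
      refine ⟨hF, hFc, hq1, hq, hr, ?_⟩
      refine le_trans ?_ hqN
      apply mul_le_mul_of_nonneg_left _ (Nat.cast_nonneg _)
      exact_mod_cast hjN
    have hS : |∑ n ∈ range (j * Δ), f (F.eval ((q * n + r : ℕ) : ℤ) + (c₁ + c))| ≤ x / (K : ℝ) ^ (U + 1) := by
      by_contra hcon
      push Not at hcon
      apply hnot
      rw [hBd, mem_filter]
      simp only
      rw [hpoly]
      exact ⟨mem_range.2 hcb, hCdi, hcon⟩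
    have hdiff : |∑ n ∈ range N, f (F.eval ((q * n + r : ℕ) : ℤ) + (c₁ + c)) -
        ∑ n ∈ range (j * Δ), f (F.eval ((q * n + r : ℕ) : ℤ) + (c₁ + c))| ≤ Δ := by
      rw [← sum_range_add_sum_Ico _ hjN, add_sub_cancel_left]
      refine (abs_sum_le_sum_abs _ _).trans ?_
      calc ∑ i ∈ Ico (j * Δ) N, |f (F.eval ((q * i + r : ℕ) : ℤ) + (c₁ + c))| ≤ ∑ _i ∈ Ico (j * Δ) N, (1 : ℝ) :=
            sum_le_sum fun i _ => hf.1 _
        _ = ((N - j * Δ : ℕ) : ℝ) := by rw [sum_const, Nat.card_Ico, nsmul_eq_mul, mul_one]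
        _ ≤ Δ := by exact_mod_cast (by omega : N - j * Δ ≤ Δ)
    have hK2' : x / (K : ℝ) ^ (U + 1) + x / (K : ℝ) ^ (U + 2) ≤ x / (K : ℝ) ^ U := by
      have e1 : x / (K : ℝ) ^ (U + 1) + x / (K : ℝ) ^ (U + 2) = (1 / K + 1 / K ^ 2) * (x / (K : ℝ) ^ U) := by
        have := (hKp U).ne'
        rw [pow_add _ U 2, pow_add _ U 1]
        field_simp
      rw [e1]
      apply mul_le_of_le_one_left (by positivity)
      have h1 : 1 / (K : ℝ) ≤ 1 / 2 := one_div_le_one_div_of_le (by norm_num) (by linarith)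
      have h2 : 1 / (K : ℝ) ^ 2 ≤ 1 / 2 := one_div_le_one_div_of_le (by norm_num) (by nlinarith)
      linarith
    have h1 := abs_sub_abs_le_abs_sub (∑ n ∈ range N, f (F.eval ((q * n + r : ℕ) : ℤ) + (c₁ + c)))
      (∑ n ∈ range (j * Δ), f (F.eval ((q * n + r : ℕ) : ℤ) + (c₁ + c)))
    linarith

end Pool.Agent.L7h18.DG
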