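import Pool.Agent.L7h18.DG.A7

/-!
All windows and residue classes.
-/

set_option autoImplicit false

namespace Pool.Agent.L7h18.DG

open Finset Polynomial

lemma ap_sum (φ : ℤ → ℝ) (q : ℕ) (hq : 1 ≤ q) (r : ℤ) (y : ℕ) :
    ∑ m ∈ range y, (if (m : ℤ) ≡ r [ZMOD q] then φ m else 0) =
      ∑ n ∈ range ((y + q - 1 - (r % q).toNat) / q), φ ((q * n + (r % q).toNat : ℕ) : ℤ) := by
  have hq0 : (0 : ℤ) < q := by exact_mod_cast hq
  obtain ⟨r0, hr0⟩ : ∃ r0, r0 = (r % q).toNat := ⟨_, rfl⟩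
  have h1 : ((r0 : ℕ) : ℤ) = r % q := by rw [hr0]; exact Int.toNat_of_nonneg (Int.emod_nonneg _ hq0.ne')
  have h2 : r0 < q := by
    have := Int.emod_lt_of_pos r hq0
    rw [← h1] at this
    exact_mod_cast this
  rw [← hr0, ← sum_filter]
  symm
  refine sum_nbij' (fun n => q * n + r0) (fun m => m / q) ?_ ?_ ?_ ?_ ?_
  · intro n hn
    rw [mem_range, Nat.lt_iff_add_one_le, Nat.le_div_iff_mul_le hq] at hn
    rw [mem_filter, mem_range]
    constructor
    · have : (n + 1) * q = q * n + q := by ring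
      omega
    · unfold Int.ModEq
      rw [← h1]
      push_cast
      rw [Int.add_emod, Int.mul_emod_right, zero_add, Int.emod_emod_of_dvd _ (dvd_refl _)]
      exact Int.emod_eq_of_lt (by positivity) (by exact_mod_cast h2)
  · intro m hm
    rw [mem_filter, mem_range] at hm
    have h3 : m % q = r0 := by
      have h4 : (m : ℤ) % q = r % q := hm.2
      rw [← h1] at h4
      exact_mod_cast h4
    rw [mem_range, Nat.lt_iff_add_one_le, Nat.le_div_iff_mul_le hq]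
    have h4 := Nat.div_add_mod m q
    rw [h3] at h4
    have : (m / q + 1) * q = q * (m / q) + q := by ring
    omega
  · intro n _
    show (q * n + r0) / q = n
    rw [Nat.add_comm, Nat.add_mul_div_left _ _ hq, Nat.div_eq_of_lt h2, Nat.zero_add]
  · intro m hm
    rw [mem_filter, mem_range] at hm
    have h3 : m % q = r0 := by
      have h4 : (m : ℤ) % q = r % q := hm.2
      rw [← h1] at h4
      exact_mod_cast h4
    show q * (m / q) + r0 = m
    rw [← h3]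
    exact Nat.div_add_mod m q
  · intro n _
    rfl

lemma window_sum (g : ℤ → ℝ) (D Y0 : ℝ) (hY0 : 0 ≤ Y0) (hp : ∀ y : ℕ, (y : ℝ) ≤ Y0 + 1 → |∑ m ∈ range y, g m| ≤ D)
    (hn : ∀ y : ℕ, (y : ℝ) ≤ Y0 + 1 → |∑ m ∈ range y, g (-(m : ℤ))| ≤ D) (u v : ℤ) (hu : |(u : ℝ)| ≤ Y0)
    (hv : |(v : ℝ)| ≤ Y0) : |∑ m ∈ Ioc u v, g m| ≤ 4 * D := by
  have hD : 0 ≤ D := by
    have := hp 0 (by push_cast; linarith)
    simpa using this
  have h0 : |g 0| ≤ D := by
    have := hp 1 (by push_cast; linarith)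
    simpa using this
  have hpos : ∀ w : ℤ, 0 ≤ w → |(w : ℝ)| ≤ Y0 → |∑ m ∈ Ioc 0 w, g m| ≤ 2 * D := by
    intro w hw hwY
    obtain ⟨n, rfl⟩ : ∃ n : ℕ, w = n := ⟨w.toNat, by rw [Int.toNat_of_nonneg hw]⟩
    have e1 : ∑ m ∈ Ioc (0 : ℤ) n, g m = ∑ m ∈ range (n + 1), g m - g 0 := by
      rw [sum_range_succ']
      simp only [Nat.cast_zero, add_sub_cancel_right]
      refine sum_nbij' (fun m => m.toNat - 1) (fun m => ((m + 1 : ℕ) : ℤ)) ?_ ?_ ?_ ?_ ?_
      · intro m hm; rw [mem_Ioc] at hm; rw [mem_range]; omega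
      · intro m hm; rw [mem_range] at hm; rw [mem_Ioc]; omega
      · intro m hm; rw [mem_Ioc] at hm; omega
      · intro m hm; omega
      · intro m hm
        rw [mem_Ioc] at hm
        congr 1
        omega
    rw [e1]
    have h1 := hp (n + 1) (by
      rw [Int.cast_natCast, abs_of_nonneg (Nat.cast_nonneg n)] at hwY
      push_cast; linarith)
    have := abs_sub (∑ m ∈ range (n + 1), g m) (g 0)
    linarith
  have hneg : ∀ w : ℤ, w ≤ 0 → |(w : ℝ)| ≤ Y0 → |∑ m ∈ Ioc w 0, g m| ≤ 2 * D := by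
    intro w hw hwY
    obtain ⟨n, hn'⟩ : ∃ n : ℕ, w = -(n : ℤ) := ⟨(-w).toNat, by rw [Int.toNat_of_nonneg (by omega)]; ring⟩
    subst hn'
    have e1 : ∑ m ∈ Ioc (-(n : ℤ)) 0, g m = ∑ m ∈ range n, g (-(m : ℤ)) := by
      refine sum_nbij' (fun m => (-m).toNat) (fun m => -(m : ℤ)) ?_ ?_ ?_ ?_ ?_
      · intro m hm; rw [mem_Ioc] at hm; rw [mem_range]; omega
      · intro m hm; rw [mem_range] at hm; rw [mem_Ioc]; omega
      · intro m hm; rw [mem_Ioc] at hm; omega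
      · intro m hm; omega
      · intro m hm
        rw [mem_Ioc] at hm
        congr 1
        omega
    rw [e1]
    have h1 := hn n (by
      rw [Int.cast_neg, abs_neg, Int.cast_natCast, abs_of_nonneg (Nat.cast_nonneg n)] at hwY
      linarith)
    linarith
  rcases lt_or_ge v u with h | h
  · rw [Ioc_eq_empty (by omega), sum_empty, abs_zero]
    linarith
  · rcases le_or_gt 0 u with hu0 | hu0
    · have e : ∑ m ∈ Ioc u v, g m = ∑ m ∈ Ioc 0 v, g m - ∑ m ∈ Ioc 0 u, g m := by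
        rw [← Ioc_union_Ioc_eq_Ioc hu0 h, sum_union, add_sub_cancel_left]
        rw [disjoint_left]
        intro m hm1 hm2
        rw [mem_Ioc] at hm1 hm2
        omega
      rw [e]
      have h1 := hpos u hu0 hu
      have h2 := hpos v (by omega) hv
      have := abs_sub (∑ m ∈ Ioc 0 v, g m) (∑ m ∈ Ioc 0 u, g m)
      linarith
    · rcases le_or_gt 0 v with hv0 | hv0
      · have e : ∑ m ∈ Ioc u v, g m = ∑ m ∈ Ioc u 0, g m + ∑ m ∈ Ioc 0 v, g m := by
          rw [← Ioc_union_Ioc_eq_Ioc hu0.le hv0, sum_union]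
          rw [disjoint_left]
          intro m hm1 hm2
          rw [mem_Ioc] at hm1 hm2
          omega
        rw [e]
        have h1 := hneg u hu0.le hu
        have h2 := hpos v hv0 hv
        have := abs_add_le (∑ m ∈ Ioc u 0, g m) (∑ m ∈ Ioc 0 v, g m)
        linarith
      · have e : ∑ m ∈ Ioc u v, g m = ∑ m ∈ Ioc u 0, g m - ∑ m ∈ Ioc v 0, g m := by
          rw [← Ioc_union_Ioc_eq_Ioc h hv0.le, sum_union, add_sub_cancel_right]
          rw [disjoint_left]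
          intro m hm1 hm2
          rw [mem_Ioc] at hm1 hm2
          omega
        rw [e]
        have h1 := hneg u hu0.le hu
        have h2 := hneg v hv0.le hv
        have := abs_sub (∑ m ∈ Ioc u 0, g m) (∑ m ∈ Ioc v 0, g m)
        linarith

open Pool.Agent.TH892.LW (Dav) in
/-- **all windows and residue classes** -/
theorem all_windows (e : ℕ) (he : 1 ≤ e) : ∃ n0 : ℕ, 1 ≤ n0 ∧ ∀ b : ℕ, 2 ≤ b → ∀ (A U : ℕ) (f : ℤ → ℝ), Dav f →
    (∀ v, f (-v) = f v) → f 0 = 0 → ∃ K0 : ℕ, ∀ K : ℕ, K0 ≤ K → ∀ w : ℕ → ℕ → ℝ, Good b n0 w →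
    ∀ c₁ : ℤ, |c₁| ≤ (K : ℤ) ^ A * (b : ℤ) ^ K →
    ∃ Ex : Finset ℕ, Ex ⊆ range (b ^ K) ∧ ∑ c ∈ Ex, Wt b K w c ≤ 1 / (K : ℝ) ^ U ∧
    ∀ c < b ^ K, c ∉ Ex → ∀ F : ℤ[X], F.natDegree = e → (∀ i, |F.coeff i| ≤ (K : ℤ) ^ A) →
    ∀ q : ℕ, 1 ≤ q → q ≤ K ^ A → ∀ r u v : ℤ, |(u : ℝ)| ≤ (K : ℝ) ^ A * xr b K e → |(v : ℝ)| ≤ (K : ℝ) ^ A * xr b K e →
      |∑ m ∈ (Ioc u v).filter (fun m => m ≡ r [ZMOD q]), f (F.eval m + (c₁ + c))| ≤ xr b K e / (K : ℝ) ^ U := by
  obtain ⟨n0, hn0, h⟩ := all_poly e he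
  refine ⟨n0, hn0, fun b hb2 A U f hf hev hf0 => ?_⟩
  obtain ⟨K0, hK0⟩ := h b hb2 A (U + 1) f hf hev hf0
  refine ⟨max K0 4, fun K hK w hw c₁ hc₁ => ?_⟩
  have hK4 : 4 ≤ K := (le_max_right _ _).trans hK
  have hKr : (4 : ℝ) ≤ K := by exact_mod_cast hK4
  have hKp : ∀ n : ℕ, (0 : ℝ) < (K : ℝ) ^ n := fun n => by positivity
  have hK1' : (1 : ℝ) ≤ K := by linarith
  have hKp1 : ∀ n : ℕ, (1 : ℝ) ≤ (K : ℝ) ^ n := fun n => one_le_pow₀ hK1'
  obtain ⟨Ex, hEx1, hEx2, hEx3⟩ := hK0 K ((le_max_left _ _).trans hK) w hw c₁ hc₁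
  have hx1 := xr_ge b K e (by omega)
  obtain ⟨x, hx⟩ : ∃ x, x = xr b K e := ⟨_, rfl⟩
  rw [← hx] at hx1 hEx3 ⊢
  refine ⟨Ex, hEx1, hEx2.trans ?_, fun c hc hcE F hF hFc q hq1 hq r u v hu hv => ?_⟩
  · apply one_div_le_one_div_of_le (hKp _)
    exact pow_le_pow_right₀ hK1' (by omega)
  · have hKx : 1 ≤ (K : ℝ) ^ A * x := one_le_mul_of_one_le_of_one_le (hKp1 A) hx1
    -- one side
    have hside : ∀ G : ℤ[X], G.natDegree = e → (∀ i, |G.coeff i| ≤ (K : ℤ) ^ A) → ∀ r : ℤ, ∀ y : ℕ,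
        (y : ℝ) ≤ (K : ℝ) ^ A * x + 1 →
        |∑ m ∈ range y, (if (m : ℤ) ≡ r [ZMOD q] then f (G.eval (m : ℤ) + (c₁ + c)) else 0)| ≤ x / (K : ℝ) ^ (U + 1) := by
      intro G hG hGc r y hy
      rw [ap_sum (fun m => f (G.eval m + (c₁ + c))) q hq1 r y]
      have hq0 : (0 : ℤ) < q := by exact_mod_cast hq1
      have h2 : (r % q).toNat < q := by
        have h3 := Int.emod_lt_of_pos r hq0
        have h4 := Int.emod_nonneg r hq0.ne'
        omega
      apply hEx3 c hc hcE G hG hGc q _ _ hq1 hq h2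
      have h3 : ((y + q - 1 - (r % q).toNat) / q) * q ≤ y + q := (Nat.div_mul_le_self _ _).trans (by omega)
      have h4 : (q : ℝ) * (((y + q - 1 - (r % q).toNat) / q : ℕ) : ℝ) ≤ y + q := by
        rw [mul_comm]
        exact_mod_cast h3
      refine h4.trans ?_
      have h5 : (q : ℝ) ≤ (K : ℝ) ^ A := by exact_mod_cast hq
      have h6 : (K : ℝ) ^ A ≤ (K : ℝ) ^ A * x := le_mul_of_one_le_right (hKp A).le hx1
      calc (y : ℝ) + q ≤ 3 * ((K : ℝ) ^ A * x) := by linarith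
        _ ≤ K * ((K : ℝ) ^ A * x) := mul_le_mul_of_nonneg_right (by linarith) (by linarith)
        _ = _ := by ring
    have hGd : (F.comp (C (-1) * X)).natDegree = e := by
      rw [natDegree_comp, natDegree_C_mul_X (-1) (by norm_num), mul_one, hF]
    have hGc : ∀ i, |(F.comp (C (-1) * X)).coeff i| ≤ (K : ℤ) ^ A := by
      intro i
      rw [comp_C_mul_X_coeff, abs_mul, abs_pow, abs_neg, abs_one, one_pow, mul_one]
      exact hFc i
    rw [sum_filter]
    have h1 := window_sum (fun m => if m ≡ r [ZMOD q] then f (F.eval m + (c₁ + c)) else 0) (x / (K : ℝ) ^ (U + 1))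
      ((K : ℝ) ^ A * x) (by positivity) (fun y hy => hside F hF hFc r y hy) (fun y hy => ?_) u v hu hv
    · refine h1.trans ?_
      rw [pow_succ]
      have : 4 * (x / ((K : ℝ) ^ U * K)) = 4 / K * (x / (K : ℝ) ^ U) := by
        have := (hKp U).ne'
        field_simp
      rw [this]
      apply mul_le_of_le_one_left (by positivity)
      rw [div_le_one (by linarith)]
      exact hKr
    · refine le_trans (le_of_eq ?_) (hside (F.comp (C (-1) * X)) hGd hGc (-r) y hy)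
      congr 1
      refine sum_congr rfl fun m _ => ?_
      have e1 : (-(m : ℤ) ≡ r [ZMOD q]) ↔ ((m : ℤ) ≡ -r [ZMOD q]) := by
        constructor
        · intro h
          have := h.neg
          rwa [neg_neg] at this
        · intro h
          have := h.neg
          rwa [neg_neg] at this
      have e2 : (F.comp (C (-1) * X)).eval (m : ℤ) = F.eval (-(m : ℤ)) := by
        rw [eval_comp]
        congr 1
        simp
      by_cases hc' : (m : ℤ) ≡ -r [ZMOD q]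
      · rw [if_pos hc', if_pos (e1.2 hc'), e2]
      · rw [if_neg hc', if_neg (fun h => hc' (e1.1 h))]

end Pool.Agent.L7h18.DG
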