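import Pool.Agent.L7h18.DG.A8

/-!
The Liouville and the Moebius function at the values of all polynomials of bounded degree with constant terms with
independent digits.
-/

set_option autoImplicit false

namespace Pool.Agent.L7h18.DG

open Finset Polynomial
open Pool.Agent.TH892.LW (Dav lam mob dav_lam dav_mob lam_neg mob_neg lam_zero mob_zero)

/-- the sum over a union is at most the sum of the sums -/
lemma sum_union_le (b K : ℕ) (w : ℕ → ℕ → ℝ) (hw : Law b w) (S T : Finset ℕ) :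
    ∑ c ∈ S ∪ T, Wt b K w c ≤ ∑ c ∈ S, Wt b K w c + ∑ c ∈ T, Wt b K w c := by
  have h1 : ∑ c ∈ S ∪ T, Wt b K w c + ∑ c ∈ S ∩ T, Wt b K w c = ∑ c ∈ S, Wt b K w c + ∑ c ∈ T, Wt b K w c :=
    sum_union_inter
  have h2 : 0 ≤ ∑ c ∈ S ∩ T, Wt b K w c := sum_nonneg fun c _ => Wt_nonneg K hw c
  linarith

lemma two_terms (K U : ℕ) (hK : 2 ≤ K) : 1 / (K : ℝ) ^ (U + 1) + 1 / (K : ℝ) ^ (U + 1) ≤ 1 / (K : ℝ) ^ U := by
  have hKr : (2 : ℝ) ≤ K := by exact_mod_cast hK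
  have hp : (0 : ℝ) < (K : ℝ) ^ U := by positivity
  have e : 1 / (K : ℝ) ^ (U + 1) + 1 / (K : ℝ) ^ (U + 1) = 2 / K * (1 / (K : ℝ) ^ U) := by
    rw [pow_succ]
    field_simp
    ring
  rw [e]
  apply mul_le_of_le_one_left (by positivity)
  rw [div_le_one (by linarith)]
  exact hKr

/-- one function, all degrees up to `d` -/
theorem all_degrees (d : ℕ) : ∃ n b₀ : ℕ, 1 ≤ n ∧ 2 ≤ b₀ ∧ ∀ b : ℕ, b₀ ≤ b → ∀ (A U : ℕ) (f : ℤ → ℝ), Dav f →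
    (∀ v, f (-v) = f v) → f 0 = 0 → ∃ K0 : ℕ, ∀ K : ℕ, K0 ≤ K → ∀ w : ℕ → ℕ → ℝ, Law b w →
    (∀ i, (vari b (w i) * b) ^ n ≤ b) → ∀ c₁ : ℤ, |c₁| ≤ (K : ℤ) ^ A * (b : ℤ) ^ K →
    ∃ Ex : Finset ℕ, Ex ⊆ range (b ^ K) ∧ ∑ c ∈ Ex, Wt b K w c ≤ 1 / (K : ℝ) ^ U ∧
    ∀ c < b ^ K, c ∉ Ex → ∀ F : ℤ[X], 1 ≤ F.natDegree → F.natDegree ≤ d → (∀ i, |F.coeff i| ≤ (K : ℤ) ^ A) →
    ∀ q : ℕ, 1 ≤ q → q ≤ K ^ A → ∀ r u v : ℤ, |(u : ℝ)| ≤ (K : ℝ) ^ A * xr b K F.natDegree →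
      |(v : ℝ)| ≤ (K : ℝ) ^ A * xr b K F.natDegree →
      |∑ m ∈ (Ioc u v).filter (fun m => m ≡ r [ZMOD q]), f (F.eval m + (c₁ + c))| ≤ xr b K F.natDegree / (K : ℝ) ^ U := by
  induction d with
  | zero =>
    refine ⟨1, 2, le_rfl, le_rfl, fun b hb A U f _ _ _ => ⟨1, fun K hK w _ _ c₁ _ => ⟨∅, empty_subset _, ?_, ?_⟩⟩⟩
    · rw [sum_empty]; positivity
    · intro c _ _ F h1 h2
      omega
  | succ d ih =>
    obtain ⟨n1, b1, hn1, hb1, ih⟩ := ih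
    obtain ⟨n2, hn2, h2⟩ := all_windows (d + 1) (by omega)
    obtain ⟨b2, hb2, hB⟩ := small_B n2 hn2
    refine ⟨n1 + 2 * n2, max b1 b2, by omega, hb1.trans (le_max_left _ _), fun b hb A U f hf hev hf0 => ?_⟩
    have hbb1 : b1 ≤ b := (le_max_left _ _).trans hb
    have hbb2 : b2 ≤ b := (le_max_right _ _).trans hb
    have hb2' : 2 ≤ b := hb1.trans hbb1
    obtain ⟨K1, hK1⟩ := ih b hbb1 A (U + 1) f hf hev hf0
    obtain ⟨K2, hK2⟩ := h2 b hb2' A (U + 1) f hf hev hf0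
    refine ⟨max (max K1 K2) 2, fun K hK w hw hV c₁ hc₁ => ?_⟩
    have g1 : K1 ≤ K := le_trans (le_trans (le_max_left _ _) (le_max_left _ _)) hK
    have g2 : K2 ≤ K := le_trans (le_trans (le_max_right _ _) (le_max_left _ _)) hK
    have g3 : 2 ≤ K := (le_max_right _ _).trans hK
    have hV1 : ∀ i, 1 ≤ vari b (w i) * b := fun i => vari_ge b (by omega) (w i) (hw i).1 (hw i).2
    obtain ⟨E1, hE1a, hE1b, hE1c⟩ := hK1 K g1 w hw
      (fun i => (pow_le_pow_right₀ (hV1 i) (by omega)).trans (hV i)) c₁ hc₁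
    have hgood : Good b n2 w := by
      obtain ⟨B, hB0, hB1, hB2⟩ := hB b hbb2 w hw (fun i => (pow_le_pow_right₀ (hV1 i) (by omega)).trans (hV i))
      exact ⟨hw, fun i => hv b (w i), B, fun i v => hv_nonneg b (w i) v,
        fun i => cell_hv b hb2' (w i) (hw i).1 (hw i).2, hB0, hB1, hB2⟩
    obtain ⟨E2, hE2a, hE2b, hE2c⟩ := hK2 K g2 w hgood c₁ hc₁
    have hKr : (1 : ℝ) ≤ K := by exact_mod_cast (by omega : 1 ≤ K)
    have hmono : ∀ y : ℝ, 0 ≤ y → y / (K : ℝ) ^ (U + 1) ≤ y / (K : ℝ) ^ U := fun y hy =>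
      div_le_div_of_nonneg_left hy (by positivity) (pow_le_pow_right₀ hKr (by omega))
    refine ⟨E1 ∪ E2, union_subset hE1a hE2a, ?_, ?_⟩
    · exact (sum_union_le b K w hw E1 E2).trans ((add_le_add hE1b hE2b).trans (two_terms K U g3))
    · intro c hc hcE F hF1 hFd hFc q hq1 hq r u v hu hv
      rw [mem_union, not_or] at hcE
      have hx0 : 0 ≤ xr b K F.natDegree := zero_le_one.trans (xr_ge b K _ (by omega))
      rcases Nat.lt_or_ge F.natDegree (d + 1) with h | h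
      · exact (hE1c c hc hcE.1 F hF1 (by omega) hFc q hq1 hq r u v hu hv).trans (hmono _ hx0)
      · have hd : F.natDegree = d + 1 := by omega
        rw [hd] at hu hv hx0 ⊢
        exact (hE2c c hc hcE.2 F hd hFc q hq1 hq r u v hu hv).trans (hmono _ hx0)

/-- **the Liouville and the Moebius function** -/
theorem final_chowla (d : ℕ) : ∃ n b₀ : ℕ, 1 ≤ n ∧ 2 ≤ b₀ ∧ ∀ b : ℕ, b₀ ≤ b → ∀ A U : ℕ,
    ∃ K0 : ℕ, ∀ K : ℕ, K0 ≤ K → ∀ w : ℕ → ℕ → ℝ, Law b w →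
    (∀ i, (vari b (w i) * b) ^ n ≤ b) → ∀ c₁ : ℤ, |c₁| ≤ (K : ℤ) ^ A * (b : ℤ) ^ K →
    ∃ Ex : Finset ℕ, Ex ⊆ range (b ^ K) ∧ ∑ c ∈ Ex, Wt b K w c ≤ 1 / (K : ℝ) ^ U ∧
    ∀ c < b ^ K, c ∉ Ex → ∀ F : ℤ[X], 1 ≤ F.natDegree → F.natDegree ≤ d → (∀ i, |F.coeff i| ≤ (K : ℤ) ^ A) →
    ∀ q : ℕ, 1 ≤ q → q ≤ K ^ A → ∀ r u v : ℤ, |(u : ℝ)| ≤ (K : ℝ) ^ A * xr b K F.natDegree →
      |(v : ℝ)| ≤ (K : ℝ) ^ A * xr b K F.natDegree →
      |∑ m ∈ (Ioc u v).filter (fun m => m ≡ r [ZMOD q]), lam (F.eval m + (c₁ + c))| ≤ xr b K F.natDegree / (K : ℝ) ^ U ∧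
      |∑ m ∈ (Ioc u v).filter (fun m => m ≡ r [ZMOD q]), mob (F.eval m + (c₁ + c))| ≤ xr b K F.natDegree / (K : ℝ) ^ U := by
  obtain ⟨n, b₀, hn, hb₀, h⟩ := all_degrees d
  refine ⟨n, b₀, hn, hb₀, fun b hb A U => ?_⟩
  obtain ⟨K1, hK1⟩ := h b hb A (U + 1) lam dav_lam lam_neg lam_zero
  obtain ⟨K2, hK2⟩ := h b hb A (U + 1) mob dav_mob mob_neg mob_zero
  refine ⟨max (max K1 K2) 2, fun K hK w hw hV c₁ hc₁ => ?_⟩
  have g1 : K1 ≤ K := le_trans (le_trans (le_max_left _ _) (le_max_left _ _)) hK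
  have g2 : K2 ≤ K := le_trans (le_trans (le_max_right _ _) (le_max_left _ _)) hK
  have g3 : 2 ≤ K := (le_max_right _ _).trans hK
  have hb2' : 2 ≤ b := hb₀.trans hb
  obtain ⟨E1, hE1a, hE1b, hE1c⟩ := hK1 K g1 w hw hV c₁ hc₁
  obtain ⟨E2, hE2a, hE2b, hE2c⟩ := hK2 K g2 w hw hV c₁ hc₁
  have hKr : (1 : ℝ) ≤ K := by exact_mod_cast (by omega : 1 ≤ K)
  have hmono : ∀ y : ℝ, 0 ≤ y → y / (K : ℝ) ^ (U + 1) ≤ y / (K : ℝ) ^ U := fun y hy =>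
    div_le_div_of_nonneg_left hy (by positivity) (pow_le_pow_right₀ hKr (by omega))
  refine ⟨E1 ∪ E2, union_subset hE1a hE2a, ?_, ?_⟩
  · exact (sum_union_le b K w hw E1 E2).trans ((add_le_add hE1b hE2b).trans (two_terms K U g3))
  · intro c hc hcE F hF1 hFd hFc q hq1 hq r u v hu hv
    rw [mem_union, not_or] at hcE
    have hx0 : 0 ≤ xr b K F.natDegree := zero_le_one.trans (xr_ge b K _ (by omega))
    exact ⟨(hE1c c hc hcE.1 F hF1 hFd hFc q hq1 hq r u v hu hv).trans (hmono _ hx0),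
      (hE2c c hc hcE.2 F hF1 hFd hFc q hq1 hq r u v hu hv).trans (hmono _ hx0)⟩

/-- the weight as a product over the digits -/
lemma Wt_eq (b : ℕ) (K : ℕ) : ∀ (w : ℕ → ℕ → ℝ) (c : ℕ), Wt b K w c = ∏ i ∈ range K, w i (c / b ^ i % b) := by
  induction K with
  | zero => intro w c; simp [Wt]
  | succ K ih =>
    intro w c
    show w 0 (c % b) * Wt b K (fun i => w (i + 1)) (c / b) = _
    rw [ih, prod_range_succ', pow_zero, Nat.div_one, mul_comm]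
    congr 1
    refine prod_congr rfl fun i _ => ?_
    rw [pow_succ', ← Nat.div_div_eq_div_mul]

end Pool.Agent.L7h18.DG
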