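import Pool.Agent.L7h18.DG.A2
import Mathlib

/-!
The second moment of sums of Jacobi symbols of linear functions of a number with independent digits.
-/

set_option autoImplicit false

namespace Pool.Agent.L7h18.DG

open Finset
open Pool.Agent.Helper112

lemma ee_std (p : ℕ) [NeZero p] (j : ℤ) : ee ((j : ℝ) / p) = ZMod.stdAddChar (j : ZMod p) := by
  rw [ZMod.stdAddChar_coe]
  unfold ee
  congr 1
  push_cast
  ring

/-- the expansion of the Legendre symbol in additive characters -/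
theorem js_fourier (p : ℕ) (hp : p.Prime) (hp2 : p ≠ 2) : ∃ c : ℕ → ℂ, (∀ h, ‖c h‖ ≤ 1 / √(p : ℝ)) ∧
    ∀ m : ℤ, ((jacobiSym m p : ℤ) : ℂ) = ∑ h ∈ range p, c h * ee (m * ((h : ℝ) / p)) := by
  have : Fact p.Prime := ⟨hp⟩
  have hp0 : (0 : ℝ) < p := by exact_mod_cast hp.pos
  set χ : MulChar (ZMod p) ℂ := (quadraticChar (ZMod p)).ringHomComp (Int.castRingHom ℂ) with hχ
  have hinj : Function.Injective (Int.castRingHom ℂ) := (Int.castRingHom ℂ).injective_int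
  have hχ1 : χ ≠ 1 := by
    rw [hχ]
    apply (MulChar.ringHomComp_ne_one_iff hinj).2
    apply quadraticChar_ne_one
    rw [ZMod.ringChar_zmod_n]
    exact hp2
  have hχq : χ.IsQuadratic := (quadraticChar_isQuadratic (ZMod p)).comp _
  set ψ : AddChar (ZMod p) ℂ := ZMod.stdAddChar with hψ
  have hψp : ψ.IsPrimitive := ZMod.isPrimitive_stdAddChar p
  set g := gaussSum χ ψ with hg
  have hsq := gaussSum_sq hχ1 hχq hψp
  rw [← hg, ZMod.card] at hsq
  have hχle : ∀ a, ‖χ a‖ ≤ 1 := by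
    intro a
    rcases hχq a with h | h | h <;> rw [h] <;> simp
  have hm1 : ‖χ (-1)‖ = 1 := by
    have h1 : χ (-1) * χ (-1) = 1 := by
      rw [← map_mul]
      simp
    have h2 : ‖χ (-1)‖ * ‖χ (-1)‖ = 1 := by rw [← norm_mul, h1, norm_one]
    nlinarith [norm_nonneg (χ (-1))]
  have hgn : ‖g‖ ^ 2 = p := by
    rw [← norm_pow, hsq, norm_mul, hm1, one_mul, Complex.norm_natCast]
  have hgn' : ‖g‖ = √(p : ℝ) := by
    rw [← hgn, Real.sqrt_sq (norm_nonneg _)]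
  have hg0 : g ≠ 0 := by
    intro h
    rw [h] at hgn
    simp at hgn
    linarith
  have hval : ∀ m : ℤ, ((jacobiSym m p : ℤ) : ℂ) = χ (m : ZMod p) := by
    intro m
    rw [← jacobiSym.legendreSym.to_jacobiSym, legendreSym, hχ]
    rfl
  -- the sum over the characters
  have hshift : ∀ x : ZMod p, ∑ a : ZMod p, χ a * ψ (x * a) = χ x * g := by
    intro x
    by_cases hx : x = 0
    · rw [hx, MulChar.map_zero, zero_mul]
      simp only [zero_mul, AddChar.map_zero_eq_one, mul_one]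
      exact MulChar.sum_eq_zero_of_ne_one hχ1
    · obtain ⟨u, hu⟩ := (Ne.isUnit hx : IsUnit x)
      have h1 := gaussSum_mulShift χ ψ u
      have h2 : gaussSum χ (ψ.mulShift u) = ∑ a : ZMod p, χ a * ψ (x * a) := by
        unfold gaussSum
        refine sum_congr rfl fun a _ => ?_
        rw [AddChar.mulShift_apply, hu]
      rw [← h2]
      have h3 : χ x * χ x = 1 := by
        rcases hχq x with h | h | h
        · exfalso
          have h4 : IsUnit (χ x) := by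
            rw [← hu]
            exact (u.map (χ : ZMod p →* ℂ)).isUnit
          rw [h] at h4
          exact not_isUnit_zero h4
        · rw [h]; norm_num
        · rw [h]; norm_num
      rw [hu] at h1
      rw [hg, ← h1, ← mul_assoc, h3, one_mul, hu]
  refine ⟨fun h => g⁻¹ * χ (h : ZMod p), fun h => ?_, fun m => ?_⟩
  · rw [norm_mul, norm_inv, hgn', one_div]
    exact mul_le_of_le_one_right (by positivity) (hχle _)
  · rw [hval]
    have h1 : ∑ h ∈ range p, g⁻¹ * χ ((h : ℕ) : ZMod p) * ee (m * ((h : ℝ) / p)) =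
        ∑ a : ZMod p, g⁻¹ * (χ a * ψ ((m : ZMod p) * a)) := by
      refine sum_bij' (fun h _ => ((h : ℕ) : ZMod p)) (fun a _ => a.val) ?_ ?_ ?_ ?_ ?_
      · intro h _; exact mem_univ _
      · intro a _; exact mem_range.2 (ZMod.val_lt a)
      · intro h hh; exact ZMod.val_cast_of_lt (mem_range.1 hh)
      · intro a _; exact ZMod.natCast_zmod_val a
      · intro h _
        have e1 : ee (m * ((h : ℝ) / p)) = ψ ((m : ZMod p) * ((h : ℕ) : ZMod p)) := by
          have h2 := ee_std p (m * h)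
          push_cast at h2
          rw [hψ, ← h2]
          congr 1
          ring
        rw [e1]
        ring
    rw [h1, ← mul_sum, hshift]
    field_simp

/-- the sum of the Fourier transform over all the fractions with the denominator `q` -/
theorem psi_fractions (b K r q : ℕ) (hb : 0 < b) (hrK : r ≤ K) (hq : 1 ≤ q) (hqr : q ≤ b ^ r) (w h : ℕ → ℕ → ℝ)
    (hw : Law b w) (hh : ∀ i v, 0 ≤ h i v) (hc : ∀ i, Cell b (w i) (h i)) (B : ℝ) (hB0 : 0 ≤ B)
    (hB : ∀ i, ∑ v ∈ range b, h i v ≤ B) :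
    ∑ k ∈ range q, ‖psi b K w ((k : ℝ) / q)‖ ≤ B ^ r := by
  classical
  have hb0 : (0 : ℝ) < b := by exact_mod_cast hb
  have hq0 : (0 : ℝ) < q := by exact_mod_cast hq
  have hbr0 : (0 : ℝ) < (b : ℝ) ^ r := by positivity
  have h1 : ∀ k ∈ range q, ‖psi b K w ((k : ℝ) / q)‖ ≤ HH b r h (k * b ^ r / q) := by
    intro k hk
    rw [mem_range] at hk
    obtain ⟨s, rfl⟩ : ∃ s, K = r + s := ⟨K - r, by omega⟩
    rw [psi_add b hb, norm_mul]
    have h2 : ‖psi b s (fun i => w (i + r)) ((b : ℝ) ^ r * ((k : ℝ) / q))‖ ≤ 1 := psi_le_one hb (hw.shift r) _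
    have h3 : ‖psi b r w ((k : ℝ) / q)‖ ≤ HH b r h (k * b ^ r / q) := by
      have hdm : ((k * b ^ r / q : ℕ) : ℝ) * q + ((k * b ^ r % q : ℕ) : ℝ) = k * (b : ℝ) ^ r := by
        have := Nat.div_add_mod' (k * b ^ r) q
        exact_mod_cast this
      have hm0 : (0 : ℝ) ≤ ((k * b ^ r % q : ℕ) : ℝ) := Nat.cast_nonneg _
      have hm1 : ((k * b ^ r % q : ℕ) : ℝ) + 1 ≤ q := by exact_mod_cast Nat.mod_lt _ hq
      apply psi_le_HH b hb r w h hh hc
      · rw [Nat.div_lt_iff_lt_mul hq, mul_comm (b ^ r)]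
        exact Nat.mul_lt_mul_of_pos_right hk (Nat.pow_pos hb)
      · rw [div_le_div_iff₀ hbr0 hq0]
        linarith
      · rw [div_le_div_iff₀ hq0 hbr0]
        linarith
    calc ‖psi b r w ((k : ℝ) / q)‖ * ‖psi b s (fun i => w (i + r)) ((b : ℝ) ^ r * ((k : ℝ) / q))‖
        ≤ HH b r h (k * b ^ r / q) * 1 := mul_le_mul h3 h2 (norm_nonneg _) (HH_nonneg b r h hh _)
      _ = _ := mul_one _
  refine (sum_le_sum h1).trans ?_
  have hinj : Set.InjOn (fun k : ℕ => k * b ^ r / q) ((range q : Finset ℕ) : Set ℕ) := by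
    have hlt : ∀ k k' : ℕ, k < k' → k * b ^ r / q < k' * b ^ r / q := by
      intro k k' hk
      rw [Nat.lt_iff_add_one_le, Nat.le_div_iff_mul_le hq]
      have h2 : k * b ^ r / q * q ≤ k * b ^ r := Nat.div_mul_le_self _ _
      have h3 : (k + 1) * b ^ r ≤ k' * b ^ r := Nat.mul_le_mul_right _ hk
      have h4 : (k * b ^ r / q + 1) * q = k * b ^ r / q * q + q := by ring
      have h5 : (k + 1) * b ^ r = k * b ^ r + b ^ r := by ring
      omega
    intro k _ k' _ hkk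
    rcases lt_trichotomy k k' with h | h | h
    · exact absurd hkk (hlt k k' h).ne
    · exact h
    · exact absurd hkk (hlt k' k h).ne'
  rw [← sum_image (f := fun u => HH b r h u) (fun x hx y hy hxy => hinj hx hy hxy)]
  refine le_trans ?_ (sum_HH b hb B hB0 r h hh hB)
  apply sum_le_sum_of_subset_of_nonneg
  · intro u hu
    rw [mem_image] at hu
    obtain ⟨k, hk, rfl⟩ := hu
    rw [mem_range] at hk ⊢
    rw [Nat.div_lt_iff_lt_mul hq, mul_comm (b ^ r)]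
    exact Nat.mul_lt_mul_of_pos_right hk (Nat.pow_pos hb)
  · intro u _ _
    exact HH_nonneg b r h hh u

/-- the correlation of two Jacobi symbols -/
theorem js_corr (b K r : ℕ) (hb : 0 < b) (hrK : r ≤ K) (w h : ℕ → ℕ → ℝ)
    (hw : Law b w) (hh : ∀ i v, 0 ≤ h i v) (hc : ∀ i, Cell b (w i) (h i)) (B : ℝ) (hB0 : 0 ≤ B)
    (hB : ∀ i, ∑ v ∈ range b, h i v ≤ B) (p p' : ℕ) (hp : p.Prime) (hp2 : p ≠ 2) (hp' : p'.Prime) (hp2' : p' ≠ 2)
    (hpp : p ≠ p') (α β : ℤ) (hβ : ¬ (p : ℤ) ∣ β) (hβ' : ¬ (p' : ℤ) ∣ β) (hr : p * p' ≤ b ^ r) :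
    |∑ c ∈ range (b ^ K), Wt b K w c * ((jacobiSym (α + β * c) p : ℝ) * (jacobiSym (α + β * c) p' : ℝ))| ≤
      1 / √(p : ℝ) * (1 / √(p' : ℝ)) * B ^ r := by
  classical
  obtain ⟨g, hg1, hg2⟩ := js_fourier p hp hp2
  obtain ⟨g', hg1', hg2'⟩ := js_fourier p' hp' hp2'
  have hp0 : (0 : ℝ) < p := by exact_mod_cast hp.pos
  have hp0' : (0 : ℝ) < p' := by exact_mod_cast hp'.pos
  have hq : 1 ≤ p * p' := Nat.mul_pos hp.pos hp'.pos
  have hqz : (0 : ℤ) < ((p * p' : ℕ) : ℤ) := by exact_mod_cast hq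
  -- the points
  obtain ⟨k, hk⟩ : ∃ k : ℕ × ℕ → ℕ, k = fun x => ((β * ((x.1 : ℤ) * p' + x.2 * p)) % ((p * p' : ℕ) : ℤ)).toNat := ⟨_, rfl⟩
  have hkz : ∀ x, ((k x : ℕ) : ℤ) = (β * ((x.1 : ℤ) * p' + x.2 * p)) % ((p * p' : ℕ) : ℤ) := by
    intro x
    rw [hk]
    exact Int.toNat_of_nonneg (Int.emod_nonneg _ hqz.ne')
  have hklt : ∀ x, k x < p * p' := by
    intro x
    have h1 := Int.emod_lt_of_pos (β * ((x.1 : ℤ) * p' + x.2 * p)) hqz
    rw [← hkz] at h1
    exact_mod_cast h1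
  have hpsi : ∀ x : ℕ × ℕ, ‖psi b K w (β * ((x.1 : ℝ) / p + (x.2 : ℝ) / p'))‖ = ‖psi b K w ((k x : ℝ) / ((p * p' : ℕ) : ℝ))‖ := by
    intro x
    have h1 := Int.emod_add_mul_ediv (β * ((x.1 : ℤ) * p' + x.2 * p)) ((p * p' : ℕ) : ℤ)
    rw [← hkz] at h1
    obtain ⟨e, he⟩ : ∃ e : ℤ, e = (β * ((x.1 : ℤ) * p' + x.2 * p)) / ((p * p' : ℕ) : ℤ) := ⟨_, rfl⟩
    rw [← he] at h1
    have h2 : (k x : ℝ) + ((p * p' : ℕ) : ℝ) * e = β * ((x.1 : ℝ) * p' + x.2 * p) := by exact_mod_cast h1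
    have h3 : (β : ℝ) * ((x.1 : ℝ) / p + (x.2 : ℝ) / p') = (k x : ℝ) / ((p * p' : ℕ) : ℝ) + (e : ℤ) := by
      have h4 : (β : ℝ) * ((x.1 : ℝ) / p + (x.2 : ℝ) / p') = (β * ((x.1 : ℝ) * p' + x.2 * p)) / ((p * p' : ℕ) : ℝ) := by
        push_cast
        field_simp
      rw [h4, ← h2]
      have : ((p * p' : ℕ) : ℝ) ≠ 0 := by positivity
      field_simp
    rw [h3, psi_per]
  have hinj : Set.InjOn k ((range p ×ˢ range p' : Finset (ℕ × ℕ)) : Set (ℕ × ℕ)) := by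
    intro x hx y hy hxy
    rw [mem_coe, mem_product, mem_range, mem_range] at hx hy
    have h1 : (β * ((x.1 : ℤ) * p' + x.2 * p)) % ((p * p' : ℕ) : ℤ) = (β * ((y.1 : ℤ) * p' + y.2 * p)) % ((p * p' : ℕ) : ℤ) := by
      rw [← hkz, ← hkz, hxy]
    have h2 : ((p * p' : ℕ) : ℤ) ∣ β * ((x.1 : ℤ) * p' + x.2 * p) - β * ((y.1 : ℤ) * p' + y.2 * p) :=
      Int.dvd_of_emod_eq_zero (Int.emod_eq_emod_iff_emod_sub_eq_zero.1 h1)
    have hpz : Prime (p : ℤ) := Nat.prime_iff_prime_int.1 hp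
    have hpz' : Prime (p' : ℤ) := Nat.prime_iff_prime_int.1 hp'
    have hnd : ¬ (p : ℤ) ∣ p' := by
      intro h
      have := (Nat.prime_dvd_prime_iff_eq hp hp').1 (by exact_mod_cast h)
      exact hpp this
    have hnd' : ¬ (p' : ℤ) ∣ p := by
      intro h
      have := (Nat.prime_dvd_prime_iff_eq hp' hp).1 (by exact_mod_cast h)
      exact hpp this.symm
    have hd1 : (p : ℤ) ∣ (x.1 : ℤ) - y.1 := by
      have h3 : (p : ℤ) ∣ β * ((x.1 : ℤ) * p' + x.2 * p) - β * ((y.1 : ℤ) * p' + y.2 * p) :=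
        (Dvd.intro (p' : ℤ) (by push_cast; rfl)).trans h2
      have h4 : β * ((x.1 : ℤ) * p' + x.2 * p) - β * ((y.1 : ℤ) * p' + y.2 * p) =
          β * (p' * ((x.1 : ℤ) - y.1)) + p * (β * (x.2 - y.2)) := by ring
      rw [h4] at h3
      have h5 : (p : ℤ) ∣ β * (p' * ((x.1 : ℤ) - y.1)) := (dvd_add_left (Dvd.intro _ rfl)).1 h3
      rcases hpz.dvd_or_dvd h5 with h6 | h6
      · exact absurd h6 hβ
      · rcases hpz.dvd_or_dvd h6 with h7 | h7
        · exact absurd h7 hnd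
        · exact h7
    have hd2 : (p' : ℤ) ∣ (x.2 : ℤ) - y.2 := by
      have h3 : (p' : ℤ) ∣ β * ((x.1 : ℤ) * p' + x.2 * p) - β * ((y.1 : ℤ) * p' + y.2 * p) :=
        (Dvd.intro_left (p : ℤ) (by push_cast; rfl)).trans h2
      have h4 : β * ((x.1 : ℤ) * p' + x.2 * p) - β * ((y.1 : ℤ) * p' + y.2 * p) =
          β * (p * ((x.2 : ℤ) - y.2)) + p' * (β * (x.1 - y.1)) := by ring
      rw [h4] at h3
      have h5 : (p' : ℤ) ∣ β * (p * ((x.2 : ℤ) - y.2)) := (dvd_add_left (Dvd.intro _ rfl)).1 h3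
      rcases hpz'.dvd_or_dvd h5 with h6 | h6
      · exact absurd h6 hβ'
      · rcases hpz'.dvd_or_dvd h6 with h7 | h7
        · exact absurd h7 hnd'
        · exact h7
    have e1 : x.1 = y.1 := by
      have h3 := Int.eq_zero_of_abs_lt_dvd hd1 (by
        rw [abs_lt]
        constructor <;> omega)
      omega
    have e2 : x.2 = y.2 := by
      have h3 := Int.eq_zero_of_abs_lt_dvd hd2 (by
        rw [abs_lt]
        constructor <;> omega)
      omega
    exact Prod.ext e1 e2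
  have hsum : ∑ x ∈ range p ×ˢ range p', ‖psi b K w (β * ((x.1 : ℝ) / p + (x.2 : ℝ) / p'))‖ ≤ B ^ r := by
    rw [sum_congr rfl (fun x _ => hpsi x)]
    rw [← sum_image (f := fun j : ℕ => ‖psi b K w ((j : ℝ) / ((p * p' : ℕ) : ℝ))‖) (fun x hx y hy hxy => hinj hx hy hxy)]
    refine le_trans ?_ (psi_fractions b K r (p * p') hb hrK hq hr w h hw hh hc B hB0 hB)
    apply sum_le_sum_of_subset_of_nonneg
    · intro j hj
      rw [mem_image] at hj
      obtain ⟨x, _, rfl⟩ := hj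
      exact mem_range.2 (hklt x)
    · intro _ _ _; exact norm_nonneg _
  -- the expansion
  have hexp : ((∑ c ∈ range (b ^ K), Wt b K w c * ((jacobiSym (α + β * c) p : ℝ) * (jacobiSym (α + β * c) p' : ℝ)) : ℝ) : ℂ) =
      ∑ x ∈ range p ×ˢ range p', (g x.1 * g' x.2 * ee (α * ((x.1 : ℝ) / p + (x.2 : ℝ) / p'))) *
        psi b K w (β * ((x.1 : ℝ) / p + (x.2 : ℝ) / p')) := by
    push_cast
    have e1 : ∀ c ∈ range (b ^ K), (Wt b K w c : ℂ) * (((jacobiSym (α + β * c) p : ℤ) : ℂ) * ((jacobiSym (α + β * c) p' : ℤ) : ℂ)) =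
        ∑ x ∈ range p ×ˢ range p', (g x.1 * g' x.2 * ee (α * ((x.1 : ℝ) / p + (x.2 : ℝ) / p'))) *
          ((Wt b K w c : ℂ) * ee (c * (β * ((x.1 : ℝ) / p + (x.2 : ℝ) / p')))) := by
      intro c _
      rw [hg2, hg2', sum_mul_sum, sum_product, mul_sum]
      refine sum_congr rfl fun i _ => ?_
      rw [mul_sum]
      refine sum_congr rfl fun j _ => ?_
      have e2 : ee ((α + β * c : ℤ) * ((i : ℝ) / p)) * ee ((α + β * c : ℤ) * ((j : ℝ) / p')) =
          ee (α * ((i : ℝ) / p + (j : ℝ) / p')) * ee (c * (β * ((i : ℝ) / p + (j : ℝ) / p'))) := by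
        rw [← ls_ee_add, ← ls_ee_add]
        congr 1
        push_cast
        ring
      calc (Wt b K w c : ℂ) * (g i * ee ((α + β * c : ℤ) * ((i : ℝ) / p)) * (g' j * ee ((α + β * c : ℤ) * ((j : ℝ) / p'))))
          = (Wt b K w c : ℂ) * g i * g' j * (ee ((α + β * c : ℤ) * ((i : ℝ) / p)) * ee ((α + β * c : ℤ) * ((j : ℝ) / p'))) := by ring
        _ = _ := by rw [e2]; ring
    rw [sum_congr rfl e1, sum_comm]
    refine sum_congr rfl fun x _ => ?_
    rw [← mul_sum]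
    rfl
  have h1 : |∑ c ∈ range (b ^ K), Wt b K w c * ((jacobiSym (α + β * c) p : ℝ) * (jacobiSym (α + β * c) p' : ℝ))| =
      ‖((∑ c ∈ range (b ^ K), Wt b K w c * ((jacobiSym (α + β * c) p : ℝ) * (jacobiSym (α + β * c) p' : ℝ)) : ℝ) : ℂ)‖ := by
    rw [Complex.norm_real, Real.norm_eq_abs]
  rw [h1, hexp]
  refine (norm_sum_le _ _).trans ?_
  calc ∑ x ∈ range p ×ˢ range p', ‖(g x.1 * g' x.2 * ee (α * ((x.1 : ℝ) / p + (x.2 : ℝ) / p'))) *
        psi b K w (β * ((x.1 : ℝ) / p + (x.2 : ℝ) / p'))‖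
      ≤ ∑ x ∈ range p ×ˢ range p', 1 / √(p : ℝ) * (1 / √(p' : ℝ)) * ‖psi b K w (β * ((x.1 : ℝ) / p + (x.2 : ℝ) / p'))‖ := by
        refine sum_le_sum fun x _ => ?_
        rw [norm_mul, norm_mul, norm_mul, ls_norm_ee, mul_one]
        apply mul_le_mul_of_nonneg_right _ (norm_nonneg _)
        exact mul_le_mul (hg1 _) (hg1' _) (norm_nonneg _) (by positivity)
    _ ≤ _ := by
        rw [← mul_sum]
        exact mul_le_mul_of_nonneg_left hsum (by positivity)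

end Pool.Agent.L7h18.DG
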