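import Pool.Agent.L7h18.DG.A5
import Pool.Agent.L7h18.DG.B1
import Pool.Agent.R460.SC.Tl

/-!
The second moment of the sums over primes.
-/

set_option autoImplicit false

namespace Pool.Agent.L7h18.DG

open Finset
open Pool.Agent.Helper112
open Pool.Agent.W468.ConjF (js_abs sum_inv_sq)

/-- the second moment of the sum over primes -/
theorem js_moment (b K : ℕ) (hb : 2 ≤ b) (w h : ℕ → ℕ → ℝ)
    (hw : Law b w) (hh : ∀ i v, 0 ≤ h i v) (hc : ∀ i, Cell b (w i) (h i)) (B : ℝ) (hB0 : 0 ≤ B)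
    (hB : ∀ i, ∑ v ∈ range b, h i v ≤ B) (hB4 : B ^ 4 ≤ b) (P : Finset ℕ) (z Z : ℕ) (hz : 1 ≤ z)
    (hZ : Z ^ 2 ≤ b ^ K) (α β : ℤ) (hP : ∀ p ∈ P, p.Prime ∧ p ≠ 2 ∧ z < p ∧ p ≤ Z ∧ ¬ (p : ℤ) ∣ β) :
    ∑ c ∈ range (b ^ K), Wt b K w c * (∑ p ∈ P, (jacobiSym (α + β * c) p : ℝ) / p) ^ 2 ≤
      1 / z + √(b / z) * (1 + Real.log Z) ^ 2 := by
  classical
  have hb0 : 0 < b := by omega
  have hbr : (0 : ℝ) < b := by exact_mod_cast hb0
  have hz0 : (0 : ℝ) < z := by exact_mod_cast hz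
  have hWt : ∀ c, 0 ≤ Wt b K w c := fun c => Wt_nonneg K hw c
  have hexp : ∑ c ∈ range (b ^ K), Wt b K w c * (∑ p ∈ P, (jacobiSym (α + β * c) p : ℝ) / p) ^ 2 =
      ∑ p ∈ P, ∑ p' ∈ P, (∑ c ∈ range (b ^ K), Wt b K w c *
        ((jacobiSym (α + β * c) p : ℝ) * (jacobiSym (α + β * c) p' : ℝ))) / (p * p') := by
    simp_rw [sq (∑ p ∈ P, _), sum_mul_sum, mul_sum]
    rw [sum_comm]
    refine sum_congr rfl fun p _ => ?_
    rw [sum_comm]
    refine sum_congr rfl fun p' _ => ?_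
    rw [sum_div]
    refine sum_congr rfl fun c _ => ?_
    rw [div_mul_div_comm]
    ring
  rw [hexp]
  have hterm : ∀ p ∈ P, ∀ p' ∈ P, (∑ c ∈ range (b ^ K), Wt b K w c *
        ((jacobiSym (α + β * c) p : ℝ) * (jacobiSym (α + β * c) p' : ℝ))) / (p * p') ≤
      (if p = p' then 1 / (p : ℝ) ^ 2 else 0) + √(b / z) * (1 / (p : ℝ) * (1 / (p' : ℝ))) := by
    intro p hp p' hp'
    obtain ⟨hpp, hp2, hzp, hpZ, hpβ⟩ := hP p hp
    obtain ⟨hpp', hp2', hzp', hpZ', hpβ'⟩ := hP p' hp'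
    have hp0 : (0 : ℝ) < p := by exact_mod_cast hpp.pos
    have hp0' : (0 : ℝ) < p' := by exact_mod_cast hpp'.pos
    by_cases hpe : p = p'
    · subst hpe
      rw [if_pos rfl]
      have h3 : ∑ c ∈ range (b ^ K), Wt b K w c * ((jacobiSym (α + β * c) p : ℝ) * (jacobiSym (α + β * c) p : ℝ)) ≤ 1 := by
        rw [← sum_Wt hb0 K hw]
        refine sum_le_sum fun c _ => mul_le_of_le_one_right (hWt c) ?_
        rw [← sq, sq_le_one_iff_abs_le_one]
        exact js_abs _ _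
      have h4 : (∑ c ∈ range (b ^ K), Wt b K w c * ((jacobiSym (α + β * c) p : ℝ) * (jacobiSym (α + β * c) p : ℝ))) / (p * p) ≤
          1 / (p : ℝ) ^ 2 := by
        rw [sq]
        exact div_le_div_of_nonneg_right h3 (by positivity)
      have h5 : 0 ≤ √((b : ℝ) / z) * (1 / (p : ℝ) * (1 / (p : ℝ))) := by positivity
      linarith
    · rw [if_neg hpe, zero_add]
      -- the number of digits
      have hex : ∃ r : ℕ, p * p' ≤ b ^ r := ⟨K, by
        calc p * p' ≤ Z * Z := Nat.mul_le_mul hpZ hpZ'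
          _ = Z ^ 2 := (sq Z).symm
          _ ≤ b ^ K := hZ⟩
      obtain ⟨r, hr⟩ : ∃ r, r = Nat.find hex := ⟨_, rfl⟩
      have hr1 : p * p' ≤ b ^ r := by rw [hr]; exact Nat.find_spec hex
      have hrK : r ≤ K := by
        rw [hr]
        apply Nat.find_min'
        calc p * p' ≤ Z * Z := Nat.mul_le_mul hpZ hpZ'
          _ = Z ^ 2 := (sq Z).symm
          _ ≤ b ^ K := hZ
      have hr0 : r ≠ 0 := by
        intro h0
        rw [h0, pow_zero] at hr1
        have := hpp.two_le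
        have := hpp'.two_le
        nlinarith
      have hr2 : b ^ r ≤ b * (p * p') := by
        have h1 := Nat.find_min hex (m := r - 1) (by rw [← hr]; omega)
        push Not at h1
        obtain ⟨k, hk⟩ : ∃ k, r = k + 1 := ⟨r - 1, by omega⟩
        rw [hk, Nat.add_sub_cancel] at h1
        rw [hk, pow_succ']
        exact Nat.mul_le_mul_left _ h1.le
      have h1 := js_corr b K r hb0 hrK w h hw hh hc B hB0 hB p p' hpp hp2 hpp' hp2' hpe α β hpβ hpβ' hr1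
      obtain ⟨y, hy⟩ : ∃ y, y = 1 / √(p : ℝ) * (1 / √(p' : ℝ)) * B ^ r := ⟨_, rfl⟩
      rw [← hy] at h1
      have hy0 : 0 ≤ y := by rw [hy]; positivity
      have hy4 : (y ^ 2) ^ 2 ≤ ((b : ℝ) / z) ^ 2 := by
        have e1 : (√(p : ℝ)) ^ 4 = (p : ℝ) ^ 2 := by
          rw [show (4 : ℕ) = 2 * 2 by norm_num, pow_mul, Real.sq_sqrt hp0.le]
        have e2 : (√(p' : ℝ)) ^ 4 = (p' : ℝ) ^ 2 := by
          rw [show (4 : ℕ) = 2 * 2 by norm_num, pow_mul, Real.sq_sqrt hp0'.le]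
        have e3 : (y ^ 2) ^ 2 = (B ^ r) ^ 4 / ((p : ℝ) ^ 2 * (p' : ℝ) ^ 2) := by
          rw [hy, ← pow_mul, mul_pow, mul_pow, div_pow, div_pow, e1, e2]
          ring
        have e4 : (B ^ r) ^ 4 ≤ b * (p * p') := by
          calc (B ^ r) ^ 4 = (B ^ 4) ^ r := by rw [← pow_mul, ← pow_mul, mul_comm]
            _ ≤ (b : ℝ) ^ r := pow_le_pow_left₀ (by positivity) hB4 _
            _ ≤ b * (p * p') := by exact_mod_cast hr2
        rw [e3, div_pow, div_le_div_iff₀ (by positivity) (by positivity)]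
        have hzp1 : (z : ℝ) ≤ p := by exact_mod_cast hzp.le
        have hzp1' : (z : ℝ) ≤ p' := by exact_mod_cast hzp'.le
        have hb1 : (1 : ℝ) ≤ b := by exact_mod_cast hb0
        calc (B ^ r) ^ 4 * (z : ℝ) ^ 2 ≤ (b * (p * p')) * ((p : ℝ) * p') := by
              apply mul_le_mul e4 _ (by positivity) (by positivity)
              rw [sq]
              exact mul_le_mul hzp1 hzp1' hz0.le hp0.le
          _ = b * ((p : ℝ) ^ 2 * (p' : ℝ) ^ 2) := by ring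
          _ ≤ (b : ℝ) ^ 2 * ((p : ℝ) ^ 2 * (p' : ℝ) ^ 2) := by
              apply mul_le_mul_of_nonneg_right _ (by positivity)
              exact le_self_pow₀ hb1 (by norm_num)
      have hy2 : y ^ 2 ≤ (b : ℝ) / z := le_of_pow_le_pow_left₀ (by norm_num) (by positivity) hy4
      have hy1 : y ≤ √((b : ℝ) / z) := Real.le_sqrt_of_sq_le hy2
      calc (∑ c ∈ range (b ^ K), Wt b K w c * ((jacobiSym (α + β * c) p : ℝ) * (jacobiSym (α + β * c) p' : ℝ))) / (p * p')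
          ≤ √((b : ℝ) / z) / (p * p') :=
            div_le_div_of_nonneg_right ((le_abs_self _).trans (h1.trans hy1)) (by positivity)
        _ = _ := by field_simp
  have hharm : ∑ p ∈ P, 1 / (p : ℝ) ≤ 1 + Real.log Z := by
    refine le_trans ?_ (harm Z)
    apply sum_le_sum_of_subset_of_nonneg
    · intro p hp
      rw [mem_range]
      have := (hP p hp).2.2.2.1
      omega
    · intro _ _ _; positivity
  have hharm0 : 0 ≤ ∑ p ∈ P, 1 / (p : ℝ) := sum_nonneg fun _ _ => by positivity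
  calc ∑ p ∈ P, ∑ p' ∈ P, (∑ c ∈ range (b ^ K), Wt b K w c *
        ((jacobiSym (α + β * c) p : ℝ) * (jacobiSym (α + β * c) p' : ℝ))) / (p * p')
      ≤ ∑ p ∈ P, ∑ p' ∈ P, ((if p = p' then 1 / (p : ℝ) ^ 2 else 0) + √(b / z) * (1 / (p : ℝ) * (1 / (p' : ℝ)))) :=
        sum_le_sum fun p hp => sum_le_sum fun p' hp' => hterm p hp p' hp'
    _ = ∑ p ∈ P, 1 / (p : ℝ) ^ 2 + √(b / z) * (∑ p ∈ P, 1 / (p : ℝ)) ^ 2 := by
        simp_rw [sum_add_distrib]
        congr 1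
        · refine sum_congr rfl fun p hp => ?_
          rw [sum_ite_eq, if_pos hp]
        · rw [sq (∑ p ∈ P, _), sum_mul_sum, mul_sum]
          refine sum_congr rfl fun p _ => ?_
          rw [mul_sum]
    _ ≤ 1 / z + √(b / z) * (1 + Real.log Z) ^ 2 := by
        apply add_le_add
        · have hsub : P ⊆ Ioc z Z := by
            intro p hp
            rw [mem_Ioc]
            exact ⟨(hP p hp).2.2.1, (hP p hp).2.2.2.1⟩
          rcases P.eq_empty_or_nonempty with h | ⟨p, hp⟩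
          · rw [h, sum_empty]; positivity
          · have hzZ : z ≤ Z := by
              have := hP p hp
              omega
            calc ∑ p ∈ P, 1 / (p : ℝ) ^ 2 ≤ ∑ n ∈ Ioc z Z, 1 / (n : ℝ) ^ 2 :=
                  sum_le_sum_of_subset_of_nonneg hsub (fun _ _ _ => by positivity)
              _ ≤ 1 / (z : ℝ) - 1 / (Z : ℝ) := sum_inv_sq z Z hz hzZ
              _ ≤ 1 / (z : ℝ) := by
                  have : (0 : ℝ) ≤ 1 / (Z : ℝ) := by positivity
                  linarith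
        · apply mul_le_mul_of_nonneg_left _ (Real.sqrt_nonneg _)
          exact pow_le_pow_left₀ hharm0 hharm 2

/-- few `c` have a large sum over primes -/
theorem js_few (b K : ℕ) (hb : 2 ≤ b) (w h : ℕ → ℕ → ℝ)
    (hw : Law b w) (hh : ∀ i v, 0 ≤ h i v) (hc : ∀ i, Cell b (w i) (h i)) (B : ℝ) (hB0 : 0 ≤ B)
    (hB : ∀ i, ∑ v ∈ range b, h i v ≤ B) (hB4 : B ^ 4 ≤ b) (P : Finset ℕ) (z Z : ℕ) (hz : 1 ≤ z)
    (hZ : Z ^ 2 ≤ b ^ K) (α β : ℤ) (hP : ∀ p ∈ P, p.Prime ∧ p ≠ 2 ∧ z < p ∧ p ≤ Z ∧ ¬ (p : ℤ) ∣ β)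
    (τ : ℝ) (hτ : 0 < τ) :
    ∑ c ∈ (range (b ^ K)).filter (fun c : ℕ => τ < |∑ p ∈ P, (jacobiSym (α + β * c) p : ℝ) / p|), Wt b K w c ≤
      (1 / z + √(b / z) * (1 + Real.log Z) ^ 2) / τ ^ 2 := by
  have hWt : ∀ c, 0 ≤ Wt b K w c := fun c => Wt_nonneg K hw c
  rw [le_div_iff₀ (by positivity)]
  refine le_trans ?_ (js_moment b K hb w h hw hh hc B hB0 hB hB4 P z Z hz hZ α β hP)
  rw [sum_mul]
  refine le_trans (sum_le_sum (g := fun c => Wt b K w c * (∑ p ∈ P, (jacobiSym (α + β * c) p : ℝ) / p) ^ 2) fun c hc' => ?_)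
    (sum_le_sum_of_subset_of_nonneg (filter_subset _ _) (fun c _ _ => mul_nonneg (hWt c) (sq_nonneg _)))
  rw [mem_filter] at hc'
  apply mul_le_mul_of_nonneg_left _ (hWt c)
  rw [← sq_abs (∑ p ∈ P, (jacobiSym (α + β * c) p : ℝ) / p)]
  exact pow_le_pow_left₀ hτ.le hc'.2.le 2

end Pool.Agent.L7h18.DG
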