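import Pool.Agent.R460.SC.Tl
import Pool.Agent.R460.SC.So

/-! The tail of the product for most members of a sequence of discriminants: a version of `R460/SC/Tl` (`tail_gen2`)
in which the exceptional members are few except for those with a large sum over the small primes. -/

set_option autoImplicit false

namespace Pool.Agent.L7h18.DG
open Finset Filter Topology
open Pool.Agent.W468.ConjF
open Pool.Agent.H307R2.OP (J PB badCount)
open Pool.Agent.Y868.TB

theorem tail_split (U E M : ℕ) (hM : 1 ≤ M) : ∃ H₀ : ℕ, ∀ H : ℕ, H₀ ≤ H → ∀ z : ℕ, Real.log H ^ (3 * U + 3) ≤ z →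
    (z : ℝ) ≤ Real.log H ^ E → ∃ i0 : ℕ, (2 ^ i0) ^ 3 ≤ H ∧ ∀ (f : ℕ → ℤ), (∀ b ∈ Icc 1 H, (f b).natAbs ≤ H ^ M) →
    ∀ W : ℝ, 0 ≤ W → (∀ d : ℤ, (#(Sol f H d) : ℝ) ≤ W) → W ^ 3 ≤ (H : ℝ) ^ 2 →
    ∃ Ex : Finset ℕ, (#Ex : ℝ) ^ 4 ≤ (H : ℝ) ^ 3 ∧
      ∀ b ∈ Icc 1 H, b ∉ Ex → |∑ p ∈ (Ioc z (2 ^ i0)).filter Nat.Prime, (jacobiSym (f b) p : ℝ) / p| ≤ 1 / (4 * Real.log H ^ U) →
        ¬ IsSquare (f b) ∧ ∀ᶠ N in atTop, |SJ (f b) z N| ≤ 1 / Real.log H ^ U := by
  classical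
  obtain ⟨A, hA⟩ : ∃ A, A = U + 3 := ⟨_, rfl⟩
  obtain ⟨m, hm⟩ : ∃ m, m = 9 * M := ⟨_, rfl⟩
  obtain ⟨N, hN⟩ : ∃ N, N = 12 * (3 + 2 * m * A) := ⟨_, rfl⟩
  have hN6 : 6 ≤ N := by rw [hN]; omega
  obtain ⟨G, hG⟩ : ∃ G : ℝ, G = 17 * (2 * m) ^ m * 2 ^ (1 + 2 * m * A) := ⟨_, rfl⟩
  have hm1' : (1 : ℝ) ≤ m := by
    rw [hm]
    exact_mod_cast (by omega : 1 ≤ 9 * M)
  have hmm : (1 : ℝ) ≤ (2 * (m : ℝ)) ^ m := one_le_pow₀ (by linarith)
  have hG1 : 1 ≤ G := by
    rw [hG]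
    have h1 : (1 : ℝ) ≤ 2 ^ (1 + 2 * m * A) := one_le_pow₀ (by norm_num)
    have h2 : (1 : ℝ) ≤ 17 * (2 * (m : ℝ)) ^ m := by linarith
    exact one_le_mul_of_one_le_of_one_le h2 h1
  obtain ⟨n₁, hn₁⟩ := tail (2 * (M * N + 1))
  obtain ⟨m1, hm1⟩ := evt_root N U (by omega) (4 * G + 3000)
  obtain ⟨m2, hm2⟩ := evt_root N 1 (by omega) (n₁ + 4)
  obtain ⟨m3, hm3⟩ := evt_root 3 (3 * U + 3) (by norm_num) 2
  obtain ⟨m4, hm4⟩ := evt_root 3 E (by norm_num) 2
  have hlim : Filter.Tendsto (fun N : ℕ => Real.log (N : ℝ)) Filter.atTop Filter.atTop :=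
    Real.tendsto_log_atTop.comp (tendsto_natCast_atTop_atTop (R := ℝ))
  obtain ⟨m5, hm5⟩ := eventually_atTop.1 (hlim.eventually_ge_atTop (64 * 4 ^ (U + 1) + 1000 + 200 * M))
  refine ⟨max (max (max m1 m2) (max m3 m4)) (max m5 3), fun H hH z hz1 hz2 => ?_⟩
  have a1 := hm1 H (le_trans (le_trans (le_trans (le_max_left _ _) (le_max_left _ _)) (le_max_left _ _)) hH)
  have a2 := hm2 H (le_trans (le_trans (le_trans (le_max_right _ _) (le_max_left _ _)) (le_max_left _ _)) hH)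
  have a3 := hm3 H (le_trans (le_trans (le_trans (le_max_left _ _) (le_max_right _ _)) (le_max_left _ _)) hH)
  have a4 := hm4 H (le_trans (le_trans (le_trans (le_max_right _ _) (le_max_right _ _)) (le_max_left _ _)) hH)
  have a5 := hm5 H (le_trans (le_trans (le_max_left _ _) (le_max_right _ _)) hH)
  have hH3 : 3 ≤ H := le_trans (le_trans (le_max_right _ _) (le_max_right _ _)) hH
  have hHr : (3 : ℝ) ≤ H := by exact_mod_cast hH3
  have hH0 : (0 : ℝ) < H := by linarith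
  have hMr : (1 : ℝ) ≤ M := by exact_mod_cast hM
  set L := Real.log H with hL
  have h4U : (1 : ℝ) ≤ 4 ^ (U + 1) := one_le_pow₀ (by norm_num)
  have hL1000 : 1000 ≤ L := by linarith
  have hLM : 200 * (M : ℝ) ≤ L := by linarith
  have hL0 : 0 < L := by linarith
  have hL1 : 1 ≤ L := by linarith
  have hLp : ∀ k : ℕ, 0 < L ^ k := fun k => by positivity
  have hLp1 : ∀ k : ℕ, 1 ≤ L ^ k := fun k => one_le_pow₀ hL1
  have hLL : ∀ {i j : ℕ}, i ≤ j → L ^ i ≤ L ^ j := fun h => pow_le_pow_right₀ hL1 h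
  rw [pow_one] at a2
  set t : ℝ := (H : ℝ) ^ ((1 : ℝ) / N) with ht
  have hN1 : 1 ≤ N := by omega
  have ht0 : 0 < t := Real.rpow_pos_of_pos hH0 _
  have ht1 : 1 ≤ t := Real.one_le_rpow (by linarith) (by positivity)
  have htN : t ^ N = H := by
    rw [ht, ← Real.rpow_natCast, ← Real.rpow_mul hH0.le]
    have : (1 : ℝ) / N * (N : ℕ) = 1 := by
      have : (N : ℝ) ≠ 0 := by positivity
      field_simp
    rw [this, Real.rpow_one]
  have hz0' : (1 : ℝ) ≤ z := (hLp1 _).trans hz1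
  have hz0 : (0 : ℝ) < z := by linarith
  have hz2' : 2 ≤ z := by
    have h1 : L ≤ L ^ (3 * U + 3) := le_self_pow₀ hL1 (by omega)
    have : (2 : ℝ) ≤ z := by linarith
    exact_mod_cast this
  -- powers of two
  set l2 := Nat.log 2 H with hl2
  obtain ⟨i0, hi0⟩ : ∃ i0, i0 = l2 / 3 := ⟨_, rfl⟩
  have hp1 : (2 ^ i0) ^ 3 ≤ H := by
    rw [← pow_mul, hi0]
    calc 2 ^ (l2 / 3 * 3) ≤ 2 ^ l2 := Nat.pow_le_pow_right (by norm_num) (Nat.div_mul_le_self _ _)
      _ ≤ H := Nat.pow_log_le_self 2 (by omega)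
  have hp2 : H ≤ (2 * 2 ^ i0) ^ 3 := by
    have h1 : H < 2 ^ (l2 + 1) := Nat.lt_pow_succ_log_self (by norm_num) H
    have h2 : l2 + 1 ≤ 3 * (i0 + 1) := by
      have := Nat.div_add_mod l2 3
      have := Nat.mod_lt l2 (show 0 < 3 by norm_num)
      omega
    calc H ≤ 2 ^ (l2 + 1) := h1.le
      _ ≤ 2 ^ (3 * (i0 + 1)) := Nat.pow_le_pow_right (by norm_num) h2
      _ = (2 * 2 ^ i0) ^ 3 := by rw [← pow_succ', ← pow_mul]; ring_nf
  have hcube : ((H : ℝ) ^ ((1 : ℝ) / (3 : ℕ))) ^ 3 = H := by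
    rw [← Real.rpow_natCast, ← Real.rpow_mul hH0.le]
    norm_num
  have hbig : ∀ k : ℕ, 2 * L ^ k ≤ (H : ℝ) ^ ((1 : ℝ) / (3 : ℕ)) → L ^ k ≤ (2 : ℝ) ^ i0 := by
    intro k hk
    have h1 : (2 * L ^ k) ^ 3 ≤ (2 * (2 : ℝ) ^ i0) ^ 3 := by
      calc (2 * L ^ k) ^ 3 ≤ ((H : ℝ) ^ ((1 : ℝ) / (3 : ℕ))) ^ 3 := pow_le_pow_left₀ (by positivity) hk 3
        _ = H := hcube
        _ ≤ _ := by exact_mod_cast hp2
    have h2 := le_of_pow_le_pow_left₀ (by norm_num) (by positivity) h1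
    linarith
  have e3 := hbig _ a3
  have e4 := hbig _ a4
  have hzi : z ≤ 2 ^ i0 := by
    have h1 : (z : ℝ) ≤ (2 : ℝ) ^ i0 := hz2.trans e4
    exact_mod_cast h1
  -- the binary logarithm
  have hlog2 := Real.log_two_gt_d9
  have hlog2' := Real.log_two_lt_d9
  have hl2a : (l2 : ℝ) ≤ 1.5 * L := by
    have h1 : ((2 ^ l2 : ℕ) : ℝ) ≤ H := by exact_mod_cast Nat.pow_log_le_self 2 (by omega)
    push_cast at h1
    have h2 := Real.log_le_log (by positivity) h1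
    rw [Real.log_pow] at h2
    exact aux1 _ _ _ (Nat.cast_nonneg _) hlog2 h2
  have hl2b : 1.4 * L - 1 ≤ l2 := by
    have h1 : (H : ℝ) ≤ ((2 ^ (l2 + 1) : ℕ) : ℝ) := by exact_mod_cast (Nat.lt_pow_succ_log_self (by norm_num) H).le
    push_cast at h1
    have h2 := Real.log_le_log hH0 h1
    rw [Real.log_pow] at h2
    push_cast at h2
    exact aux2 _ _ _ (Nat.cast_nonneg _) hlog2' h2
  have hi0a : L / 4 ≤ i0 := by
    have h1 : (l2 : ℝ) ≤ 3 * i0 + 2 := by exact_mod_cast (by omega : l2 ≤ 3 * i0 + 2)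
    linarith
  have hi0b : (i0 : ℝ) ≤ L := by
    have h1 : (3 : ℝ) * i0 ≤ l2 := by exact_mod_cast (by omega : 3 * i0 ≤ l2)
    linarith
  have hi2 : 2 ≤ i0 := by
    have : (2 : ℝ) ≤ i0 := by linarith
    exact_mod_cast this
  -- the second parameter
  have h3000 : 3000 * L ^ U ≤ t := by
    have : 0 ≤ 4 * G * L ^ U := by positivity
    linarith
  have h4G : 4 * G * L ^ U ≤ t := by
    have : 0 ≤ 3000 * L ^ U := by positivity
    linarith
  have hn₁0 : (0 : ℝ) ≤ n₁ := Nat.cast_nonneg _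
  have ht4L : 4 * L ≤ t := by
    have : 0 ≤ (n₁ : ℝ) * L := by positivity
    linarith
  have htn₁ : (n₁ : ℝ) ≤ t := by
    have : (n₁ : ℝ) * 1 ≤ n₁ * L := mul_le_mul_of_nonneg_left hL1 hn₁0
    linarith
  obtain ⟨I, hI⟩ : ∃ I, I = ⌈t⌉₊ := ⟨_, rfl⟩
  have htI : t ≤ I := by rw [hI]; exact Nat.le_ceil t
  have hI2t : (I : ℝ) ≤ 2 * t := by
    have := Nat.ceil_lt_add_one ht0.le
    rw [← hI] at this
    linarith
  have hiI : i0 ≤ I := by
    have h1 : (i0 : ℝ) ≤ I := by linarith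
    exact_mod_cast h1
  have hIn : n₁ ≤ I := by
    have h1 : (n₁ : ℝ) ≤ I := htn₁.trans htI
    exact_mod_cast h1
  have hI4 : 4 ≤ I := by
    have h1 : (4 : ℝ) ≤ I := by linarith
    exact_mod_cast h1
  have hHI : H ≤ I ^ N := by
    have h1 : (H : ℝ) ≤ (I : ℝ) ^ N := by
      rw [← htN]
      exact pow_le_pow_left₀ ht0.le htI N
    exact_mod_cast h1
  -- size of the discriminants
  have hΔ3 : (H ^ M) ^ 3 ≤ (2 * 2 ^ i0) ^ m := by
    calc (H ^ M) ^ 3 = H ^ (3 * M) := by rw [← pow_mul, mul_comm]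
      _ ≤ ((2 * 2 ^ i0) ^ 3) ^ (3 * M) := Nat.pow_le_pow_left hp2 _
      _ = (2 * 2 ^ i0) ^ m := by rw [← pow_mul, hm]; congr 1; ring
  have hLΔ : (Nat.log 2 (H ^ M) : ℝ) ≤ 2 * M * L := by
    have h1 : Nat.log 2 (H ^ M) ≤ M * (l2 + 1) := by
      have h2 : H ^ M < 2 ^ (M * (l2 + 1)) := by
        have h3 : H < 2 ^ (l2 + 1) := Nat.lt_pow_succ_log_self (by norm_num) H
        calc H ^ M < (2 ^ (l2 + 1)) ^ M := Nat.pow_lt_pow_left h3 (by omega)
          _ = 2 ^ (M * (l2 + 1)) := by rw [← pow_mul, mul_comm]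
      exact (Nat.log_lt_of_lt_pow (by positivity) h2).le
    have h2 : (Nat.log 2 (H ^ M) : ℝ) ≤ M * (l2 + 1) := by exact_mod_cast h1
    refine h2.trans ?_
    have h3 : (l2 : ℝ) + 1 ≤ 2 * L := by linarith
    have h4 := mul_le_mul_of_nonneg_left h3 (by linarith : (0 : ℝ) ≤ M)
    linarith
  refine ⟨i0, hp1, fun f hΔ W hW0 hWc hW2 => ?_⟩
  -- the second exceptional set
  obtain ⟨E2, hE2c, hE2⟩ := mid_count_G A f H (H ^ M) i0 I m W hW0 hWc hΔ (by omega) (by omega) hΔ3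
  have hE2c' : (#E2 : ℝ) ^ 4 ≤ (H : ℝ) ^ 3 := by
    have h3 : 4 * ((I : ℝ) * (8 * (2 * (m : ℝ) * (I : ℝ) ^ (2 * A)) ^ m)) + 1 ≤ 2 * G * t ^ (1 + 2 * m * A) := by
      have h4 : (I : ℝ) * (8 * (2 * (m : ℝ) * (I : ℝ) ^ (2 * A)) ^ m) ≤ 2 * t * (8 * (2 * m * (2 * t) ^ (2 * A)) ^ m) := by
        gcongr
      have h5 : 4 * (2 * t * (8 * (2 * (m : ℝ) * (2 * t) ^ (2 * A)) ^ m)) = 32 * (2 * m) ^ m * (2 * t) ^ (1 + 2 * m * A) := by
        rw [mul_pow _ ((2 * t) ^ (2 * A)), ← pow_mul, show 2 * A * m = 2 * m * A by ring, pow_add (2 * t) 1 (2 * m * A), pow_one]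
        ring
      have h6 : (1 : ℝ) ≤ (2 * (m : ℝ)) ^ m * (2 * t) ^ (1 + 2 * m * A) := by
        have h8 : (1 : ℝ) ≤ (2 * t) ^ (1 + 2 * m * A) := one_le_pow₀ (by linarith)
        exact one_le_mul_of_one_le_of_one_le hmm h8
      have h7 : 2 * G * t ^ (1 + 2 * m * A) = 34 * (2 * m) ^ m * (2 * t) ^ (1 + 2 * m * A) := by
        rw [hG, mul_pow]; ring
      rw [h7]
      linarith
    have h2G : 2 * G * t ^ (1 + 2 * m * A) ≤ t ^ (3 + 2 * m * A) := by
      have h4 : 2 * G ≤ t ^ 2 := by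
        have h5 : 4 * G ≤ t := by
          have h6 : 4 * G * 1 ≤ 4 * G * L ^ U := mul_le_mul_of_nonneg_left (hLp1 U) (by linarith)
          linarith
        have h6 : t ≤ t ^ 2 := le_self_pow₀ ht1 (by norm_num)
        linarith
      calc 2 * G * t ^ (1 + 2 * m * A) ≤ t ^ 2 * t ^ (1 + 2 * m * A) := mul_le_mul_of_nonneg_right h4 (by positivity)
        _ = t ^ (3 + 2 * m * A) := by rw [← pow_add]; congr 1; ring
    have h8 : (#E2 : ℝ) ≤ t ^ (3 + 2 * m * A) * W :=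
      hE2c.trans (mul_le_mul_of_nonneg_right (h3.trans h2G) hW0)
    have h9 : ((#E2 : ℝ) ^ 4) ^ 3 ≤ ((H : ℝ) ^ 3) ^ 3 := by
      calc ((#E2 : ℝ) ^ 4) ^ 3 = (#E2 : ℝ) ^ 12 := by rw [← pow_mul]
        _ ≤ (t ^ (3 + 2 * m * A) * W) ^ 12 := pow_le_pow_left₀ (Nat.cast_nonneg _) h8 12
        _ = t ^ N * (W ^ 3) ^ 4 := by rw [mul_pow, ← pow_mul, ← pow_mul, hN, mul_comm 12]
        _ ≤ (H : ℝ) * ((H : ℝ) ^ 2) ^ 4 := by
            rw [htN]
            apply mul_le_mul_of_nonneg_left _ hH0.le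
            exact pow_le_pow_left₀ (by positivity) hW2 4
        _ = ((H : ℝ) ^ 3) ^ 3 := by ring
    exact le_of_pow_le_pow_left₀ (by norm_num) (by positivity) h9
  refine ⟨E2, hE2c', ?_⟩
  · intro b hb hbE hsm
    obtain ⟨hsq, hmid⟩ := hE2 b hb hbE
    refine ⟨hsq, ?_⟩
    set D : ℤ := f b with hD
    set σ : ℝ := 1 / (8 * L ^ U) with hσ
    have hσ0 : 0 < σ := by positivity
    have b1 : |SJ D z (2 ^ i0)| ≤ 3 * σ := by
      have h4 : 1 / (4 * L ^ U) = 2 * σ := by rw [hσ]; field_simp; norm_num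
      have h5 : SJ D z (2 ^ i0) = ∑ p ∈ (Ioc z (2 ^ i0)).filter Nat.Prime, (jacobiSym D p : ℝ) / p := rfl
      rw [h5]
      rw [h4] at hsm
      linarith
    have b2 : |SJ D (2 ^ i0) (2 ^ (I + 1))| ≤ 2 * σ := by
      refine (mid_sum_A (U + 1) D i0 I (Nat.log 2 (H ^ M)) (by positivity) hi2 hiI (by
        intro i hi
        have := hmid i hi
        rw [hA] at this
        exact this)).trans ?_
      have h1 : 4 / (i0 : ℝ) ^ (U + 1) ≤ σ := by
        have h2 : L / 4 > 0 := by positivity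
        have h3 : (L / 4) ^ (U + 1) ≤ (i0 : ℝ) ^ (U + 1) := pow_le_pow_left₀ h2.le hi0a _
        rw [hσ]
        rw [div_le_div_iff₀ (by positivity) (by positivity), one_mul]
        refine le_trans ?_ h3
        rw [div_pow, le_div_iff₀ (by positivity), pow_succ L]
        have h4 : 32 * 4 ^ (U + 1) ≤ L := by linarith
        have h5 := mul_le_mul_of_nonneg_left h4 (hLp U).le
        linarith
      have h2 : 8 * (Nat.log 2 (H ^ M) : ℝ) / 2 ^ i0 ≤ σ := by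
        calc 8 * (Nat.log 2 (H ^ M) : ℝ) / 2 ^ i0 ≤ 8 * (2 * M * L) / L ^ (3 * U + 3) := by
              apply div_le_div₀ (by positivity) _ (hLp _) e3
              linarith
          _ = 128 * M / (L ^ U * L ^ U * L ^ 2) * σ := by
              rw [hσ, show 3 * U + 3 = U + U + U + 2 + 1 by ring]
              simp only [pow_succ L (U + U + U + 2), pow_add L (U + U + U) 2, pow_add L (U + U) U, pow_add L U U]
              have := (hLp U).ne'
              field_simp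
              norm_num
          _ ≤ 1 * σ := by
              apply mul_le_mul_of_nonneg_right _ hσ0.le
              rw [div_le_one (by positivity)]
              have h6 : L ≤ L ^ 2 := le_self_pow₀ hL1 (by norm_num)
              have h7 : 1 ≤ L ^ U * L ^ U := one_le_mul_of_one_le_of_one_le (hLp1 U) (hLp1 U)
              have h8 : L ^ 2 ≤ L ^ U * L ^ U * L ^ 2 := le_mul_of_one_le_left (hLp 2).le h7
              linarith
          _ = σ := one_mul _
      linarith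
    have hII : 2 ^ i0 ≤ 2 ^ (I + 1) := Nat.pow_le_pow_right (by norm_num) (by omega)
    have hIlt : I + 1 < 2 ^ (I + 1) := Nat.lt_two_pow_self
    filter_upwards [eventually_ge_atTop (2 ^ (I + 1))] with N' hN'
    have b3 : |SJ D (2 ^ (I + 1)) N'| ≤ σ := by
      refine (hn₁ (2 ^ (I + 1)) (by omega) D hsq ?_ N' hN').trans ?_
      · have h1 : (4 * D.natAbs : ℝ) ≤ 4 * (I : ℝ) ^ (M * N) := by
          have h2 : 4 * D.natAbs ≤ 4 * I ^ (M * N) := by
            calc 4 * D.natAbs ≤ 4 * H ^ M := Nat.mul_le_mul_left 4 (hΔ b hb)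
              _ ≤ 4 * (I ^ N) ^ M := Nat.mul_le_mul_left 4 (Nat.pow_le_pow_left hHI M)
              _ = 4 * I ^ (M * N) := by rw [← pow_mul, mul_comm N M]
          exact_mod_cast h2
        have h3 : Real.log ((2 ^ (I + 1) : ℕ) : ℝ) = ((I + 1 : ℕ) : ℝ) * Real.log 2 := by
          push_cast
          rw [Real.log_pow]
          push_cast
          ring
        rw [h3]
        refine h1.trans ?_
        set y : ℝ := ((I + 1 : ℕ) : ℝ) with hy
        have hy4 : 4 ≤ y := by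
          rw [hy]; exact_mod_cast (by omega : 4 ≤ I + 1)
        have hyI : (I : ℝ) ≤ y := by rw [hy]; exact_mod_cast (by omega : I ≤ I + 1)
        have h8 : (0.6 : ℝ) < Real.log 2 := by linarith
        have h4 : y ≤ (y * Real.log 2) ^ 2 := aux3 y _ hy4 h8
        calc 4 * (I : ℝ) ^ (M * N) ≤ y * y ^ (M * N) := by
              apply mul_le_mul hy4 _ (by positivity) (by linarith)
              exact pow_le_pow_left₀ (by positivity) hyI _
          _ = y ^ (M * N + 1) := by ring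
          _ ≤ ((y * Real.log 2) ^ 2) ^ (M * N + 1) := pow_le_pow_left₀ (by linarith) h4 _
          _ = (y * Real.log 2) ^ (2 * (M * N + 1)) := by rw [← pow_mul]
      · have h1 : (I : ℝ) * Real.log 2 ≤ Real.log (((2 ^ (I + 1) : ℕ) : ℝ) - 1) := by
          rw [← Real.log_pow]
          apply Real.log_le_log (by positivity)
          push_cast
          rw [pow_succ]
          have : (1 : ℝ) ≤ 2 ^ I := one_le_pow₀ (by norm_num)
          linarith
        have hI0 : (0 : ℝ) < I := by linarith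
        have h2 : t / 2 ≤ Real.log (((2 ^ (I + 1) : ℕ) : ℝ) - 1) := by
          refine le_trans ?_ h1
          exact aux4 t I _ ht0 htI (by linarith)
        have h3 : 140 / Real.log (((2 ^ (I + 1) : ℕ) : ℝ) - 1) ≤ 140 / (t / 2) :=
          div_le_div_of_nonneg_left (by norm_num) (by positivity) h2
        refine h3.trans ?_
        rw [hσ, div_le_div_iff₀ (by positivity) (by positivity)]
        have := hLp U
        linarith
    rw [SJ_add D z (2 ^ (I + 1)) N' (hzi.trans hII) hN', SJ_add D z (2 ^ i0) (2 ^ (I + 1)) hzi hII]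
    refine (abs_add_le _ _).trans ?_
    have h1 := abs_add_le (SJ D z (2 ^ i0)) (SJ D (2 ^ i0) (2 ^ (I + 1)))
    have h2 : 1 / L ^ U = 8 * σ := by rw [hσ]; field_simp
    linarith

lemma one_sub_ge (y : ℝ) (hy : y ≤ 1 / 2) (hy2 : -1 / 2 ≤ y) : Real.exp (-(y + 2 * y ^ 2)) ≤ 1 - y := by
  have h0 : 0 < 1 + (y + 2 * y ^ 2) := by nlinarith [sq_nonneg y]
  have h1 := Real.add_one_le_exp (y + 2 * y ^ 2)
  have h2 : 1 ≤ (1 - y) * (1 + (y + 2 * y ^ 2)) := by nlinarith [mul_nonneg (sq_nonneg y) (by linarith : 0 ≤ 1 - 2 * y)]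
  have h3 : 0 < 1 - y := by linarith
  rw [Real.exp_neg, inv_le_iff_one_le_mul₀ (Real.exp_pos _)]
  calc 1 ≤ (1 - y) * (1 + (y + 2 * y ^ 2)) := h2
    _ ≤ (1 - y) * Real.exp (y + 2 * y ^ 2) := mul_le_mul_of_nonneg_left (by linarith) h3.le

lemma PJ_ge (D : ℤ) (z N : ℕ) (hz : 2 ≤ z) (hN : z ≤ N) : Real.exp (-(|SJ D z N| + 5 / z)) ≤ PJ D z N := by
  have h1 : ∏ p ∈ (Ioc z N).filter Nat.Prime, Real.exp (-((jacobiSym D p : ℝ) / p) - 5 * (1 / ((p : ℝ) * (p - 1)))) ≤ PJ D z N := by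
    unfold PJ
    apply Finset.prod_le_prod
    · intro p _
      exact (Real.exp_pos _).le
    · intro p hp
      rw [mem_filter, mem_Ioc] at hp
      have hp3 : (3 : ℝ) ≤ p := by exact_mod_cast (by omega : 3 ≤ p)
      have hp1 : (0 : ℝ) < p - 1 := by linarith
      have hp0 : (0 : ℝ) < p := by linarith
      set s : ℝ := (jacobiSym D p : ℝ) with hs
      have hs1 := abs_le.1 (js_abs D p)
      rw [← hs] at hs1
      have hy1 : s / (p - 1) ≤ 1 / 2 := by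
        rw [div_le_div_iff₀ hp1 (by norm_num)]; linarith [hs1.2]
      have hy2 : -1 / 2 ≤ s / (p - 1) := by
        rw [div_le_div_iff₀ (by norm_num) hp1]; linarith [hs1.1]
      refine le_trans (Real.exp_le_exp.2 ?_) (one_sub_ge _ hy1 hy2)
      have h3 : s / (p - 1) = s / p + s * (1 / (p * (p - 1))) := by
        field_simp
        ring
      have h4 : (s / (p - 1)) ^ 2 ≤ 2 * (1 / ((p : ℝ) * (p - 1))) := by
        rw [div_pow]
        have h5 : s ^ 2 ≤ 1 := by nlinarith [hs1.1, hs1.2]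
        calc s ^ 2 / (p - 1) ^ 2 ≤ 1 / (p - 1) ^ 2 := div_le_div_of_nonneg_right h5 (by positivity)
          _ ≤ 2 * (1 / ((p : ℝ) * (p - 1))) := by
              rw [mul_one_div, div_le_div_iff₀ (by positivity) (by positivity)]
              nlinarith
      have h5 : 0 ≤ 1 / ((p : ℝ) * (p - 1)) := by positivity
      have h6 : s * (1 / ((p : ℝ) * (p - 1))) ≤ 1 / ((p : ℝ) * (p - 1)) := by
        have := mul_le_mul_of_nonneg_right hs1.2 h5
        linarith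
      rw [h3] at h4 ⊢
      linarith
  refine le_trans ?_ h1
  rw [← Real.exp_sum]
  apply Real.exp_le_exp.2
  rw [sum_sub_distrib, sum_neg_distrib, ← mul_sum]
  have h5 : ∑ p ∈ (Ioc z N).filter Nat.Prime, 1 / ((p : ℝ) * (p - 1)) ≤ 1 / z := by
    calc ∑ p ∈ (Ioc z N).filter Nat.Prime, 1 / ((p : ℝ) * (p - 1)) ≤ ∑ p ∈ Ioc z N, 1 / ((p : ℝ) * (p - 1)) := by
          apply sum_le_sum_of_subset_of_nonneg (filter_subset _ _)
          intro p hp _
          rw [mem_Ioc] at hp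
          have hp3 : (3 : ℝ) ≤ p := by exact_mod_cast (by omega : 3 ≤ p)
          apply div_nonneg zero_le_one
          apply mul_nonneg <;> linarith
      _ ≤ 1 / (z : ℝ) - 1 / (N : ℝ) := sum_inv_mul z N (by omega) hN
      _ ≤ 1 / (z : ℝ) := by
          have : (0 : ℝ) ≤ 1 / (N : ℝ) := by positivity
          linarith
  have h6 : ∑ p ∈ (Ioc z N).filter Nat.Prime, (jacobiSym D p : ℝ) / p ≤ |SJ D z N| := le_abs_self _
  have h7 : (5 : ℝ) / z = 5 * (1 / z) := by ring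
  rw [h7]
  linarith

end Pool.Agent.L7h18.DG
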