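import Pool.Agent.L7h18.DG.A6
import Pool.Agent.L7h18.DG.A9
import Pool.Agent.L7h18.DG.B2
import Pool.Agent.L7h18.DG.B3
import Pool.Agent.N792.SingT

/-!
The tail of the singular series for almost all constant terms with independent digits.
-/

set_option autoImplicit false

namespace Pool.Agent.L7h18.DG

open Finset Filter Topology
open Pool.Agent.N792 (Vc V1 eps gcdProd partialC Admissible)
open Pool.Agent.N792.SingTail
open Pool.Agent.W468.ConjF (SJ PJ PJ_tendsto)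
open Pool.Agent.Y868.TB (Sol)
open Pool.Agent.R460.SC (sol_lin)

/-- the full constant from a small tail -/
theorem sing_of_tail (a b c : ℤ) (ha : 0 < a) (z : ℕ) (hz : 2 ≤ z) (haz : a ≤ z) (δ ε : ℝ) (hδ : 0 ≤ δ)
    (hε : 2 * (δ + 5 / z) ≤ ε) (hd : δ + 5 / (z : ℝ) ≤ 1 / 2) (hsq : ¬ IsSquare (b ^ 2 - 4 * a * c))
    (hS : ∀ᶠ N in atTop, |SJ (b ^ 2 - 4 * a * c) z N| ≤ δ) (hadm : Admissible a b c) :
    ∃ S : ℝ, 0 < S ∧ Tendsto (fun y => partialC a b c y) atTop (𝓝 S) ∧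
      |eps a b * S * gcdProd a b - Vc a b c z / V1 z| ≤ Vc a b c z / V1 z * ε := by
  obtain ⟨l, hl0, hl⟩ := PJ_tendsto (b ^ 2 - 4 * a * c) hsq z hz
  have hcl : |l - 1| ≤ 2 * (δ + 5 / (z : ℝ)) := by
    have h1 : Tendsto (fun N => |PJ (b ^ 2 - 4 * a * c) z N - 1|) atTop (𝓝 |l - 1|) :=
      ((hl.sub_const 1).abs)
    apply le_of_tendsto h1
    filter_upwards [hS, eventually_ge_atTop z] with N h2 hN
    exact PJ_close hz hN hδ hd h2
  refine ⟨partialC a b c z * l, mul_pos (partialC_pos _ _ _ _) hl0, ?_, ?_⟩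
  · refine (hl.const_mul (partialC a b c z)).congr' ?_
    filter_upwards [eventually_ge_atTop z] with N hN
    rw [partialC_split ha hz haz hN]
  · rw [V_ratio hadm hz haz]
    have h3 : eps a b * (partialC a b c z * l) * gcdProd a b - eps a b * gcdProd a b * partialC a b c z =
        eps a b * gcdProd a b * partialC a b c z * (l - 1) := by ring
    have h4 : 0 ≤ eps a b * gcdProd a b * partialC a b c z :=
      (mul_pos (mul_pos (eps_pos _ _) (gcdProd_pos _ _)) (partialC_pos _ _ _ _)).le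
    rw [h3, abs_mul, abs_of_nonneg h4]
    exact mul_le_mul_of_nonneg_left (hcl.trans hε) h4

lemma le_vari (b : ℕ) (hb : 1 ≤ b) (w : ℕ → ℝ) (d : ℕ) (hd : d < b) : w d ≤ vari b w := by
  obtain ⟨n, rfl⟩ : ∃ n, b = n + 1 := ⟨b - 1, by omega⟩
  have h2 : ∀ d, d ≤ n → w d ≤ |w 0| + ∑ e ∈ range d, |w (e + 1) - w e| := by
    intro d hd
    induction d with
    | zero => simp [le_abs_self]
    | succ d ih =>
      rw [sum_range_succ]
      have h3 := ih (by omega)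
      have h4 := le_abs_self (w (d + 1) - w d)
      linarith
  refine (h2 d (by omega)).trans ?_
  unfold vari
  rw [Nat.add_sub_cancel]
  have h4 : ∑ e ∈ range d, |w (e + 1) - w e| ≤ ∑ e ∈ range n, |w (e + 1) - w e| :=
    sum_le_sum_of_subset_of_nonneg (range_subset_range.2 (by omega)) (fun _ _ _ => abs_nonneg _)
  have := abs_nonneg (w n)
  linarith

/-- every number has a small weight -/
lemma Wt_pow8 (b : ℕ) (hb : 1 ≤ b) (K : ℕ) : ∀ (w : ℕ → ℕ → ℝ), Law b w → (∀ i, (vari b (w i) * b) ^ 8 ≤ b) →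
    ∀ c, Wt b K w c ^ 8 * ((b : ℝ) ^ K) ^ 7 ≤ 1 := by
  have hb0 : (0 : ℝ) < b := by exact_mod_cast hb
  induction K with
  | zero => intro w _ _ c; simp [Wt]
  | succ K ih =>
    intro w hw hV c
    have h1 := ih (fun i => w (i + 1)) (hw.shift 1) (fun i => hV (i + 1)) (c / b)
    have h2 : w 0 (c % b) ^ 8 * (b : ℝ) ^ 7 ≤ 1 := by
      have h3 : w 0 (c % b) ≤ vari b (w 0) := le_vari b hb (w 0) _ (Nat.mod_lt _ hb)
      have h4 := pow_le_pow_left₀ ((hw 0).1 (c % b)) h3 8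
      have h5 : vari b (w 0) ^ 8 * (b : ℝ) ^ 8 ≤ b := by rw [← mul_pow]; exact hV 0
      have h6 : vari b (w 0) ^ 8 * (b : ℝ) ^ 7 ≤ 1 := by
        have h7 : (vari b (w 0) ^ 8 * (b : ℝ) ^ 7) * (b : ℝ) ≤ 1 * (b : ℝ) := by
          calc (vari b (w 0) ^ 8 * (b : ℝ) ^ 7) * (b : ℝ) = vari b (w 0) ^ 8 * (b : ℝ) ^ 8 := by ring
            _ ≤ (b : ℝ) := h5
            _ = 1 * (b : ℝ) := (one_mul _).symm
        exact le_of_mul_le_mul_right h7 hb0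
      exact (mul_le_mul_of_nonneg_right h4 (by positivity)).trans h6
    show (w 0 (c % b) * Wt b K (fun i => w (i + 1)) (c / b)) ^ 8 * ((b : ℝ) ^ (K + 1)) ^ 7 ≤ 1
    have e : (w 0 (c % b) * Wt b K (fun i => w (i + 1)) (c / b)) ^ 8 * ((b : ℝ) ^ (K + 1)) ^ 7 =
        (w 0 (c % b) ^ 8 * (b : ℝ) ^ 7) * (Wt b K (fun i => w (i + 1)) (c / b) ^ 8 * ((b : ℝ) ^ K) ^ 7) := by
      rw [pow_succ]
      ring
    rw [e]
    exact mul_le_one₀ h2 (by positivity) h1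

/-- sets of few numbers have small weight -/
lemma few_weight (b : ℕ) (hb : 2 ≤ b) (K W : ℕ) (hK1 : 1 ≤ K) (hK : K ^ (8 * W) ≤ 2 ^ K) (w : ℕ → ℕ → ℝ) (hw : Law b w)
    (hV : ∀ i, (vari b (w i) * b) ^ 8 ≤ b) (S : Finset ℕ) (hS : (#S : ℝ) ^ 4 ≤ ((b : ℝ) ^ K) ^ 3) :
    ∑ c ∈ S, Wt b K w c ≤ 1 / (K : ℝ) ^ W := by
  have hb0 : (0 : ℝ) < b := by exact_mod_cast (by omega : 0 < b)
  have hX : (0 : ℝ) < (b : ℝ) ^ K := by positivity
  have hK0 : (0 : ℝ) < K := by exact_mod_cast hK1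
  obtain ⟨m, hm⟩ : ∃ m : ℝ, m = ∑ c ∈ S, Wt b K w c := ⟨_, rfl⟩
  have hm0 : 0 ≤ m := by rw [hm]; exact sum_nonneg fun c _ => Wt_nonneg K hw c
  rw [← hm]
  rcases S.eq_empty_or_nonempty with h0 | h0
  · rw [hm, h0, sum_empty]; positivity
  obtain ⟨c0, hc0, hmax⟩ := exists_max_image S (fun c => Wt b K w c) h0
  have h1 : m ≤ #S * Wt b K w c0 := by
    rw [hm, ← nsmul_eq_mul, ← sum_const]
    exact sum_le_sum fun c hc => hmax c hc
  have h2 : m ^ 8 * (b : ℝ) ^ K ≤ 1 := by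
    calc m ^ 8 * (b : ℝ) ^ K ≤ (#S * Wt b K w c0) ^ 8 * (b : ℝ) ^ K :=
          mul_le_mul_of_nonneg_right (pow_le_pow_left₀ hm0 h1 8) hX.le
      _ = ((#S : ℝ) ^ 4) ^ 2 * (Wt b K w c0 ^ 8 * (b : ℝ) ^ K) := by ring
      _ ≤ (((b : ℝ) ^ K) ^ 3) ^ 2 * (Wt b K w c0 ^ 8 * (b : ℝ) ^ K) := by
          apply mul_le_mul_of_nonneg_right (pow_le_pow_left₀ (by positivity) hS 2)
          exact mul_nonneg (pow_nonneg (Wt_nonneg K hw c0) 8) hX.le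
      _ = Wt b K w c0 ^ 8 * ((b : ℝ) ^ K) ^ 7 := by ring
      _ ≤ 1 := Wt_pow8 b (by omega) K w hw hV c0
  have h3 : ((K : ℝ) ^ W) ^ 8 ≤ (b : ℝ) ^ K := by
    calc ((K : ℝ) ^ W) ^ 8 = (K : ℝ) ^ (8 * W) := by rw [← pow_mul]; congr 1; ring
      _ ≤ 2 ^ K := by exact_mod_cast hK
      _ ≤ (b : ℝ) ^ K := pow_le_pow_left₀ (by norm_num) (by exact_mod_cast hb) _
  rw [le_div_iff₀ (by positivity)]
  have h4 : (m * (K : ℝ) ^ W) ^ 8 ≤ 1 ^ 8 := by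
    rw [mul_pow, one_pow]
    exact (mul_le_mul_of_nonneg_left h3 (by positivity)).trans h2
  exact le_of_pow_le_pow_left₀ (by norm_num) zero_le_one h4

/-- **the tail for almost all `c`** -/
theorem tail_digits (A U : ℕ) : ∃ E0 : ℕ, ∀ E : ℕ, E0 ≤ E → ∀ b : ℕ, 2 ≤ b → ∃ K0 : ℕ, ∀ K : ℕ, K0 ≤ K →
    ∀ w : ℕ → ℕ → ℝ, Good b 4 w → (∀ i, (vari b (w i) * b) ^ 8 ≤ b) → ∀ c₁ : ℤ, |c₁| ≤ (K : ℤ) ^ A * (b : ℤ) ^ K →
    ∃ Ex : Finset ℕ, Ex ⊆ range (b ^ K) ∧ ∑ c ∈ Ex, Wt b K w c ≤ 1 / (K : ℝ) ^ U ∧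
    ∀ c < b ^ K, c ∉ Ex → ∀ α β γ : ℤ, 0 < α → α ≤ (K : ℤ) ^ A → |β| ≤ (K : ℤ) ^ A → |γ| ≤ (K : ℤ) ^ A →
      Admissible α β (c₁ + γ + c) →
      ∃ S : ℝ, 0 < S ∧ Tendsto (fun y => partialC α β (c₁ + γ + c) y) atTop (𝓝 S) ∧
        |eps α β * S * gcdProd α β - Vc α β (c₁ + γ + c) (K ^ E) / V1 (K ^ E)| ≤
          Vc α β (c₁ + γ + c) (K ^ E) / V1 (K ^ E) / (K : ℝ) ^ U := by
  classical
  obtain ⟨W, hW⟩ : ∃ W, W = 3 * A + 2 + U + 2 := ⟨_, rfl⟩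
  obtain ⟨U', hU'⟩ : ∃ U', U' = 2 * U + 2 := ⟨_, rfl⟩
  obtain ⟨G, hG⟩ : ∃ G, G = 4 * U' + 6 + W := ⟨_, rfl⟩
  refine ⟨2 * G + 2 * (3 * U' + 3) + A + U + 4, fun E hE b hb => ?_⟩
  obtain ⟨H0, hH0⟩ := tail_split U' (2 * E) 2 (by norm_num)
  obtain ⟨K1, hK1⟩ := evt_two (8 * W)
  obtain ⟨K2, hK2⟩ := evt_two (6 * A + 8)
  refine ⟨max (max K1 K2) (H0 + b + 64), fun K hK w hw hV c₁ hc₁ => ?_⟩
  have g1 : K1 ≤ K := le_trans (le_trans (le_max_left _ _) (le_max_left _ _)) hK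
  have g2 : K2 ≤ K := le_trans (le_trans (le_max_right _ _) (le_max_left _ _)) hK
  have g3 : H0 + b + 64 ≤ K := (le_max_right _ _).trans hK
  obtain ⟨hlaw, h, B, hh, hc, hB0, hB, hB4⟩ := hw
  have hK64 : 64 ≤ K := by omega
  have hKr : (64 : ℝ) ≤ K := by exact_mod_cast hK64
  have hK0 : (0 : ℝ) < K := by linarith
  have hKp : ∀ n : ℕ, (0 : ℝ) < (K : ℝ) ^ n := fun n => by positivity
  have hK1' : (1 : ℝ) ≤ K := by linarith
  have hKp1 : ∀ n : ℕ, (1 : ℝ) ≤ (K : ℝ) ^ n := fun n => one_le_pow₀ hK1'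
  have hbr : (2 : ℝ) ≤ b := by exact_mod_cast hb
  have hbK : (b : ℝ) ≤ K := by exact_mod_cast (by omega : b ≤ K)
  have hb0 : (0 : ℝ) < b := by linarith
  have hWt : ∀ c, 0 ≤ Wt b K w c := fun c => Wt_nonneg K hlaw c
  obtain ⟨H, hH⟩ : ∃ H, H = b ^ K := ⟨_, rfl⟩
  have hHr : (H : ℝ) = (b : ℝ) ^ K := by rw [hH]; push_cast; rfl
  have h2K : 2 ^ K ≤ H := by rw [hH]; exact Nat.pow_le_pow_left hb K
  have hKH : K < H := lt_of_lt_of_le Nat.lt_two_pow_self h2K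
  have hH1 : 1 ≤ H := by omega
  have hHr0 : (0 : ℝ) < H := by exact_mod_cast hH1
  have hHr1 : (1 : ℝ) ≤ H := by exact_mod_cast hH1
  obtain ⟨L, hL⟩ : ∃ L, L = Real.log H := ⟨_, rfl⟩
  have hLe : L = K * Real.log b := by rw [hL, hHr, Real.log_pow]
  have hlogb1 : 1 / 2 ≤ Real.log b := by
    have h1 := Real.log_le_log (by norm_num) hbr
    have := Real.log_two_gt_d9
    linarith
  have hlogb2 : Real.log b ≤ K := by
    have h1 := Real.log_le_sub_one_of_pos hb0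
    linarith
  have hL1 : (K : ℝ) / 2 ≤ L := by rw [hLe]; nlinarith
  have hL2 : L ≤ (K : ℝ) ^ 2 := by rw [hLe, sq]; exact mul_le_mul_of_nonneg_left hlogb2 hK0.le
  have hL0 : 0 < L := by linarith
  obtain ⟨z, hz⟩ : ∃ z, z = K ^ E := ⟨_, rfl⟩
  have hzr : (z : ℝ) = (K : ℝ) ^ E := by rw [hz]; push_cast; rfl
  have hKsq : (K : ℝ) ≤ (K : ℝ) ^ 2 / 4 := by nlinarith
  obtain ⟨i0, hi0, hsplit⟩ := hH0 H (by omega) z (by
      rw [← hL, hzr]
      calc L ^ (3 * U' + 3) ≤ ((K : ℝ) ^ 2) ^ (3 * U' + 3) := pow_le_pow_left₀ hL0.le hL2 _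
        _ = (K : ℝ) ^ (2 * (3 * U' + 3)) := by rw [← pow_mul]
        _ ≤ (K : ℝ) ^ E := pow_le_pow_right₀ hK1' (by omega)) (by
      rw [← hL, hzr]
      calc (K : ℝ) ^ E ≤ ((K : ℝ) ^ 2 / 4) ^ E := pow_le_pow_left₀ hK0.le hKsq _
        _ = ((K : ℝ) / 2) ^ (2 * E) := by rw [pow_mul]; congr 1; ring
        _ ≤ L ^ (2 * E) := pow_le_pow_left₀ (by positivity) hL1 _)
  rw [← hL] at hsplit
  -- `z` is large
  have hzA : K ^ (A + 1) ≤ z := by rw [hz]; exact Nat.pow_le_pow_right (by omega) (by omega)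
  have hKA1 : 1 ≤ K ^ A := Nat.one_le_pow _ _ (by omega)
  have hzbig : 4 * K ^ A < z := by
    have : K ^ (A + 1) = K ^ A * K := pow_succ _ _
    nlinarith
  have hz2 : 2 ≤ z := by omega
  have hz0 : (0 : ℝ) < z := by exact_mod_cast (by omega : 0 < z)
  -- one triple
  have hone : ∀ α β γ : ℤ, 0 < α → α ≤ (K : ℤ) ^ A → |β| ≤ (K : ℤ) ^ A → |γ| ≤ (K : ℤ) ^ A →
      ∃ Ex : Finset ℕ, Ex ⊆ range (b ^ K) ∧ ∑ c ∈ Ex, Wt b K w c ≤ 3 / (K : ℝ) ^ W ∧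
      ∀ c < b ^ K, c ∉ Ex → ¬ IsSquare (β ^ 2 - 4 * α * (c₁ + γ + c)) ∧
        ∀ᶠ N in atTop, |SJ (β ^ 2 - 4 * α * (c₁ + γ + c)) z N| ≤ 1 / L ^ U' := by
    intro α β γ hα hαK hβ hγ
    obtain ⟨P0, hP0⟩ : ∃ P0 : Finset ℕ, P0 = (Ioc z (2 ^ i0)).filter Nat.Prime := ⟨_, rfl⟩
    obtain ⟨a', ha'⟩ : ∃ a' : ℤ, a' = β ^ 2 - 4 * α * (c₁ + γ) := ⟨_, rfl⟩
    obtain ⟨b', hb'⟩ : ∃ b' : ℤ, b' = -(4 * α) := ⟨_, rfl⟩
    have hval : ∀ k : ℤ, a' + b' * k = β ^ 2 - 4 * α * (c₁ + γ + k) := by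
      intro k
      rw [ha', hb']; ring
    have hb'0 : b' ≠ 0 := by rw [hb']; omega
    have hndvd : ∀ p ∈ P0, p.Prime ∧ p ≠ 2 ∧ z < p ∧ p ≤ 2 ^ i0 ∧ ¬ (p : ℤ) ∣ b' := by
      intro p hp
      rw [hP0, mem_filter, mem_Ioc] at hp
      obtain ⟨⟨h1, h2⟩, h3⟩ := hp
      refine ⟨h3, by omega, h1, h2, ?_⟩
      rw [hb', dvd_neg]
      intro h4
      have h5 := Int.le_of_dvd (by omega) h4
      have h6 : (4 * K ^ A : ℤ) < p := by
        have : 4 * K ^ A < p := by omega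
        exact_mod_cast this
      linarith
    obtain ⟨τ, hτ⟩ : ∃ τ : ℝ, τ = 1 / (4 * L ^ U') := ⟨_, rfl⟩
    have hτ0 : 0 < τ := by rw [hτ]; positivity
    obtain ⟨E1, hE1⟩ : ∃ E1 : Finset ℕ, E1 = (range (b ^ K)).filter
      (fun c : ℕ => τ < |∑ p ∈ P0, (jacobiSym (a' + b' * c) p : ℝ) / p|) := ⟨_, rfl⟩
    have hE1w : ∑ c ∈ E1, Wt b K w c ≤ 1 / (K : ℝ) ^ W := by
      have h1 := js_few b K hb w h hlaw hh hc B hB0 hB hB4 P0 z (2 ^ i0) (by omega) (by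
        rw [← hH]
        calc (2 ^ i0) ^ 2 ≤ (2 ^ i0) ^ 3 := Nat.pow_le_pow_right (Nat.pow_pos (by norm_num)) (by norm_num)
          _ ≤ H := hi0) a' b' hndvd τ hτ0
      rw [← hE1] at h1
      refine h1.trans ?_
      have hs1 : √((b : ℝ) / z) ≤ 1 / (K : ℝ) ^ G := by
        apply Real.sqrt_le_iff.2
        refine ⟨by positivity, ?_⟩
        rw [hzr, div_pow, one_pow, ← pow_mul, div_le_div_iff₀ (hKp _) (hKp _), one_mul]
        calc (b : ℝ) * (K : ℝ) ^ (G * 2) ≤ K * (K : ℝ) ^ (G * 2) := mul_le_mul_of_nonneg_right hbK (hKp _).le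
          _ = (K : ℝ) ^ (G * 2 + 1) := by rw [pow_succ]; ring
          _ ≤ (K : ℝ) ^ E := pow_le_pow_right₀ hK1' (by omega)
      have hs2 : 1 / (z : ℝ) ≤ 1 / (K : ℝ) ^ G := by
        rw [hzr]
        apply one_div_le_one_div_of_le (hKp _)
        exact pow_le_pow_right₀ hK1' (by omega)
      have hs3 : 1 + Real.log ((2 ^ i0 : ℕ) : ℝ) ≤ 2 * (K : ℝ) ^ 2 := by
        have h3 : Real.log ((2 ^ i0 : ℕ) : ℝ) ≤ L := by
          rw [hL]
          apply Real.log_le_log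
          · exact_mod_cast Nat.pow_pos (by norm_num)
          · have h4 : 2 ^ i0 ≤ H := by
              calc 2 ^ i0 ≤ (2 ^ i0) ^ 3 := Nat.le_self_pow (by norm_num) _
                _ ≤ H := hi0
            exact_mod_cast h4
        have h4 : (1 : ℝ) ≤ (K : ℝ) ^ 2 := hKp1 2
        linarith
      have hs3' : 0 ≤ 1 + Real.log ((2 ^ i0 : ℕ) : ℝ) := by
        have : 0 ≤ Real.log ((2 ^ i0 : ℕ) : ℝ) := Real.log_natCast_nonneg _
        linarith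
      have hs4 : 1 / τ ^ 2 ≤ 16 * (K : ℝ) ^ (4 * U') := by
        have h3 : 1 / τ ^ 2 = 16 * (L ^ U') ^ 2 := by
          rw [hτ]
          field_simp
          norm_num
        rw [h3]
        have h4 : (L ^ U') ^ 2 ≤ (K : ℝ) ^ (4 * U') := by
          calc (L ^ U') ^ 2 = L ^ (2 * U') := by rw [← pow_mul]; congr 1; ring
            _ ≤ ((K : ℝ) ^ 2) ^ (2 * U') := pow_le_pow_left₀ hL0.le hL2 _
            _ = (K : ℝ) ^ (4 * U') := by rw [← pow_mul]; congr 1; ring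
        linarith
      calc (1 / (z : ℝ) + √((b : ℝ) / z) * (1 + Real.log ((2 ^ i0 : ℕ) : ℝ)) ^ 2) / τ ^ 2
          = (1 / (z : ℝ) + √((b : ℝ) / z) * (1 + Real.log ((2 ^ i0 : ℕ) : ℝ)) ^ 2) * (1 / τ ^ 2) := by rw [mul_one_div]
        _ ≤ (1 / (K : ℝ) ^ G + 1 / (K : ℝ) ^ G * (2 * (K : ℝ) ^ 2) ^ 2) * (16 * (K : ℝ) ^ (4 * U')) := by gcongr
        _ ≤ (5 * (K : ℝ) ^ 4 * (1 / (K : ℝ) ^ G)) * (16 * (K : ℝ) ^ (4 * U')) := by
            apply mul_le_mul_of_nonneg_right _ (by positivity)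
            have h3 : (1 : ℝ) ≤ (K : ℝ) ^ 4 := hKp1 4
            have h4 : 0 < 1 / (K : ℝ) ^ G := by positivity
            have h5 : 1 / (K : ℝ) ^ G * 1 ≤ 1 / (K : ℝ) ^ G * (K : ℝ) ^ 4 := mul_le_mul_of_nonneg_left h3 h4.le
            have h6 : 1 / (K : ℝ) ^ G * (2 * (K : ℝ) ^ 2) ^ 2 = 4 * (1 / (K : ℝ) ^ G * (K : ℝ) ^ 4) := by ring
            rw [h6]
            linarith
        _ = 80 / K ^ 2 * (1 / (K : ℝ) ^ W) := by
            have e1 : (K : ℝ) ^ G = (K : ℝ) ^ (4 * U') * (K : ℝ) ^ 4 * (K : ℝ) ^ 2 * (K : ℝ) ^ W := by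
              rw [hG]; ring
            rw [e1]
            have := (hKp (4 * U')).ne'
            have := (hKp W).ne'
            field_simp
            norm_num
        _ ≤ 1 * (1 / (K : ℝ) ^ W) := by
            apply mul_le_mul_of_nonneg_right _ (by positivity)
            rw [div_le_one (by positivity)]
            nlinarith
        _ = _ := one_mul _
    -- the second set
    have hbd : ∀ k ∈ Icc 1 H, (a' + b' * (k : ℤ)).natAbs ≤ K ^ (2 * A + 2) * H := by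
      intro k hk
      rw [mem_Icc] at hk
      rw [hval]
      have h5 : (k : ℤ) ≤ H := by exact_mod_cast hk.2
      have h6 : (1 : ℤ) ≤ k := by exact_mod_cast hk.1
      have h7 : |β ^ 2 - 4 * α * (c₁ + γ + k)| ≤ ((K ^ (2 * A + 2) * H : ℕ) : ℤ) := by
        obtain ⟨k', hk'⟩ : ∃ k' : ℤ, k' = (K : ℤ) ^ A := ⟨_, rfl⟩
        obtain ⟨H', hH'⟩ : ∃ H' : ℤ, H' = (H : ℤ) := ⟨_, rfl⟩
        have hHb : (b : ℤ) ^ K = H' := by rw [hH', hH]; push_cast; rfl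
        rw [← hk'] at hαK hβ hγ hc₁
        rw [hHb] at hc₁
        have hk1 : 1 ≤ k' := by rw [hk']; exact_mod_cast hKA1
        have hH'1 : 1 ≤ H' := by rw [hH']; exact_mod_cast hH1
        rw [← hH'] at h5
        have e1 : ((K ^ (2 * A + 2) * H : ℕ) : ℤ) = k' ^ 2 * (K : ℤ) ^ 2 * H' := by
          rw [hk', hH']; push_cast; ring
        have h8 : |c₁ + γ + (k : ℤ)| ≤ 3 * (k' * H') := by
          have h9 := abs_add_le (c₁ + γ) (k : ℤ)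
          have h10 := abs_add_le c₁ γ
          have h11 : |(k : ℤ)| = k := abs_of_nonneg (by omega)
          have h12 : k' ≤ k' * H' := le_mul_of_one_le_right (by omega) hH'1
          have h13 : H' ≤ k' * H' := le_mul_of_one_le_left (by omega) hk1
          linarith
        have h9 : |β ^ 2 - 4 * α * (c₁ + γ + k)| ≤ |β ^ 2| + |4 * α * (c₁ + γ + k)| := abs_sub _ _
        have h10 : |β ^ 2| ≤ k' ^ 2 * H' := by
          rw [abs_pow]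
          calc |β| ^ 2 ≤ k' ^ 2 := pow_le_pow_left₀ (abs_nonneg _) hβ 2
            _ ≤ k' ^ 2 * H' := le_mul_of_one_le_right (by positivity) hH'1
        have h11 : |4 * α * (c₁ + γ + k)| ≤ 4 * k' * (3 * (k' * H')) := by
          rw [abs_mul, abs_of_pos (by omega : 0 < 4 * α)]
          apply mul_le_mul _ h8 (abs_nonneg _) (by omega)
          omega
        rw [e1]
        have h12 : (64 : ℤ) ≤ K := by exact_mod_cast hK64
        have h13 : (64 : ℤ) ≤ (K : ℤ) ^ 2 := by nlinarith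
        calc |β ^ 2 - 4 * α * (c₁ + γ + k)| ≤ k' ^ 2 * H' + 4 * k' * (3 * (k' * H')) := by linarith
          _ = 13 * (k' ^ 2 * H') := by ring
          _ ≤ (K : ℤ) ^ 2 * (k' ^ 2 * H') := mul_le_mul_of_nonneg_right (by omega) (by positivity)
          _ = _ := by ring
      rw [Int.abs_eq_natAbs] at h7
      exact_mod_cast h7
    have hKbig : 64 * (K ^ (2 * A + 2)) ^ 3 ≤ H := by
      calc 64 * (K ^ (2 * A + 2)) ^ 3 ≤ K * (K ^ (2 * A + 2)) ^ 3 := Nat.mul_le_mul_right _ hK64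
        _ = K ^ (6 * A + 7) := by rw [← pow_mul]; ring
        _ ≤ K ^ (6 * A + 8) := Nat.pow_le_pow_right (by omega) (by omega)
        _ ≤ 2 ^ K := hK2 K g2
        _ ≤ H := h2K
    have hKbig1 : K ^ (2 * A + 2) ≤ H := by
      have h1 : 1 ≤ K ^ (2 * A + 2) := Nat.one_le_pow _ _ (by omega)
      have h2 : K ^ (2 * A + 2) ≤ (K ^ (2 * A + 2)) ^ 3 := Nat.le_self_pow (by norm_num) _
      omega
    obtain ⟨Ws, hWs⟩ : ∃ Ws : ℝ, Ws = ((Nat.sqrt (K ^ (2 * A + 2) * H) + 1 : ℕ) : ℝ) := ⟨_, rfl⟩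
    have hWs0 : 0 ≤ Ws := by rw [hWs]; positivity
    have hWs3 : Ws ^ 3 ≤ (H : ℝ) ^ 2 := by
      obtain ⟨k2, hk2⟩ : ∃ k2 : ℝ, k2 = (K : ℝ) ^ (2 * A + 2) := ⟨_, rfl⟩
      have hk21 : 1 ≤ k2 := by rw [hk2]; exact hKp1 _
      have hs : ((Nat.sqrt (K ^ (2 * A + 2) * H) : ℕ) : ℝ) ^ 2 ≤ k2 * H := by
        rw [hk2]
        exact_mod_cast Nat.sqrt_le' (K ^ (2 * A + 2) * H)
      have hWs2 : Ws ^ 2 ≤ 4 * (k2 * H) := by
        rw [hWs]
        push_cast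
        have h5 : (1 : ℝ) ≤ k2 * H := one_le_mul_of_one_le_of_one_le hk21 hHr1
        nlinarith [sq_nonneg (((Nat.sqrt (K ^ (2 * A + 2) * H) : ℕ) : ℝ) - 1)]
      have h64 : 64 * k2 ^ 3 ≤ H := by rw [hk2]; exact_mod_cast hKbig
      have h6 : (Ws ^ 3) ^ 2 ≤ ((H : ℝ) ^ 2) ^ 2 := by
        calc (Ws ^ 3) ^ 2 = (Ws ^ 2) ^ 3 := by ring
          _ ≤ (4 * (k2 * (H : ℝ))) ^ 3 := pow_le_pow_left₀ (by positivity) hWs2 3
          _ = (64 * k2 ^ 3) * (H : ℝ) ^ 3 := by ring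
          _ ≤ (H : ℝ) * (H : ℝ) ^ 3 := mul_le_mul_of_nonneg_right h64 (by positivity)
          _ = ((H : ℝ) ^ 2) ^ 2 := by ring
      exact le_of_pow_le_pow_left₀ (by norm_num) (by positivity) h6
    obtain ⟨E2, hE2a, hE2b⟩ := hsplit (fun k : ℕ => a' + b' * (k : ℤ)) (fun k hk => (hbd k hk).trans (by
      rw [sq]
      exact Nat.mul_le_mul_right _ hKbig1)) Ws hWs0 (fun d => by
        rw [hWs]
        exact_mod_cast sol_lin a' b' hb'0 H (K ^ (2 * A + 2) * H) hbd d) hWs3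
    have hE2w : ∑ c ∈ E2, Wt b K w c ≤ 1 / (K : ℝ) ^ W :=
      few_weight b hb K W (by omega) (hK1 K g1) w hlaw hV E2 (by rw [← hHr]; exact hE2a)
    have hE0w : ∑ c ∈ ({0} : Finset ℕ), Wt b K w c ≤ 1 / (K : ℝ) ^ W :=
      few_weight b hb K W (by omega) (hK1 K g1) w hlaw hV {0} (by
        rw [card_singleton, Nat.cast_one, one_pow, ← hHr]
        exact one_le_pow₀ hHr1)
    refine ⟨(E1 ∪ (E2 ∪ {0})) ∩ range (b ^ K), inter_subset_right, ?_, ?_⟩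
    · have h1 : ∑ c ∈ (E1 ∪ (E2 ∪ {0})) ∩ range (b ^ K), Wt b K w c ≤ ∑ c ∈ E1 ∪ (E2 ∪ {0}), Wt b K w c :=
        sum_le_sum_of_subset_of_nonneg inter_subset_left (fun c _ _ => hWt c)
      have h2 := sum_union_le b K w hlaw E1 (E2 ∪ {0})
      have h3 := sum_union_le b K w hlaw E2 {0}
      have h4 : 3 / (K : ℝ) ^ W = 1 / (K : ℝ) ^ W + (1 / (K : ℝ) ^ W + 1 / (K : ℝ) ^ W) := by ring
      rw [h4]
      linarith
    · intro c hcb hcE
      rw [mem_inter, mem_range] at hcE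
      have hcE' : c ∉ E1 ∪ (E2 ∪ {0}) := fun h' => hcE ⟨h', hcb⟩
      rw [mem_union, mem_union, mem_singleton, not_or, not_or] at hcE'
      obtain ⟨q1, q2, q3⟩ := hcE'
      have hcI : c ∈ Icc 1 H := by rw [mem_Icc, hH]; omega
      have h1 := hE2b c hcI q2 (by
        rw [hE1, mem_filter, not_and] at q1
        have h2 := q1 (mem_range.2 hcb)
        rw [not_lt, hP0, hτ] at h2
        exact h2)
      simp only [hval] at h1
      exact h1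
  -- all triples
  obtain ⟨I, hI⟩ : ∃ I : Finset (ℤ × (ℤ × ℤ)), I = (Icc 1 ((K : ℤ) ^ A)) ×ˢ
    ((Icc (-((K : ℤ) ^ A)) ((K : ℤ) ^ A)) ×ˢ (Icc (-((K : ℤ) ^ A)) ((K : ℤ) ^ A))) := ⟨_, rfl⟩
  have hIp : ∀ i ∈ I, 0 < i.1 ∧ i.1 ≤ (K : ℤ) ^ A ∧ |i.2.1| ≤ (K : ℤ) ^ A ∧ |i.2.2| ≤ (K : ℤ) ^ A := by
    intro i hi
    rw [hI, mem_product, mem_product, mem_Icc, mem_Icc, mem_Icc] at hi
    exact ⟨by omega, hi.1.2, abs_le.2 hi.2.1, abs_le.2 hi.2.2⟩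
  have hIc : (#I : ℝ) ≤ (K : ℝ) ^ (3 * A + 2) := by
    have h1 : #I = K ^ A * ((2 * K ^ A + 1) * (2 * K ^ A + 1)) := by
      rw [hI, card_product, card_product]
      simp only [Int.card_Icc]
      have h2 : (K : ℤ) ^ A = ((K ^ A : ℕ) : ℤ) := by push_cast; rfl
      rw [h2]
      congr 1
      · omega
      · congr 1 <;> omega
    have h4 : 2 * K ^ A + 1 ≤ K ^ (A + 1) := by
      rw [pow_succ]
      nlinarith
    have h2 : #I ≤ K ^ (3 * A + 2) := by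
      rw [h1]
      calc K ^ A * ((2 * K ^ A + 1) * (2 * K ^ A + 1)) ≤ K ^ A * (K ^ (A + 1) * K ^ (A + 1)) := by gcongr
        _ = K ^ (3 * A + 2) := by rw [← pow_add, ← pow_add]; congr 1; ring
    exact_mod_cast h2
  have hch : ∀ i : ℤ × (ℤ × ℤ), ∃ Ex : Finset ℕ, Ex ⊆ range (b ^ K) ∧ (i ∈ I → ∑ c ∈ Ex, Wt b K w c ≤ 3 / (K : ℝ) ^ W ∧
      ∀ c < b ^ K, c ∉ Ex → ¬ IsSquare (i.2.1 ^ 2 - 4 * i.1 * (c₁ + i.2.2 + c)) ∧
        ∀ᶠ N in atTop, |SJ (i.2.1 ^ 2 - 4 * i.1 * (c₁ + i.2.2 + c)) z N| ≤ 1 / L ^ U') := by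
    intro i
    by_cases hi : i ∈ I
    · obtain ⟨p1, p2, p3, p4⟩ := hIp i hi
      obtain ⟨Ex, q1, q2, q3⟩ := hone i.1 i.2.1 i.2.2 p1 p2 p3 p4
      exact ⟨Ex, q1, fun _ => ⟨q2, q3⟩⟩
    · exact ⟨∅, empty_subset _, fun h' => absurd h' hi⟩
  choose Ex hEx1 hEx2 using hch
  refine ⟨I.biUnion Ex, biUnion_subset.2 fun i _ => hEx1 i, ?_, ?_⟩
  · calc ∑ c ∈ I.biUnion Ex, Wt b K w c ≤ ∑ i ∈ I, ∑ c ∈ Ex i, Wt b K w c :=
          sum_biUnion_le_sum_of_nonneg' b K w hWt I Ex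
      _ ≤ ∑ _i ∈ I, 3 / (K : ℝ) ^ W := sum_le_sum fun i hi => (hEx2 i hi).1
      _ = #I * (3 / (K : ℝ) ^ W) := by rw [sum_const, nsmul_eq_mul]
      _ ≤ (K : ℝ) ^ (3 * A + 2) * (3 / (K : ℝ) ^ W) := mul_le_mul_of_nonneg_right hIc (by positivity)
      _ = 3 / K ^ 2 * (1 / (K : ℝ) ^ U) := by
          have e1 : (K : ℝ) ^ W = (K : ℝ) ^ (3 * A + 2) * (K : ℝ) ^ U * (K : ℝ) ^ 2 := by rw [hW]; ring
          rw [e1]
          have := (hKp (3 * A + 2)).ne'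
          have := (hKp U).ne'
          field_simp
      _ ≤ 1 * (1 / (K : ℝ) ^ U) := by
          apply mul_le_mul_of_nonneg_right _ (by positivity)
          rw [div_le_one (by positivity)]
          nlinarith
      _ = _ := one_mul _
  · intro c hcb hcE α β γ hα hαK hβ hγ hadm
    have hmem : (α, (β, γ)) ∈ I := by
      rw [hI, mem_product, mem_product, mem_Icc, mem_Icc, mem_Icc]
      exact ⟨⟨by omega, hαK⟩, abs_le.1 hβ, abs_le.1 hγ⟩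
    have hcE' : c ∉ Ex (α, (β, γ)) := fun h' => hcE (mem_biUnion.2 ⟨_, hmem, h'⟩)
    obtain ⟨f1, f2⟩ := (hEx2 (α, (β, γ)) hmem).2 c hcb hcE'
    simp only at f1 f2
    have haz : α ≤ z := by
      have : (K ^ A : ℕ) ≤ z := by omega
      have h2 : ((K ^ A : ℕ) : ℤ) ≤ (z : ℤ) := by exact_mod_cast this
      push_cast at h2
      linarith
    have hLU : 8 * (K : ℝ) ^ U ≤ L ^ U' := by
      calc 8 * (K : ℝ) ^ U ≤ K * (K : ℝ) ^ U := mul_le_mul_of_nonneg_right (by linarith) (hKp _).le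
        _ = (K : ℝ) ^ (U + 1) := by ring
        _ ≤ ((K : ℝ) ^ 2 / 4) ^ (U + 1) := pow_le_pow_left₀ hK0.le hKsq _
        _ = ((K : ℝ) / 2) ^ U' := by rw [hU', show 2 * U + 2 = 2 * (U + 1) by ring, pow_mul]; congr 1; ring
        _ ≤ L ^ U' := pow_le_pow_left₀ (by positivity) hL1 _
    have hδ : 1 / L ^ U' ≤ 1 / (8 * (K : ℝ) ^ U) := one_div_le_one_div_of_le (by positivity) hLU
    have h5z : 5 / (z : ℝ) ≤ 1 / (8 * (K : ℝ) ^ U) := by
      rw [div_le_div_iff₀ hz0 (by positivity), hzr, one_mul]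
      calc 5 * (8 * (K : ℝ) ^ U) = 40 * (K : ℝ) ^ U := by ring
        _ ≤ K * (K : ℝ) ^ U := mul_le_mul_of_nonneg_right (by linarith) (hKp _).le
        _ = (K : ℝ) ^ (U + 1) := by ring
        _ ≤ (K : ℝ) ^ E := pow_le_pow_right₀ hK1' (by omega)
    have hsum : 1 / (8 * (K : ℝ) ^ U) + 5 / (z : ℝ) ≤ 1 / (4 * (K : ℝ) ^ U) := by
      have e1 : 1 / (4 * (K : ℝ) ^ U) = 1 / (8 * (K : ℝ) ^ U) + 1 / (8 * (K : ℝ) ^ U) := by
        have := (hKp U).ne'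
        field_simp
        norm_num
      linarith
    have hq4 : 1 / (4 * (K : ℝ) ^ U) ≤ 1 / 4 := by
      have := hKp1 U
      exact one_div_le_one_div_of_le (by norm_num) (by linarith)
    have hfin : 2 * (1 / (8 * (K : ℝ) ^ U) + 5 / (z : ℝ)) ≤ 1 / (K : ℝ) ^ U := by
      have e1 : 1 / (K : ℝ) ^ U = 4 * (1 / (4 * (K : ℝ) ^ U)) := by
        have := (hKp U).ne'
        field_simp
      have e2 : 0 < 1 / (4 * (K : ℝ) ^ U) := by positivity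
      linarith
    have key := sing_of_tail α β (c₁ + γ + c) hα z hz2 haz (1 / (8 * (K : ℝ) ^ U)) (1 / (K : ℝ) ^ U) (by positivity) hfin
      (by linarith) f1 (by
        filter_upwards [f2] with N hN
        exact hN.trans hδ) hadm
    rw [← hz]
    obtain ⟨S, s1, s2, s3⟩ := key
    refine ⟨S, s1, s2, ?_⟩
    rw [← mul_one_div (_ / _)]
    exact s3

end Pool.Agent.L7h18.DG
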