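import Pool.Agent.L7h18.DG.B5
import Pool.Agent.L7h18.DG.A8

/-!
The primes in windows: the monotone parts of a polynomial.
-/

set_option autoImplicit false

namespace Pool.Agent.L7h18.DG

open Finset Polynomial
open Pool.Agent.TH204.WR (Gap gap_mono vN hh rho one_win ff_eq hh_nonneg rho_neg)
open Pool.Agent.TH892.SW (ff ffn wt wt_nonneg wt_le)
open Pool.Agent.H373R2.T7 (pz Vz lamz mem_pz Vz_ge)

lemma pow_diff_le (n : ℤ) (hn : 0 ≤ n) (i : ℕ) : n * ((n + 1) ^ i - n ^ i) ≤ i * (n + 1) ^ i := by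
  induction i with
  | zero => simp
  | succ i ih =>
    have h1 : n * ((n + 1) ^ (i + 1) - n ^ (i + 1)) = (n + 1) * (n * ((n + 1) ^ i - n ^ i)) + n ^ (i + 1) := by ring
    have h2 : n ^ (i + 1) ≤ (n + 1) ^ (i + 1) := pow_le_pow_left₀ hn (by omega) _
    have h3 := mul_le_mul_of_nonneg_left ih (by omega : 0 ≤ n + 1)
    rw [h1]
    push_cast
    calc _ ≤ (n + 1) * (i * (n + 1) ^ i) + (n + 1) ^ (i + 1) := by linarith
      _ = _ := by ring

lemma pow_diff_nonneg (n : ℤ) (hn : 0 ≤ n) (i : ℕ) : 0 ≤ (n + 1) ^ i - n ^ i := by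
  have h2 : n ^ i ≤ (n + 1) ^ i := pow_le_pow_left₀ hn (by omega) _
  linarith

lemma pow_diff_ge (n : ℤ) (hn : 0 ≤ n) (k : ℕ) : ((k : ℤ) + 1) * n ^ k ≤ (n + 1) ^ (k + 1) - n ^ (k + 1) := by
  induction k with
  | zero => simp
  | succ k ih =>
    have h1 : (n + 1) ^ (k + 1 + 1) - n ^ (k + 1 + 1) = n * ((n + 1) ^ (k + 1) - n ^ (k + 1)) +
      ((n + 1) ^ (k + 1) - n ^ (k + 1)) + n ^ (k + 1) := by ring
    have h2 := pow_diff_nonneg n hn (k + 1)
    have h3 := mul_le_mul_of_nonneg_left ih hn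
    rw [h1]
    push_cast
    calc ((k : ℤ) + 1 + 1) * n ^ (k + 1) = n * (((k : ℤ) + 1) * n ^ k) + n ^ (k + 1) := by ring
      _ ≤ _ := by linarith

/-- the values increase (or decrease) from a point on -/
lemma step_pos (k : ℕ) (F : ℤ[X]) (hF : F.natDegree = k + 1) (H : ℕ) (hc : ∀ i, |F.coeff i| ≤ H) (σ : ℤ)
    (hσ : 1 ≤ σ * F.coeff (k + 1)) (hσ1 : |σ| = 1) (n : ℕ) (hn : H * (k + 1) * 2 ^ (k + 1) ≤ n) (hn1 : 1 ≤ n) :
    1 ≤ σ * (F.eval ((n : ℤ) + 1) - F.eval (n : ℤ)) := by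
  have e1 : ∀ x : ℤ, F.eval x = ∑ i ∈ range (k + 1), F.coeff i * x ^ i + F.coeff (k + 1) * x ^ (k + 1) := by
    intro x
    rw [eval_eq_sum_range, hF, sum_range_succ]
  obtain ⟨m, hm⟩ : ∃ m : ℤ, m = n := ⟨_, rfl⟩
  have hm0 : 0 ≤ m := by omega
  have hm1 : 1 ≤ m := by omega
  rw [← hm]
  obtain ⟨D, hD⟩ : ∃ D, D = ∑ i ∈ range (k + 1), F.coeff i * ((m + 1) ^ i - m ^ i) := ⟨_, rfl⟩
  have e2 : F.eval (m + 1) - F.eval m = D + F.coeff (k + 1) * ((m + 1) ^ (k + 1) - m ^ (k + 1)) := by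
    rw [e1, e1, hD]
    simp only [mul_sub, sum_sub_distrib]
    ring
  have hb : m * |D| ≤ (k + 1) * (H * (k * (m + 1) ^ k)) := by
    have h1 : |D| ≤ ∑ i ∈ range (k + 1), (H : ℤ) * ((m + 1) ^ i - m ^ i) := by
      rw [hD]
      refine (abs_sum_le_sum_abs _ _).trans (sum_le_sum fun i _ => ?_)
      rw [abs_mul, abs_of_nonneg (pow_diff_nonneg m hm0 i)]
      exact mul_le_mul_of_nonneg_right (hc i) (pow_diff_nonneg m hm0 i)
    calc m * |D| ≤ m * ∑ i ∈ range (k + 1), (H : ℤ) * ((m + 1) ^ i - m ^ i) := mul_le_mul_of_nonneg_left h1 hm0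
      _ = ∑ i ∈ range (k + 1), (H : ℤ) * (m * ((m + 1) ^ i - m ^ i)) := by
          rw [mul_sum]; exact sum_congr rfl fun i _ => by ring
      _ ≤ ∑ _i ∈ range (k + 1), (H : ℤ) * (k * (m + 1) ^ k) := by
          refine sum_le_sum fun i hi => ?_
          rw [mem_range] at hi
          apply mul_le_mul_of_nonneg_left _ (Int.natCast_nonneg H)
          refine (pow_diff_le m hm0 i).trans ?_
          apply mul_le_mul (by omega) (pow_le_pow_right₀ (by omega) (by omega)) (by positivity) (by positivity)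
      _ = _ := by rw [sum_const, card_range, nsmul_eq_mul]; push_cast; ring
  have hlow : ((k : ℤ) + 1) * m ^ k ≤ σ * F.coeff (k + 1) * ((m + 1) ^ (k + 1) - m ^ (k + 1)) := by
    refine (pow_diff_ge m hm0 k).trans ?_
    exact le_mul_of_one_le_left (pow_diff_nonneg m hm0 (k + 1)) hσ
  have hH1 : (1 : ℤ) ≤ H := by
    have h1 := hc (k + 1)
    have h2 : |σ * F.coeff (k + 1)| ≤ H := by rw [abs_mul, hσ1, one_mul]; exact h1
    have h3 := le_abs_self (σ * F.coeff (k + 1))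
    omega
  have hup : ((m + 1) ^ k : ℤ) ≤ 2 ^ k * m ^ k := by
    rw [← mul_pow]
    exact pow_le_pow_left₀ (by omega) (by omega) k
  have hmk : (0 : ℤ) < m ^ k := by positivity
  by_contra hcon
  push Not at hcon
  have hcon' : σ * (F.eval (m + 1) - F.eval m) ≤ 0 := by omega
  rw [e2, mul_add, ← mul_assoc] at hcon'
  have h1 : -(|D|) ≤ σ * D := by
    have h2 := neg_abs_le (σ * D)
    rw [abs_mul, hσ1, one_mul] at h2
    exact h2
  have h2 : m * (((k : ℤ) + 1) * m ^ k) ≤ m * |D| := by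
    apply mul_le_mul_of_nonneg_left _ hm0
    linarith
  have h3 : ((k : ℤ) + 1) * (H * (k * (m + 1) ^ k)) ≤ (k + 1) * (H * (k * (2 ^ k * m ^ k))) := by
    have : (H : ℤ) * (k * (m + 1) ^ k) ≤ H * (k * (2 ^ k * m ^ k)) := by
      apply mul_le_mul_of_nonneg_left _ (by omega)
      exact mul_le_mul_of_nonneg_left hup (by positivity)
    exact mul_le_mul_of_nonneg_left this (by positivity)
  have h4 : (((k : ℤ) + 1) * m ^ k) * m ≤ (((k : ℤ) + 1) * m ^ k) * (H * k * 2 ^ k) := by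
    calc (((k : ℤ) + 1) * m ^ k) * m = m * (((k : ℤ) + 1) * m ^ k) := by ring
      _ ≤ _ := h2.trans (hb.trans h3)
      _ = _ := by ring
  have h5 : m ≤ H * k * 2 ^ k := le_of_mul_le_mul_left h4 (by positivity)
  have h6 : (H : ℤ) * (k + 1) * 2 ^ (k + 1) ≤ m := by rw [hm]; exact_mod_cast hn
  have h7 : (H : ℤ) * k * 2 ^ k < H * (k + 1) * 2 ^ (k + 1) := by
    have h8 : (0 : ℤ) < 2 ^ k := by positivity
    have h9 : (H : ℤ) * (k + 1) * 2 ^ (k + 1) = H * k * 2 ^ k + (H * k * 2 ^ k + 2 * (H * 2 ^ k)) := by ring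
    rw [h9]
    have h10 : (0 : ℤ) < H * 2 ^ k := by positivity
    have h11 : (0 : ℤ) ≤ H * k * 2 ^ k := by positivity
    linarith
  omega

lemma gap_unif (k : ℕ) (F : ℤ[X]) (hF : F.natDegree = k + 1) (H : ℕ) (hc : ∀ i, |F.coeff i| ≤ H) :
    ∃ σ : ℤ, (σ = 1 ∨ σ = -1) ∧ Gap (fun n => F.eval (n : ℤ)) σ (H * (k + 1) * 2 ^ (k + 1) + 1) 1 := by
  have hne : F.coeff (k + 1) ≠ 0 := by
    rw [← hF]
    apply leadingCoeff_ne_zero.2
    intro h0
    rw [h0, natDegree_zero] at hF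
    omega
  have key : ∀ σ : ℤ, 1 ≤ σ * F.coeff (k + 1) → |σ| = 1 →
      Gap (fun n => F.eval (n : ℤ)) σ (H * (k + 1) * 2 ^ (k + 1) + 1) 1 := by
    intro σ h1 h2 n δ hn
    induction δ with
    | zero => simp
    | succ δ ih =>
      have h3 := step_pos k F hF H hc σ h1 h2 (n + δ) (by omega) (by omega)
      have e1 : (((n + δ : ℕ) : ℤ) + 1) = ((n + (δ + 1) : ℕ) : ℤ) := by push_cast; ring
      rw [e1] at h3
      simp only at ih ⊢
      push_cast at ih ⊢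
      have h4 : σ * (F.eval ((n : ℤ) + (δ + 1)) - F.eval (n : ℤ)) =
          σ * (F.eval ((n : ℤ) + (δ + 1)) - F.eval ((n : ℤ) + δ)) + σ * (F.eval ((n : ℤ) + δ) - F.eval (n : ℤ)) := by ring
      rw [h4]
      push_cast at h3
      linarith
  rcases lt_or_gt_of_ne hne with h | h
  · exact ⟨-1, Or.inr rfl, key (-1) (by omega) (by norm_num)⟩
  · exact ⟨1, Or.inl rfl, key 1 (by omega) (by norm_num)⟩

/-- a convex finite set of natural numbers is an interval -/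
lemma convex_Icc (S : Finset ℕ) (h : ∀ i ∈ S, ∀ k ∈ S, ∀ j, i ≤ j → j ≤ k → j ∈ S) (hS : S.Nonempty) :
    S = Icc (S.min' hS) (S.max' hS) := by
  ext j
  rw [mem_Icc]
  constructor
  · intro hj
    exact ⟨min'_le _ _ hj, le_max' _ _ hj⟩
  · intro hj
    exact h _ (min'_mem _ _) _ (max'_mem _ _) _ hj.1 hj.2

/-- the primes minus the main term at an integer -/
noncomputable def gp (F : ℤ[X]) (t : ℤ) (M : ℝ) (m : ℤ) : ℝ :=
  (if (F.eval m + t).toNat.Prime then 1 else 0) - M * (if 2 ≤ F.eval m + t then 1 / Real.log ((F.eval m + t : ℤ) : ℝ) else 0)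

lemma gp_zero (F : ℤ[X]) (t : ℤ) (M : ℝ) (m : ℤ) (h : ¬ 2 ≤ F.eval m + t) : gp F t M m = 0 := by
  unfold gp
  rw [if_neg h, if_neg (fun hp => by have := hp.two_le; omega)]
  ring

lemma gp_eq (F : ℤ[X]) (t : ℤ) (M : ℝ) (n : ℕ) (h : 2 ≤ F.eval (n : ℤ) + t) :
    gp F t M n = (if (vN F t n).Prime then 1 else 0) - M * wt (vN F t n) := by
  have h1 : (F.eval (n : ℤ) + t).toNat = vN F t n := by
    unfold vN; omega
  have h2 : ((F.eval (n : ℤ) + t : ℤ) : ℝ) = (vN F t n : ℝ) := by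
    have : F.eval (n : ℤ) + t = ((vN F t n : ℕ) : ℤ) := by unfold vN; omega
    rw [this, Int.cast_natCast]
  unfold gp wt
  rw [if_pos h, h1, h2]

lemma gp_abs (F : ℤ[X]) (t : ℤ) (M : ℝ) (hM : 0 ≤ M) (m : ℤ) : |gp F t M m| ≤ 1 + 3 / 2 * M := by
  by_cases h : 2 ≤ F.eval m + t
  · unfold gp
    rw [if_pos h]
    refine (abs_sub _ _).trans (add_le_add ?_ ?_)
    · split_ifs <;> simp
    · have h1 : 0 ≤ 1 / Real.log ((F.eval m + t : ℤ) : ℝ) ∧ 1 / Real.log ((F.eval m + t : ℤ) : ℝ) ≤ 3 / 2 := by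
        have e1 : ((F.eval m + t : ℤ) : ℝ) = (((F.eval m + t).toNat : ℕ) : ℝ) := by
          have : F.eval m + t = (((F.eval m + t).toNat : ℕ) : ℤ) := by omega
          exact_mod_cast congrArg (Int.cast : ℤ → ℝ) this
        rw [e1]
        exact ⟨wt_nonneg _, wt_le (by omega)⟩
      rw [abs_of_nonneg (mul_nonneg hM h1.1), mul_comm (3 / 2 : ℝ) M]
      exact mul_le_mul_of_nonneg_left h1.2 hM
  · rw [gp_zero F t M m h, abs_zero]
    positivity

/-- sums over the natural numbers below `y` -/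
theorem nat_prefix (d : ℕ) (hd : 1 ≤ d) : ∃ C1 y0 : ℕ, 1 ≤ C1 ∧ 2 ≤ y0 ∧ ∀ (F : ℤ[X]) (t : ℤ), F.natDegree = d →
    ∀ H : ℕ, (∀ i, |F.coeff i| ≤ H) → ∀ b : ℕ, C1 ≤ b → ∀ z : ℕ, y0 ≤ z → (∀ p ∈ pz z, rho F t p < p) →
    ∀ (D : ℝ) (T : ℕ), (∀ N ≤ T, |∑ n ∈ range N, ff z (F.eval (n : ℤ) + t)| ≤ D) →
    ∀ y ≤ T, |∑ n ∈ range y, gp F t (hh F t z) (n : ℤ)| ≤ (H * d * 2 ^ d + 1) * (1 + 3 / 2 * hh F t z) + 2 * D +
      3 * (1 / 2 : ℝ) ^ b * hh F t z * T + 9 * (z : ℝ) ^ (C1 * b) * hh F t z := by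
  obtain ⟨C1, y0, hC1, hy0, h⟩ := one_win d hd
  refine ⟨C1, y0, hC1, hy0, fun F t hF H hc b hb z hz hrho D T hD y hy => ?_⟩
  obtain ⟨k, rfl⟩ : ∃ k, d = k + 1 := ⟨d - 1, by omega⟩
  obtain ⟨σ, hσ, hG⟩ := gap_unif k F hF H hc
  obtain ⟨N0, hN0⟩ : ∃ N0, N0 = H * (k + 1) * 2 ^ (k + 1) + 1 := ⟨_, rfl⟩
  rw [← hN0] at hG
  have hM := hh_nonneg F t z (by omega)
  obtain ⟨M, hMdef⟩ : ∃ M, M = hh F t z := ⟨_, rfl⟩
  have hwin := h F t (le_of_eq hF) b hb z hz hrho σ N0 1 hσ le_rfl hG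
  rw [← hMdef] at hM hwin ⊢
  have hN0r : ((H : ℝ) * ((k + 1 : ℕ) : ℝ) * 2 ^ (k + 1) + 1) = N0 := by rw [hN0]; push_cast; ring
  rw [hN0r]
  have hzp : (0 : ℝ) ≤ (z : ℝ) ^ (C1 * b) := by positivity
  have hD0 : 0 ≤ D := (abs_nonneg _).trans (hD 0 (Nat.zero_le _))
  have hpart : ∀ a c : ℕ, |∑ n ∈ Ico a c, gp F t M (n : ℤ)| ≤ ((c - a : ℕ) : ℝ) * (1 + 3 / 2 * M) := by
    intro a c
    refine (abs_sum_le_sum_abs _ _).trans ?_
    calc ∑ n ∈ Ico a c, |gp F t M (n : ℤ)| ≤ ∑ _n ∈ Ico a c, (1 + 3 / 2 * M) :=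
          sum_le_sum fun n _ => gp_abs F t M hM (n : ℤ)
      _ = _ := by rw [sum_const, Nat.card_Ico, nsmul_eq_mul]
  rcases Nat.lt_or_ge y N0 with hlt | hge
  · have h1 := hpart 0 y
    rw [← range_eq_Ico] at h1
    refine h1.trans ?_
    have h2 : ((y - 0 : ℕ) : ℝ) ≤ N0 := by exact_mod_cast (by omega : y - 0 ≤ N0)
    have h3 : ((y - 0 : ℕ) : ℝ) * (1 + 3 / 2 * M) ≤ N0 * (1 + 3 / 2 * M) := mul_le_mul_of_nonneg_right h2 (by positivity)
    have h4 : 0 ≤ 3 * (1 / 2 : ℝ) ^ b * M * T := by positivity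
    have h5 : 0 ≤ 9 * (z : ℝ) ^ (C1 * b) * M := by positivity
    linarith
  · rw [← sum_range_add_sum_Ico _ hge]
    have h1 := hpart 0 N0
    rw [← range_eq_Ico] at h1
    have h2 : ((N0 - 0 : ℕ) : ℝ) = N0 := by simp
    rw [h2] at h1
    have h3 : |∑ n ∈ Ico N0 y, gp F t M (n : ℤ)| ≤ 2 * D + 3 * (1 / 2 : ℝ) ^ b * M * T + 9 * (z : ℝ) ^ (C1 * b) * M := by
      obtain ⟨S, hS⟩ : ∃ S, S = (Ico N0 y).filter (fun n : ℕ => 2 ≤ F.eval (n : ℤ) + t) := ⟨_, rfl⟩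
      have e1 : ∑ n ∈ Ico N0 y, gp F t M (n : ℤ) = ∑ n ∈ S, gp F t M (n : ℤ) := by
        rw [hS, sum_filter]
        refine sum_congr rfl fun n _ => ?_
        split_ifs with h4
        · rfl
        · exact gp_zero F t M n h4
      rw [e1]
      have hffS : |∑ n ∈ S, ff z (F.eval (n : ℤ) + t)| ≤ 2 * D := by
        have e2 : ∑ n ∈ S, ff z (F.eval (n : ℤ) + t) = ∑ n ∈ Ico N0 y, ff z (F.eval (n : ℤ) + t) := by
          rw [hS, sum_filter]
          refine sum_congr rfl fun n _ => ?_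
          split_ifs with h4
          · rfl
          · unfold ff
            rw [if_neg h4]
        have e3 := sum_range_add_sum_Ico (fun n : ℕ => ff z (F.eval (n : ℤ) + t)) hge
        have e4 : ∑ n ∈ Ico N0 y, ff z (F.eval (n : ℤ) + t) = ∑ n ∈ range y, ff z (F.eval (n : ℤ) + t) -
            ∑ n ∈ range N0, ff z (F.eval (n : ℤ) + t) := by linarith
        rw [e2, e4]
        have h5 := hD y hy
        have h6 := hD N0 (by omega)
        have := abs_sub (∑ n ∈ range y, ff z (F.eval (n : ℤ) + t)) (∑ n ∈ range N0, ff z (F.eval (n : ℤ) + t))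
        linarith
      rcases S.eq_empty_or_nonempty with h0 | h0
      · rw [h0, sum_empty, abs_zero]
        have h4 : 0 ≤ 3 * (1 / 2 : ℝ) ^ b * M * T := by positivity
        have h5 : 0 ≤ 9 * (z : ℝ) ^ (C1 * b) * M := by positivity
        linarith
      · have hmem : ∀ n, n ∈ S ↔ (N0 ≤ n ∧ n < y) ∧ 2 ≤ F.eval (n : ℤ) + t := by
          intro n; rw [hS, mem_filter, mem_Ico]
        have hconv : ∀ i ∈ S, ∀ k ∈ S, ∀ j, i ≤ j → j ≤ k → j ∈ S := by
          intro i hi k' hk j hij hjk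
          rw [hmem] at hi hk ⊢
          refine ⟨by omega, ?_⟩
          rcases hσ with hs | hs
          · rcases Nat.eq_or_lt_of_le hij with h4 | h4
            · rw [← h4]; exact hi.2
            · have h5 := gap_mono _ σ N0 1 le_rfl hG i j hi.1.1 h4
              rw [hs, one_mul, one_mul] at h5
              linarith [hi.2]
          · rcases Nat.eq_or_lt_of_le hjk with h4 | h4
            · rw [h4]; exact hk.2
            · have h5 := gap_mono _ σ N0 1 le_rfl hG j k' (by omega) h4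
              rw [hs] at h5
              linarith [hk.2]
        obtain ⟨n1, hn1⟩ : ∃ n1, n1 = S.min' h0 := ⟨_, rfl⟩
        obtain ⟨n2, hn2⟩ : ∃ n2, n2 = S.max' h0 := ⟨_, rfl⟩
        have hSI := convex_Icc S hconv h0
        rw [← hn1, ← hn2] at hSI
        have hn1S : n1 ∈ S := by rw [hn1]; exact min'_mem _ _
        have hn2S : n2 ∈ S := by rw [hn2]; exact max'_mem _ _
        have h12 : n1 ≤ n2 := by rw [hn1]; exact min'_le _ _ hn2S
        have hn1' := (hmem n1).1 hn1S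
        have hn2' := (hmem n2).1 hn2S
        have hvals : ∀ i ∈ Icc n1 n2, 2 ≤ F.eval (i : ℤ) + t := by
          intro i hi
          rw [← hSI] at hi
          exact ((hmem i).1 hi).2
        have h5 := hwin n1 n2 hn1'.1.1 (by omega) h12 hvals
        rw [hSI] at hffS ⊢
        have e5 : ∑ n ∈ Icc n1 n2, gp F t M (n : ℤ) = (((Icc n1 n2).filter (fun i => (vN F t i).Prime)).card : ℝ) -
            M * ∑ i ∈ Icc n1 n2, wt (vN F t i) := by
          rw [card_filter]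
          push_cast
          rw [mul_sum, ← sum_sub_distrib]
          refine sum_congr rfl fun i hi => ?_
          exact gp_eq F t M i (hvals i hi)
        rw [e5]
        refine h5.trans ?_
        have h6 : ∑ i ∈ Icc n1 n2, wt (vN F t i) ≤ 3 / 2 * T := by
          calc ∑ i ∈ Icc n1 n2, wt (vN F t i) ≤ ∑ _i ∈ Icc n1 n2, (3 / 2 : ℝ) := by
                refine sum_le_sum fun i hi => wt_le ?_
                have := hvals i hi
                unfold vN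
                omega
            _ = ((n2 + 1 - n1 : ℕ) : ℝ) * (3 / 2) := by rw [sum_const, Nat.card_Icc, nsmul_eq_mul]
            _ ≤ T * (3 / 2) := by
                apply mul_le_mul_of_nonneg_right _ (by norm_num)
                exact_mod_cast (by omega : n2 + 1 - n1 ≤ T)
            _ = _ := by ring
        have h7 : 2 * (1 / 2 : ℝ) ^ b * M * ∑ i ∈ Icc n1 n2, wt (vN F t i) ≤ 2 * (1 / 2 : ℝ) ^ b * M * (3 / 2 * T) :=
          mul_le_mul_of_nonneg_left h6 (by positivity)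
        have h8 : 2 * (1 / 2 : ℝ) ^ b * M * (3 / 2 * T) = 3 * (1 / 2 : ℝ) ^ b * M * T := by ring
        linarith
    have := abs_add_le (∑ n ∈ range N0, gp F t M (n : ℤ)) (∑ n ∈ Ico N0 y, gp F t M (n : ℤ))
    linarith

/-- all windows of integers -/
theorem int_window (d : ℕ) (hd : 1 ≤ d) : ∃ C1 y0 : ℕ, 1 ≤ C1 ∧ 2 ≤ y0 ∧ ∀ (F : ℤ[X]) (t : ℤ), F.natDegree = d →
    ∀ H : ℕ, (∀ i, |F.coeff i| ≤ H) → ∀ b : ℕ, C1 ≤ b → ∀ z : ℕ, y0 ≤ z → (∀ p ∈ pz z, rho F t p < p) →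
    ∀ (D T : ℝ), 0 ≤ T → (∀ N : ℕ, (N : ℝ) ≤ T + 1 → |∑ n ∈ range N, ff z (F.eval (n : ℤ) + t)| ≤ D) →
    (∀ N : ℕ, (N : ℝ) ≤ T + 1 → |∑ n ∈ range N, ff z (F.eval (-(n : ℤ)) + t)| ≤ D) →
    ∀ u v : ℤ, |(u : ℝ)| ≤ T → |(v : ℝ)| ≤ T → |∑ m ∈ Ioc u v, gp F t (hh F t z) m| ≤
      4 * ((H * d * 2 ^ d + 1) * (1 + 3 / 2 * hh F t z) + 2 * D +
        3 * (1 / 2 : ℝ) ^ b * hh F t z * (T + 1) + 9 * (z : ℝ) ^ (C1 * b) * hh F t z) := by
  obtain ⟨C1, y0, hC1, hy0, h⟩ := nat_prefix d hd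
  refine ⟨C1, y0, hC1, hy0, fun F t hF H hc b hb z hz hrho D T hT hD1 hD2 u v hu hv => ?_⟩
  have hM := hh_nonneg F t z (by omega)
  have hfl : ∀ y : ℕ, (y : ℝ) ≤ T + 1 → y ≤ ⌊T + 1⌋₊ := fun y hy => Nat.le_floor hy
  have hfl2 : ((⌊T + 1⌋₊ : ℕ) : ℝ) ≤ T + 1 := Nat.floor_le (by linarith)
  have hfl3 : 3 * (1 / 2 : ℝ) ^ b * hh F t z * (⌊T + 1⌋₊ : ℕ) ≤ 3 * (1 / 2 : ℝ) ^ b * hh F t z * (T + 1) :=
    mul_le_mul_of_nonneg_left hfl2 (by positivity)
  apply window_sum _ _ T hT _ _ u v hu hv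
  · intro y hy
    have h1 := h F t hF H hc b hb z hz hrho D ⌊T + 1⌋₊ (fun N hN => hD1 N (by
      have : (N : ℝ) ≤ (⌊T + 1⌋₊ : ℕ) := by exact_mod_cast hN
      linarith)) y (hfl y hy)
    linarith
  · intro y hy
    obtain ⟨G, hG⟩ : ∃ G : ℤ[X], G = F.comp (-X) := ⟨_, rfl⟩
    have hGd : G.natDegree = d := by
      rw [hG, natDegree_comp, natDegree_neg, natDegree_X, mul_one, hF]
    have hGc : ∀ i, |G.coeff i| ≤ H := by
      intro i
      have e1 : G = F.comp (C (-1) * X) := by rw [hG]; simp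
      rw [e1, comp_C_mul_X_coeff, abs_mul, abs_pow, abs_neg, abs_one, one_pow, mul_one]
      exact hc i
    have hGe : ∀ m : ℤ, G.eval m = F.eval (-m) := by
      intro m
      rw [hG, eval_comp]
      congr 1
      simp
    have hGr : ∀ p ∈ pz z, rho G t p = rho F t p := by
      intro p hp
      rw [hG]
      exact rho_neg F t p (mem_pz.1 hp).2
    have hGh : hh G t z = hh F t z := by
      unfold hh
      congr 1
      exact prod_congr rfl fun p hp => by rw [hGr p hp]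
    have h1 := h G t hGd H hGc b hb z hz (fun p hp => by rw [hGr p hp]; exact hrho p hp) D ⌊T + 1⌋₊ (fun N hN => by
      simp only [hGe]
      exact hD2 N (by
        have : (N : ℝ) ≤ (⌊T + 1⌋₊ : ℕ) := by exact_mod_cast hN
        linarith)) y (hfl y hy)
    rw [hGh] at h1
    have e2 : ∀ m : ℤ, gp G t (hh F t z) m = gp F t (hh F t z) (-m) := by
      intro m
      unfold gp
      rw [hGe]
    simp only [e2] at h1
    linarith

end Pool.Agent.L7h18.DG
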