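import Pool.Agent.L7h18.DG.B6

/-!
The primes in all windows for all polynomials of degree `e`, with the singular series cut at `K ^ E`.
-/

set_option autoImplicit false

namespace Pool.Agent.L7h18.DG

open Finset Polynomial
open Pool.Agent.TH204.WR (hh rho hh_nonneg prod_le_one' prod_nonneg')
open Pool.Agent.TH892.SW (ff Vz_pos)
open Pool.Agent.H373R2.T7 (pz Vz mem_pz Vz_inv_small)

lemma evt_log (m : ℕ) : ∃ K0 : ℕ, ∀ K : ℕ, K0 ≤ K → K ^ (m * (Nat.log 2 K + 1)) ≤ 2 ^ K := by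
  obtain ⟨L0, hL0⟩ := evt_two 3
  refine ⟨2 ^ (max L0 (2 * m) + 1), fun K hK => ?_⟩
  have hKpos : 0 < K := lt_of_lt_of_le (by positivity) hK
  obtain ⟨l, hl⟩ : ∃ l, l = Nat.log 2 K + 1 := ⟨_, rfl⟩
  rw [← hl]
  have h1 : K < 2 ^ l := by rw [hl]; exact Nat.lt_pow_succ_log_self (by norm_num) K
  have h2 : 2 ^ (l - 1) ≤ K := by
    rw [hl, Nat.add_sub_cancel]
    exact Nat.pow_log_le_self 2 hKpos.ne'
  have h3 : max L0 (2 * m) + 1 < l := by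
    have h4 : 2 ^ (max L0 (2 * m) + 1) < 2 ^ l := lt_of_le_of_lt hK h1
    exact (Nat.pow_lt_pow_iff_right (by norm_num)).1 h4
  have h5 : l ^ 3 ≤ 2 ^ l := hL0 l (by have := le_max_left L0 (2 * m); omega)
  have h6 : 2 * m ≤ l := by have := le_max_right L0 (2 * m); omega
  have h7 : m * l ^ 2 ≤ 2 ^ (l - 1) := by
    have h8 : 2 * (m * l ^ 2) ≤ 2 * 2 ^ (l - 1) := by
      calc 2 * (m * l ^ 2) = (2 * m) * l ^ 2 := by ring
        _ ≤ l * l ^ 2 := Nat.mul_le_mul_right _ h6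
        _ = l ^ 3 := by ring
        _ ≤ 2 ^ l := h5
        _ = 2 * 2 ^ (l - 1) := by
            rw [← pow_succ']
            congr 1
            omega
    omega
  calc K ^ (m * l) ≤ (2 ^ l) ^ (m * l) := Nat.pow_le_pow_left h1.le _
    _ = 2 ^ (m * l ^ 2) := by rw [← pow_mul]; congr 1; ring
    _ ≤ 2 ^ K := Nat.pow_le_pow_right (by norm_num) (h7.trans h2)

/-- **the primes in all windows, all polynomials of degree `e`** -/
theorem primes_windows (e : ℕ) (he : 1 ≤ e) : ∃ n0 : ℕ, 1 ≤ n0 ∧ ∀ b : ℕ, 2 ≤ b → ∀ A U : ℕ, ∃ E0 : ℕ, ∀ E : ℕ, E0 ≤ E →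
    ∃ K0 : ℕ, ∀ K : ℕ, K0 ≤ K → ∀ w : ℕ → ℕ → ℝ, Good b n0 w → ∀ c₁ : ℤ, |c₁| ≤ (K : ℤ) ^ A * (b : ℤ) ^ K →
    ∃ Ex : Finset ℕ, Ex ⊆ range (b ^ K) ∧ ∑ c ∈ Ex, Wt b K w c ≤ 1 / (K : ℝ) ^ U ∧
    ∀ c < b ^ K, c ∉ Ex → ∀ F : ℤ[X], F.natDegree = e → (∀ i, |F.coeff i| ≤ (K : ℤ) ^ A) →
    (∀ p ∈ pz (K ^ E), rho F (c₁ + c) p < p) → hh F (c₁ + c) (K ^ E) ≤ (K : ℝ) ^ 2 ∧
    ∀ u v : ℤ, |(u : ℝ)| ≤ (K : ℝ) ^ A * xr b K e → |(v : ℝ)| ≤ (K : ℝ) ^ A * xr b K e →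
      |∑ m ∈ Ioc u v, gp F (c₁ + c) (hh F (c₁ + c) (K ^ E)) m| ≤ xr b K e / (K : ℝ) ^ U := by
  obtain ⟨n0, hn0, hpre⟩ := prefix_primes e he
  obtain ⟨C1, y0, hC1, hy0, hwin⟩ := int_window e he
  refine ⟨n0, hn0, fun b hb2 A U => ?_⟩
  obtain ⟨E0, hE0⟩ := hpre b hb2 A (U + 1)
  refine ⟨E0 + 1, fun E hE => ?_⟩
  obtain ⟨K1, hK1⟩ := hE0 E (by omega)
  obtain ⟨C, hC⟩ : ∃ C, C = U + A + 4 := ⟨_, rfl⟩
  obtain ⟨m, hm⟩ : ∃ m, m = (E * (C1 * (C1 + C)) + (U + A + 8)) * e := ⟨_, rfl⟩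
  obtain ⟨K2, hK2⟩ := evt_log m
  obtain ⟨N2, hN2⟩ := Vz_inv_small (2 * E)
  refine ⟨max (max K1 K2) (e * 2 ^ e + y0 + N2 + b + 500), fun K hK w hw c₁ hc₁ => ?_⟩
  have g1 : K1 ≤ K := le_trans (le_trans (le_max_left _ _) (le_max_left _ _)) hK
  have g2 : K2 ≤ K := le_trans (le_trans (le_max_right _ _) (le_max_left _ _)) hK
  have g3 : e * 2 ^ e + y0 + N2 + b + 500 ≤ K := (le_max_right _ _).trans hK
  obtain ⟨Ex, hEx1, hEx2, hEx3⟩ := hK1 K g1 w hw c₁ hc₁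
  have hbr : (2 : ℝ) ≤ b := by exact_mod_cast hb2
  have hKr : (500 : ℝ) ≤ K := by exact_mod_cast (by omega : 500 ≤ K)
  have hK0 : (0 : ℝ) < K := by linarith
  have hKp : ∀ n : ℕ, (0 : ℝ) < (K : ℝ) ^ n := fun n => by positivity
  have hK1' : (1 : ℝ) ≤ K := by linarith
  have hKp1 : ∀ n : ℕ, (1 : ℝ) ≤ (K : ℝ) ^ n := fun n => one_le_pow₀ hK1'
  have hX : (0 : ℝ) < (b : ℝ) ^ K := by positivity
  have hx1 := xr_ge b K e (by omega)
  obtain ⟨x, hx⟩ : ∃ x, x = xr b K e := ⟨_, rfl⟩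
  rw [← hx] at hx1 hEx3 ⊢
  have hxe : x ^ e = (b : ℝ) ^ K := by rw [hx]; exact xr_pow b K e he
  have hx0 : 0 < x := by linarith
  refine ⟨Ex, hEx1, hEx2.trans ?_, fun c hcb hcE F hF hFc hrho => ?_⟩
  · apply one_div_le_one_div_of_le (hKp _)
    exact pow_le_pow_right₀ hK1' (by omega)
  -- the size of the main term
  have hKE : K ≤ K ^ E := Nat.le_self_pow (by omega) K
  have hz1 : 1 ≤ K ^ E := by omega
  have hV := Vz_pos hz1
  have hM0 := hh_nonneg F (c₁ + c) (K ^ E) hz1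
  have hM2 : hh F (c₁ + c) (K ^ E) ≤ (K : ℝ) ^ 2 := by
    have h1 : hh F (c₁ + c) (K ^ E) ≤ (Vz (K ^ E))⁻¹ := by
      unfold hh
      exact mul_le_of_le_one_right (inv_nonneg.2 hV.le) (prod_le_one' F (c₁ + c) (K ^ E))
    obtain ⟨Y, hY⟩ : ∃ Y, Y = b ^ K := ⟨_, rfl⟩
    have hYr : (Y : ℝ) = (b : ℝ) ^ K := by rw [hY]; push_cast; rfl
    have h2Y : (2 : ℝ) ^ K ≤ Y := by
      rw [hYr]
      exact pow_le_pow_left₀ (by norm_num) hbr _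
    have hlogY : (K : ℝ) / 2 ≤ Real.log Y := by
      have h2 := Real.log_le_log (by positivity) h2Y
      rw [Real.log_pow] at h2
      have := Real.log_two_gt_d9
      nlinarith
    have hlogY2 : Real.log Y ≤ (K : ℝ) ^ 2 := by
      rw [hYr, Real.log_pow]
      have h1 : Real.log b ≤ b := (Real.log_le_sub_one_of_pos (by linarith)).trans (by linarith)
      have h3 : (b : ℝ) ≤ K := by exact_mod_cast (by omega : b ≤ K)
      calc (K : ℝ) * Real.log b ≤ K * K := by gcongr; linarith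
        _ = _ := by ring
    have hKY : K ≤ Y := by
      have h1 : (K : ℝ) ≤ Y := by
        have h2 : (K : ℝ) < 2 ^ K := by exact_mod_cast Nat.lt_two_pow_self
        linarith
      exact_mod_cast h1
    have hz2 : ((K ^ E : ℕ) : ℝ) ≤ Real.log Y ^ (2 * E) := by
      push_cast
      have h1 : (K : ℝ) ≤ Real.log Y ^ 2 := by
        have h2 : ((K : ℝ) / 2) ^ 2 ≤ Real.log Y ^ 2 := pow_le_pow_left₀ (by positivity) hlogY 2
        nlinarith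
      calc (K : ℝ) ^ E ≤ (Real.log Y ^ 2) ^ E := pow_le_pow_left₀ hK0.le h1 _
        _ = _ := by rw [← pow_mul]
    have h4 := hN2 Y (by omega) (K ^ E) hz1 hz2
    linarith
  refine ⟨hM2, fun u v hu hv => ?_⟩
  obtain ⟨M, hM⟩ : ∃ M, M = hh F (c₁ + c) (K ^ E) := ⟨_, rfl⟩
  -- the level of the sieve
  obtain ⟨l, hl⟩ : ∃ l, l = Nat.log 2 K + 1 := ⟨_, rfl⟩
  have hl0 : 1 ≤ l := by omega
  have hl1 : K < 2 ^ l := by rw [hl]; exact Nat.lt_pow_succ_log_self (by norm_num) K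
  obtain ⟨b', hb'⟩ : ∃ b', b' = C1 + C * l := ⟨_, rfl⟩
  have hhalf : (1 / 2 : ℝ) ^ b' ≤ 1 / (K : ℝ) ^ C := by
    have h1 : (1 / 2 : ℝ) ^ b' ≤ (1 / 2 : ℝ) ^ (C * l) :=
      pow_le_pow_of_le_one (by norm_num) (by norm_num) (by omega)
    refine h1.trans ?_
    rw [one_div, inv_pow, ← one_div]
    apply one_div_le_one_div_of_le (hKp _)
    have h2 : (K : ℝ) ≤ 2 ^ l := by exact_mod_cast hl1.le
    calc (K : ℝ) ^ C ≤ (2 ^ l) ^ C := pow_le_pow_left₀ hK0.le h2 _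
      _ = 2 ^ (C * l) := by rw [← pow_mul, mul_comm]
  have hbigx : (K : ℝ) ^ (E * (C1 * b') + (U + A + 8)) ≤ x := by
    have h1 : ((K : ℝ) ^ (E * (C1 * b') + (U + A + 8))) ^ e ≤ x ^ e := by
      rw [hxe, ← pow_mul]
      have h2 := hK2 K g2
      rw [← hl] at h2
      have h3 : (E * (C1 * b') + (U + A + 8)) * e ≤ m * l := by
        have h4 : b' ≤ (C1 + C) * l := by rw [hb']; nlinarith
        have h5 : E * (C1 * b') ≤ E * (C1 * ((C1 + C) * l)) := Nat.mul_le_mul_left _ (Nat.mul_le_mul_left _ h4)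
        have h6 : U + A + 8 ≤ (U + A + 8) * l := Nat.le_mul_of_pos_right _ hl0
        calc (E * (C1 * b') + (U + A + 8)) * e ≤ (E * (C1 * ((C1 + C) * l)) + (U + A + 8) * l) * e :=
              Nat.mul_le_mul_right _ (by omega)
          _ = m * l := by rw [hm]; ring
      calc (K : ℝ) ^ ((E * (C1 * b') + (U + A + 8)) * e) ≤ (K : ℝ) ^ (m * l) := pow_le_pow_right₀ hK1' h3
        _ ≤ 2 ^ K := by exact_mod_cast h2
        _ ≤ (b : ℝ) ^ K := pow_le_pow_left₀ (by norm_num) hbr _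
    exact le_of_pow_le_pow_left₀ (by omega) hx0.le h1
  have hT : (0 : ℝ) ≤ (K : ℝ) ^ A * x := by positivity
  have hKx : 1 ≤ (K : ℝ) ^ A * x := one_le_mul_of_one_le_of_one_le (hKp1 A) hx1
  have hNb : ∀ N : ℕ, (N : ℝ) ≤ (K : ℝ) ^ A * x + 1 → (N : ℝ) ≤ (K : ℝ) ^ (A + 1) * x := by
    intro N hN
    refine hN.trans ?_
    calc (K : ℝ) ^ A * x + 1 ≤ 2 * ((K : ℝ) ^ A * x) := by linarith
      _ ≤ K * ((K : ℝ) ^ A * x) := mul_le_mul_of_nonneg_right (by linarith) hT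
      _ = _ := by ring
  have hFcH : ∀ i, |F.coeff i| ≤ ((K ^ A : ℕ) : ℤ) := by
    intro i
    push_cast
    exact hFc i
  have hGd : (F.comp (Polynomial.C (-1) * X)).natDegree = e := by
    rw [natDegree_comp, natDegree_C_mul_X (-1) (by norm_num), mul_one, hF]
  have hGc : ∀ i, |(F.comp (Polynomial.C (-1) * X)).coeff i| ≤ (K : ℤ) ^ A := by
    intro i
    rw [comp_C_mul_X_coeff, abs_mul, abs_pow, abs_neg, abs_one, one_pow, mul_one]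
    exact hFc i
  have hGe : ∀ m : ℤ, (F.comp (Polynomial.C (-1) * X)).eval m = F.eval (-m) := by
    intro m
    rw [eval_comp]
    congr 1
    simp
  have key := hwin F (c₁ + c) hF (K ^ A) hFcH b' (by omega) (K ^ E) (by omega) hrho (x / (K : ℝ) ^ (U + 1))
    ((K : ℝ) ^ A * x) hT (fun N hN => hEx3 c hcb hcE F hF hFc N (hNb N hN)) (fun N hN => by
      have h1 := hEx3 c hcb hcE _ hGd hGc N (hNb N hN)
      simp only [hGe] at h1
      exact h1) u v hu hv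
  refine key.trans ?_
  rw [← hM] at hM0 hM2 ⊢
  have t1 : (((K ^ A : ℕ) : ℝ) * e * 2 ^ e + 1) * (1 + 3 / 2 * M) ≤ x / (K : ℝ) ^ (U + 1) := by
    have h1 : (e : ℝ) * 2 ^ e + 1 ≤ K := by exact_mod_cast (by omega : e * 2 ^ e + 1 ≤ K)
    have h2 : ((K ^ A : ℕ) : ℝ) * e * 2 ^ e + 1 ≤ (K : ℝ) ^ A * K := by
      push_cast
      have h3 := hKp1 A
      calc (K : ℝ) ^ A * e * 2 ^ e + 1 ≤ (K : ℝ) ^ A * (e * 2 ^ e + 1) := by linarith
        _ ≤ _ := mul_le_mul_of_nonneg_left h1 (hKp A).le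
    have h4 : 1 + 3 / 2 * M ≤ (K : ℝ) ^ 3 := by
      have h5 : (1 : ℝ) ≤ (K : ℝ) ^ 2 := hKp1 2
      calc 1 + 3 / 2 * M ≤ 3 * (K : ℝ) ^ 2 := by linarith
        _ ≤ K * (K : ℝ) ^ 2 := mul_le_mul_of_nonneg_right (by linarith) (hKp 2).le
        _ = _ := by ring
    rw [le_div_iff₀ (hKp _)]
    calc (((K ^ A : ℕ) : ℝ) * e * 2 ^ e + 1) * (1 + 3 / 2 * M) * (K : ℝ) ^ (U + 1)
        ≤ ((K : ℝ) ^ A * K) * (K : ℝ) ^ 3 * (K : ℝ) ^ (U + 1) := by gcongr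
      _ = (K : ℝ) ^ (U + A + 5) := by ring
      _ ≤ (K : ℝ) ^ (E * (C1 * b') + (U + A + 8)) := pow_le_pow_right₀ hK1' (by omega)
      _ ≤ x := hbigx
  have t3 : 3 * (1 / 2 : ℝ) ^ b' * M * ((K : ℝ) ^ A * x + 1) ≤ 6 * (x / (K : ℝ) ^ (U + 1)) := by
    calc 3 * (1 / 2 : ℝ) ^ b' * M * ((K : ℝ) ^ A * x + 1)
        ≤ 3 * (1 / (K : ℝ) ^ C) * (K : ℝ) ^ 2 * (2 * ((K : ℝ) ^ A * x)) := by gcongr; linarith
      _ = 6 * (x / (K : ℝ) ^ (U + 2)) := by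
          have e1 : (K : ℝ) ^ C = (K : ℝ) ^ (U + 2) * (K : ℝ) ^ 2 * (K : ℝ) ^ A := by rw [hC]; ring
          rw [e1]
          have := (hKp (U + 2)).ne'
          have := (hKp 2).ne'
          have := (hKp A).ne'
          field_simp
          norm_num
      _ ≤ 6 * (x / (K : ℝ) ^ (U + 1)) := by
          apply mul_le_mul_of_nonneg_left _ (by norm_num)
          exact div_le_div_of_nonneg_left hx0.le (hKp _) (pow_le_pow_right₀ hK1' (by omega))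
  have t4 : 9 * (((K ^ E : ℕ) : ℝ)) ^ (C1 * b') * M ≤ x / (K : ℝ) ^ (U + 1) := by
    rw [le_div_iff₀ (hKp _)]
    push_cast
    calc 9 * ((K : ℝ) ^ E) ^ (C1 * b') * M * (K : ℝ) ^ (U + 1)
        ≤ K * ((K : ℝ) ^ E) ^ (C1 * b') * (K : ℝ) ^ 2 * (K : ℝ) ^ (U + 1) := by
          gcongr
          linarith
      _ = (K : ℝ) ^ (E * (C1 * b') + (U + 4)) := by rw [← pow_mul]; ring
      _ ≤ (K : ℝ) ^ (E * (C1 * b') + (U + A + 8)) := pow_le_pow_right₀ hK1' (by omega)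
      _ ≤ x := hbigx
  have e5 : x / (K : ℝ) ^ U = K * (x / (K : ℝ) ^ (U + 1)) := by
    rw [pow_succ]
    have := (hKp U).ne'
    field_simp
  have hy0' : 0 ≤ x / (K : ℝ) ^ (U + 1) := by positivity
  rw [e5]
  have h9 : 40 * (x / (K : ℝ) ^ (U + 1)) ≤ K * (x / (K : ℝ) ^ (U + 1)) := mul_le_mul_of_nonneg_right (by linarith) hy0'
  linarith

end Pool.Agent.L7h18.DG
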