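import Pool.Agent.L7h18.DG.B4
import Pool.Agent.L7h18.DG.B7

/-!
The Hardy-Littlewood formula for quadratic polynomials with constant terms with independent digits.
-/

set_option autoImplicit false

namespace Pool.Agent.L7h18.DG

open Finset Polynomial Filter Topology
open Pool.Agent.N792 (Admissible eps gcdProd partialC Vc V1 fv)
open Pool.Agent.N792.SingTail
open Pool.Agent.TH204.WR (hh hh_nonneg)
open Pool.Agent.TH892.SW (wt wt_nonneg wt_le)
open Pool.Agent.H373R2.T7 (pz Vz mem_pz)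

noncomputable def quadP (α β γ : ℤ) : ℤ[X] := C α * X ^ 2 + C β * X + C γ

lemma quadP_deg (α β γ : ℤ) (hα : α ≠ 0) : (quadP α β γ).natDegree = 2 := natDegree_quadratic hα

lemma quadP_eval (α β γ m : ℤ) : (quadP α β γ).eval m = α * m ^ 2 + β * m + γ := by
  unfold quadP
  simp

lemma quadP_coeff (α β γ H : ℤ) (hα : |α| ≤ H) (hβ : |β| ≤ H) (hγ : |γ| ≤ H) (i : ℕ) :
    |(quadP α β γ).coeff i| ≤ H := by
  have hH : 0 ≤ H := (abs_nonneg _).trans hα
  unfold quadP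
  rw [coeff_add, coeff_add, coeff_C_mul, coeff_C_mul, coeff_X_pow, coeff_X, coeff_C]
  rcases i with _ | _ | _ | i
  · simpa using hγ
  · simpa using hβ
  · simpa using hα
  · simpa using hH

lemma rho_quad (α β γ t : ℤ) (p : ℕ) : Pool.Agent.TH204.WR.rho (quadP α β γ) t p = Pool.Agent.N792.rho α β (t + γ) p := by
  unfold Pool.Agent.TH204.WR.rho Pool.Agent.N792.rho
  congr 1
  apply filter_congr
  intro a _
  rw [quadP_eval]
  unfold fv
  rw [show α * (a : ℤ) ^ 2 + β * a + γ + t = α * (a : ℤ) ^ 2 + β * a + (t + γ) by ring]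

lemma hh_quad (α β γ t : ℤ) (z : ℕ) : hh (quadP α β γ) t z = Vc α β (t + γ) z / V1 z := by
  have e1 : ∏ p ∈ pz z, (1 - (Pool.Agent.TH204.WR.rho (quadP α β γ) t p : ℝ) / p) = Vc α β (t + γ) z := by
    unfold Vc pz
    exact prod_congr rfl fun p _ => by rw [rho_quad]
  have e2 : Vz z = V1 z := rfl
  unfold hh
  rw [e1, e2, inv_mul_eq_div]

lemma rho_lt {a b c : ℤ} (h : Admissible a b c) {z : ℕ} (hz : 2 ≤ z) (haz : a ≤ z) :
    ∀ p ∈ pz z, Pool.Agent.N792.rho a b c p < p := by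
  intro p hp
  have h1 := V_ratio h hz haz
  have h2 : 0 < eps a b * gcdProd a b * partialC a b c z :=
    mul_pos (mul_pos (eps_pos _ _) (gcdProd_pos _ _)) (partialC_pos _ _ _ _)
  rw [← h1] at h2
  have h4 : (1 - (Pool.Agent.N792.rho a b c p : ℝ) / p) ≠ 0 := by
    intro h0
    have h3 : Vc a b c z = 0 := by
      unfold Vc
      exact prod_eq_zero hp h0
    rw [h3, zero_div] at h2
    exact lt_irrefl _ h2
  have h5 : Pool.Agent.N792.rho a b c p ≤ p := by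
    unfold Pool.Agent.N792.rho
    exact (card_filter_le _ _).trans (card_range p).le
  rcases Nat.eq_or_lt_of_le h5 with h6 | h6
  · exfalso
    apply h4
    have hp0 : (p : ℝ) ≠ 0 := by
      have := (mem_pz.1 hp).2.ne_zero
      exact_mod_cast this
    rw [h6, div_self hp0, sub_self]
  · exact h6

/-- the product over the small primes is not small -/
lemma V1_low (E : ℕ) : ∃ K0 : ℕ, ∀ K : ℕ, K0 ≤ K → 2 / (K : ℝ) ≤ Vz (K ^ E) ^ 2 := by
  obtain ⟨N3, hN3⟩ := Pool.Agent.H373R2.T7.Vz_inv_small (8 * E)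
  refine ⟨(N3 + 4) ^ 4, fun K hK => ?_⟩
  obtain ⟨s, hs⟩ : ∃ s, s = Nat.sqrt (Nat.sqrt K) := ⟨_, rfl⟩
  have h1 : s ^ 4 ≤ K := by
    have h2 : s * s ≤ Nat.sqrt K := by rw [hs]; exact Nat.sqrt_le _
    have h3 := Nat.sqrt_le K
    calc s ^ 4 = (s * s) * (s * s) := by ring
      _ ≤ Nat.sqrt K * Nat.sqrt K := Nat.mul_le_mul h2 h2
      _ ≤ K := h3
  have h2 : K < (s + 1) ^ 4 := by
    have h3 : Nat.sqrt K < (s + 1) * (s + 1) := by
      rw [hs]
      exact Nat.sqrt_lt.1 (Nat.lt_succ_self _)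
    have h4 : K < (Nat.sqrt K + 1) * (Nat.sqrt K + 1) := Nat.sqrt_lt.1 (Nat.lt_succ_self _)
    calc K < (Nat.sqrt K + 1) * (Nat.sqrt K + 1) := h4
      _ ≤ ((s + 1) * (s + 1)) * ((s + 1) * (s + 1)) := Nat.mul_le_mul (by omega) (by omega)
      _ = (s + 1) ^ 4 := by ring
  have h3 : N3 + 4 ≤ s := by
    by_contra hcon
    push Not at hcon
    have h4 : (s + 1) ^ 4 ≤ (N3 + 4) ^ 4 := Nat.pow_le_pow_left (by omega) 4
    omega
  obtain ⟨Y, hY⟩ : ∃ Y, Y = 2 ^ s := ⟨_, rfl⟩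
  have hYN : N3 ≤ Y := by
    have : s < 2 ^ s := Nat.lt_two_pow_self
    omega
  have hlog : Real.log Y = s * Real.log 2 := by rw [hY]; push_cast; rw [Real.log_pow]
  have hsr : (4 : ℝ) ≤ s := by exact_mod_cast (by omega : 4 ≤ s)
  have hl2 := Real.log_two_gt_d9
  have hl3 := Real.log_two_lt_d9
  have hlogs : Real.log Y ≤ s := by rw [hlog]; nlinarith
  have hlogl : (0.69 : ℝ) * s ≤ Real.log Y := by rw [hlog]; nlinarith
  have hK1 : 1 ≤ K := by
    have : 1 ≤ s ^ 4 := Nat.one_le_pow _ _ (by omega)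
    omega
  have hz1 : 1 ≤ K ^ E := Nat.one_le_pow _ _ (by omega)
  have hz2 : ((K ^ E : ℕ) : ℝ) ≤ Real.log Y ^ (8 * E) := by
    have h5 : ((s : ℝ) + 1) ≤ Real.log Y ^ 2 := by
      have h6 : ((0.69 : ℝ) * s) ^ 2 ≤ Real.log Y ^ 2 := pow_le_pow_left₀ (by positivity) hlogl 2
      nlinarith
    have h7 : (K : ℝ) ≤ ((s : ℝ) + 1) ^ 4 := by exact_mod_cast h2.le
    push_cast
    calc (K : ℝ) ^ E ≤ (((s : ℝ) + 1) ^ 4) ^ E := pow_le_pow_left₀ (by positivity) h7 _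
      _ ≤ ((Real.log Y ^ 2) ^ 4) ^ E := by gcongr
      _ = _ := by rw [← pow_mul, ← pow_mul]; congr 1; ring
  have h8 := hN3 Y hYN (K ^ E) hz1 hz2
  have hV := Pool.Agent.TH892.SW.Vz_pos hz1
  have h9 : 1 / (s : ℝ) ≤ Vz (K ^ E) := by
    rw [div_le_iff₀ (by linarith)]
    have h10 : (Vz (K ^ E))⁻¹ ≤ s := h8.trans hlogs
    rw [inv_le_comm₀ hV (by linarith)] at h10
    calc (1 : ℝ) = (s : ℝ)⁻¹ * s := by rw [inv_mul_cancel₀]; linarith
      _ ≤ Vz (K ^ E) * s := mul_le_mul_of_nonneg_right h10 (by linarith)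
  have h10 : (1 / (s : ℝ)) ^ 2 ≤ Vz (K ^ E) ^ 2 := pow_le_pow_left₀ (by positivity) h9 2
  refine le_trans ?_ h10
  have h11 : (s : ℝ) ^ 4 ≤ K := by exact_mod_cast h1
  have h12 : (0 : ℝ) < K := by exact_mod_cast hK1
  rw [div_pow, one_pow, div_le_div_iff₀ h12 (by positivity)]
  have h13 : (16 : ℝ) ≤ (s : ℝ) ^ 2 := by nlinarith
  have h14 : (16 : ℝ) * (s : ℝ) ^ 2 ≤ (s : ℝ) ^ 2 * (s : ℝ) ^ 2 := mul_le_mul_of_nonneg_right h13 (by positivity)
  have h15 : (s : ℝ) ^ 2 * (s : ℝ) ^ 2 = (s : ℝ) ^ 4 := by ring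
  linarith

/-- the main term is not small -/
lemma hh_low (F : ℤ[X]) (hF : F.natDegree ≤ 2) (t : ℤ) (z : ℕ) (hz : 1 ≤ z)
    (hρ : ∀ p ∈ pz z, Pool.Agent.TH204.WR.rho F t p < p) : Vz z ^ 2 ≤ hh F t z := by
  have hV := Pool.Agent.TH892.SW.Vz_pos hz
  have h1 : Vz z ^ 3 ≤ ∏ p ∈ pz z, (1 - (Pool.Agent.TH204.WR.rho F t p : ℝ) / p) := by
    unfold Vz
    rw [← prod_pow]
    apply Finset.prod_le_prod
    · intro p hp
      have hp2 := (mem_pz.1 hp).2.two_le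
      have : (2 : ℝ) ≤ p := by exact_mod_cast hp2
      have h3 : 1 / (p : ℝ) ≤ 1 := by rw [div_le_one (by linarith)]; linarith
      have h4 : 0 ≤ 1 - 1 / (p : ℝ) := by linarith
      positivity
    · intro p hp
      have hpp := (mem_pz.1 hp).2
      have hp2 := hpp.two_le
      have hlt := hρ p hp
      have hle := (Pool.Agent.TH204.WR.rho_le_deg F t p hpp hlt).trans hF
      have hp2r : (2 : ℝ) ≤ p := by exact_mod_cast hp2
      have hp0 : (0 : ℝ) < p := by linarith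
      obtain ⟨r, hr⟩ : ∃ r, r = Pool.Agent.TH204.WR.rho F t p := ⟨_, rfl⟩
      rw [← hr] at hlt hle ⊢
      obtain ⟨y, hy⟩ : ∃ y : ℝ, y = 1 / p := ⟨_, rfl⟩
      have hy0 : 0 < y := by rw [hy]; positivity
      have e1 : (r : ℝ) / p = r * y := by rw [hy]; ring
      rw [e1, ← hy]
      rcases Nat.lt_or_ge p 3 with h5 | h5
      · have hp' : p = 2 := by omega
        have hr1 : r ≤ 1 := by omega
        have hr1' : (r : ℝ) ≤ 1 := by exact_mod_cast hr1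
        have hy2 : y = 1 / 2 := by rw [hy, hp']; norm_num
        rw [hy2]
        nlinarith
      · have h3 : (3 : ℝ) ≤ p := by exact_mod_cast h5
        have hy3 : y ≤ 1 / 3 := by rw [hy]; exact one_div_le_one_div_of_le (by norm_num) h3
        have hr2 : (r : ℝ) ≤ 2 := by exact_mod_cast hle
        have h6 : (r : ℝ) * y ≤ 2 * y := mul_le_mul_of_nonneg_right hr2 hy0.le
        have h7 : (1 - y) ^ 3 ≤ 1 - 2 * y := by nlinarith [mul_pos hy0 hy0, mul_nonneg hy0.le (sub_nonneg.2 hy3)]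
        linarith
  unfold hh
  rw [inv_mul_eq_div, le_div_iff₀ hV]
  calc Vz z ^ 2 * Vz z = Vz z ^ 3 := by ring
    _ ≤ _ := h1

/-- the number of primes among the values -/
noncomputable def pcount (α β c u v : ℤ) : ℕ := #((Ioc u v).filter (fun m : ℤ => (α * m ^ 2 + β * m + c).toNat.Prime))

/-- the sum of `1 / log` -/
noncomputable def lsum (α β c u v : ℤ) : ℝ :=
  ∑ m ∈ (Ioc u v).filter (fun m : ℤ => 2 ≤ α * m ^ 2 + β * m + c), 1 / Real.log ((α * m ^ 2 + β * m + c : ℤ) : ℝ)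

lemma gp_sum (α β γ t : ℤ) (M : ℝ) (u v : ℤ) : ∑ m ∈ Ioc u v, gp (quadP α β γ) t M m =
    pcount α β (t + γ) u v - M * lsum α β (t + γ) u v := by
  unfold pcount lsum gp
  rw [card_filter, sum_filter]
  simp only [Nat.cast_sum, Nat.cast_ite, Nat.cast_one, Nat.cast_zero]
  rw [mul_sum, ← sum_sub_distrib]
  refine sum_congr rfl fun m _ => ?_
  rw [quadP_eval, show α * m ^ 2 + β * m + γ + t = α * m ^ 2 + β * m + (t + γ) by ring]

lemma lsum_bound (α β c u v : ℤ) (T : ℝ) (hu : |(u : ℝ)| ≤ T) (hv : |(v : ℝ)| ≤ T) :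
    0 ≤ lsum α β c u v ∧ lsum α β c u v ≤ 3 * T := by
  have hterm : ∀ m : ℤ, 2 ≤ α * m ^ 2 + β * m + c → 0 ≤ 1 / Real.log ((α * m ^ 2 + β * m + c : ℤ) : ℝ) ∧
      1 / Real.log ((α * m ^ 2 + β * m + c : ℤ) : ℝ) ≤ 3 / 2 := by
    intro m h
    obtain ⟨y, hy⟩ : ∃ y : ℕ, α * m ^ 2 + β * m + c = y := ⟨(α * m ^ 2 + β * m + c).toNat, by omega⟩
    rw [hy] at h ⊢
    rw [Int.cast_natCast]
    exact ⟨wt_nonneg _, wt_le (by omega)⟩
  have hT : 0 ≤ T := (abs_nonneg _).trans hu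
  constructor
  · exact sum_nonneg fun m hm => (hterm m (mem_filter.1 hm).2).1
  · calc lsum α β c u v ≤ ∑ _m ∈ (Ioc u v).filter (fun m : ℤ => 2 ≤ α * m ^ 2 + β * m + c), (3 / 2 : ℝ) :=
          sum_le_sum fun m hm => (hterm m (mem_filter.1 hm).2).2
      _ = (#((Ioc u v).filter (fun m : ℤ => 2 ≤ α * m ^ 2 + β * m + c)) : ℝ) * (3 / 2) := by
          rw [sum_const, nsmul_eq_mul]
      _ ≤ (2 * T) * (3 / 2) := by
          apply mul_le_mul_of_nonneg_right _ (by norm_num)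
          have h1 : #((Ioc u v).filter (fun m : ℤ => 2 ≤ α * m ^ 2 + β * m + c)) ≤ (v - u).toNat := by
            refine (card_filter_le _ _).trans ?_
            rw [Int.card_Ioc]
          have h2 : (((v - u).toNat : ℕ) : ℝ) ≤ 2 * T := by
            rcases le_or_gt (v - u) 0 with h3 | h3
            · rw [Int.toNat_of_nonpos h3]
              simpa using hT
            · have h4 : ((((v - u).toNat : ℕ) : ℤ) : ℝ) = ((v - u : ℤ) : ℝ) := by
                rw [Int.toNat_of_nonneg h3.le]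
              rw [Int.cast_natCast] at h4
              rw [h4]
              push_cast
              have := (abs_le.1 hu).1
              have := (abs_le.1 hv).2
              linarith
          exact le_trans (by exact_mod_cast h1) h2
      _ = 3 * T := by ring

/-- **the Hardy-Littlewood formula** -/
theorem quad_final : ∃ n b₀ : ℕ, 1 ≤ n ∧ 2 ≤ b₀ ∧ ∀ b : ℕ, b₀ ≤ b → ∀ A U : ℕ,
    ∃ K0 : ℕ, ∀ K : ℕ, K0 ≤ K → ∀ w : ℕ → ℕ → ℝ, Law b w →
    (∀ i, (vari b (w i) * b) ^ n ≤ b) → ∀ c₁ : ℤ, |c₁| ≤ (K : ℤ) ^ A * (b : ℤ) ^ K →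
    ∃ Ex : Finset ℕ, Ex ⊆ range (b ^ K) ∧ ∑ c ∈ Ex, Wt b K w c ≤ 1 / (K : ℝ) ^ U ∧
    ∀ c < b ^ K, c ∉ Ex → ∀ α β γ : ℤ, 0 < α → α ≤ (K : ℤ) ^ A → |β| ≤ (K : ℤ) ^ A → |γ| ≤ (K : ℤ) ^ A →
      Admissible α β (c₁ + γ + c) →
      ∃ S : ℝ, 0 < S ∧ Tendsto (fun y => partialC α β (c₁ + γ + c) y) atTop (𝓝 S) ∧
        1 / (K : ℝ) ≤ eps α β * S * gcdProd α β ∧
        ∀ u v : ℤ, |(u : ℝ)| ≤ (K : ℝ) ^ A * √((b : ℝ) ^ K) → |(v : ℝ)| ≤ (K : ℝ) ^ A * √((b : ℝ) ^ K) →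
          |(pcount α β (c₁ + γ + c) u v : ℝ) - eps α β * S * gcdProd α β * lsum α β (c₁ + γ + c) u v| ≤
            √((b : ℝ) ^ K) / (K : ℝ) ^ U := by
  obtain ⟨n0, hn0, hprimes⟩ := primes_windows 2 (by norm_num)
  obtain ⟨b1, hb1, hB1⟩ := small_B n0 hn0
  obtain ⟨b2, hb2, hB2⟩ := small_B 4 (by norm_num)
  refine ⟨2 * n0 + 8, max b1 b2, by omega, hb1.trans (le_max_left _ _), fun b hb A U => ?_⟩
  have hbb1 : b1 ≤ b := (le_max_left _ _).trans hb
  have hbb2 : b2 ≤ b := (le_max_right _ _).trans hb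
  have hb2' : 2 ≤ b := hb1.trans hbb1
  obtain ⟨U', hU'⟩ : ∃ U', U' = U + A + 4 := ⟨_, rfl⟩
  obtain ⟨E1, hE1⟩ := hprimes b hb2' A U'
  obtain ⟨E2, hE2⟩ := tail_digits A U'
  obtain ⟨E, hE⟩ : ∃ E, E = E1 + E2 + A + 1 := ⟨_, rfl⟩
  obtain ⟨K1, hK1⟩ := hE1 E (by omega)
  obtain ⟨K2, hK2⟩ := hE2 E (by omega) b hb2'
  obtain ⟨K3, hK3⟩ := V1_low E
  refine ⟨max (max K1 K2) (8 + K3), fun K hK w hw hV c₁ hc₁ => ?_⟩
  have g1 : K1 ≤ K := le_trans (le_trans (le_max_left _ _) (le_max_left _ _)) hK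
  have g2 : K2 ≤ K := le_trans (le_trans (le_max_right _ _) (le_max_left _ _)) hK
  have g34 : 8 + K3 ≤ K := (le_max_right _ _).trans hK
  have g3 : 8 ≤ K := by omega
  have hlow := hK3 K (by omega)
  have hV1 : ∀ i, 1 ≤ vari b (w i) * b := fun i => vari_ge b (by omega) (w i) (hw i).1 (hw i).2
  have hpw : ∀ m : ℕ, m ≤ 2 * n0 + 8 → ∀ i, (vari b (w i) * b) ^ m ≤ b := fun m hm i =>
    (pow_le_pow_right₀ (hV1 i) hm).trans (hV i)
  have hgood1 : Good b n0 w := by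
    obtain ⟨B, hB0, hB1', hB2'⟩ := hB1 b hbb1 w hw (hpw _ (by omega))
    exact ⟨hw, fun i => hv b (w i), B, fun i v => hv_nonneg b (w i) v,
      fun i => cell_hv b hb2' (w i) (hw i).1 (hw i).2, hB0, hB1', hB2'⟩
  have hgood2 : Good b 4 w := by
    obtain ⟨B, hB0, hB1', hB2'⟩ := hB2 b hbb2 w hw (hpw _ (by omega))
    exact ⟨hw, fun i => hv b (w i), B, fun i v => hv_nonneg b (w i) v,
      fun i => cell_hv b hb2' (w i) (hw i).1 (hw i).2, hB0, hB1', hB2'⟩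
  obtain ⟨X1, hX1a, hX1b, hX1c⟩ := hK1 K g1 w hgood1 c₁ hc₁
  obtain ⟨X2, hX2a, hX2b, hX2c⟩ := hK2 K g2 w hgood2 (hpw 8 (by omega)) c₁ hc₁
  have hKr : (8 : ℝ) ≤ K := by exact_mod_cast g3
  have hK0 : (0 : ℝ) < K := by linarith
  have hK1' : (1 : ℝ) ≤ K := by linarith
  have hKp : ∀ n : ℕ, (0 : ℝ) < (K : ℝ) ^ n := fun n => by positivity
  have hKp1 : ∀ n : ℕ, (1 : ℝ) ≤ (K : ℝ) ^ n := fun n => one_le_pow₀ hK1'
  have hbr : (0 : ℝ) < b := by exact_mod_cast (by omega : 0 < b)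
  obtain ⟨x, hx⟩ : ∃ x, x = xr b K 2 := ⟨_, rfl⟩
  have hx1 := xr_ge b K 2 (by omega)
  have hxs : √((b : ℝ) ^ K) = x := by
    have h1 := xr_pow b K 2 (by norm_num)
    rw [← hx] at h1 hx1
    rw [← h1]
    exact Real.sqrt_sq (by linarith)
  rw [← hx] at hX1c hx1
  rw [hxs]
  refine ⟨X1 ∪ X2, union_subset hX1a hX2a, ?_, ?_⟩
  · refine (sum_union_le b K w hw X1 X2).trans ((add_le_add hX1b hX2b).trans ?_)
    refine le_trans ?_ (two_terms K U (by omega))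
    have h1 : 1 / (K : ℝ) ^ U' ≤ 1 / (K : ℝ) ^ (U + 1) := by
      apply one_div_le_one_div_of_le (hKp _)
      exact pow_le_pow_right₀ hK1' (by omega)
    linarith
  · intro c hc hcE α β γ hα hαA hβ hγ hadm
    rw [mem_union, not_or] at hcE
    obtain ⟨S, hS0, hSlim, hSc⟩ := hX2c c hc hcE.2 α β γ hα hαA hβ hγ hadm
    have e0 : c₁ + γ + (c : ℤ) = c₁ + c + γ := by ring
    rw [e0] at hadm hSc hSlim ⊢
    have hz2 : 2 ≤ K ^ E := by
      have := Nat.le_self_pow (show E ≠ 0 by omega) K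
      omega
    have haz : α ≤ ((K ^ E : ℕ) : ℤ) := by
      refine hαA.trans ?_
      push_cast
      exact pow_le_pow_right₀ (by omega) (by omega)
    have hrho : ∀ p ∈ pz (K ^ E), Pool.Agent.TH204.WR.rho (quadP α β γ) (c₁ + c) p < p := by
      intro p hp
      rw [rho_quad]
      exact rho_lt hadm hz2 haz p hp
    obtain ⟨hM2, hwin⟩ := hX1c c hc hcE.1 (quadP α β γ) (quadP_deg α β γ hα.ne')
      (quadP_coeff α β γ _ (by rw [abs_of_pos hα]; exact hαA) hβ hγ) hrho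
    have hM0 := hh_nonneg (quadP α β γ) (c₁ + c) (K ^ E) (by omega)
    have hMl := hlow.trans (hh_low (quadP α β γ) (le_of_eq (quadP_deg α β γ hα.ne')) (c₁ + c) (K ^ E) (by omega) hrho)
    rw [hh_quad] at hM2 hM0 hwin hMl
    obtain ⟨M, hM⟩ : ∃ M, M = Vc α β (c₁ + c + γ) (K ^ E) / V1 (K ^ E) := ⟨_, rfl⟩
    rw [← hM] at hwin hM2 hM0 hSc hMl
    refine ⟨S, hS0, hSlim, ?_, fun u v hu hv => ?_⟩
    · have h1 := (abs_le.1 hSc).1
      have h2 : M / (K : ℝ) ^ U' ≤ M / 2 := by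
        apply div_le_div_of_nonneg_left hM0 (by norm_num)
        calc (2 : ℝ) ≤ K := by linarith
          _ = K ^ 1 := (pow_one _).symm
          _ ≤ (K : ℝ) ^ U' := pow_le_pow_right₀ hK1' (by omega)
      have h3 : 1 / (K : ℝ) = (2 / K) / 2 := by ring
      linarith
    have h1 := hwin u v hu hv
    rw [gp_sum] at h1
    obtain ⟨L, hL⟩ : ∃ L, L = lsum α β (c₁ + c + γ) u v := ⟨_, rfl⟩
    obtain ⟨hL0, hL1⟩ := lsum_bound α β (c₁ + c + γ) u v _ hu hv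
    rw [← hL] at h1 hL0 hL1 ⊢
    have h2 : |(eps α β * S * gcdProd α β - M) * L| ≤ M / (K : ℝ) ^ U' * L := by
      rw [abs_mul, abs_of_nonneg hL0]
      exact mul_le_mul_of_nonneg_right hSc hL0
    have h3 : M / (K : ℝ) ^ U' * L ≤ 3 * (x / (K : ℝ) ^ (U + 2)) := by
      calc M / (K : ℝ) ^ U' * L ≤ (K : ℝ) ^ 2 / (K : ℝ) ^ U' * (3 * ((K : ℝ) ^ A * x)) := by
            apply mul_le_mul _ hL1 hL0 (by positivity)
            exact div_le_div_of_nonneg_right hM2 (hKp _).le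
        _ = 3 * (x / (K : ℝ) ^ (U + 2)) := by
            have e1 : (K : ℝ) ^ U' = (K : ℝ) ^ (U + 2) * (K : ℝ) ^ 2 * (K : ℝ) ^ A := by rw [hU']; ring
            rw [e1]
            have := (hKp (U + 2)).ne'
            have := (hKp 2).ne'
            have := (hKp A).ne'
            field_simp
    have h4 : x / (K : ℝ) ^ U' ≤ x / (K : ℝ) ^ (U + 2) :=
      div_le_div_of_nonneg_left (by linarith) (hKp _) (pow_le_pow_right₀ hK1' (by omega))
    have e5 : x / (K : ℝ) ^ U = K ^ 2 * (x / (K : ℝ) ^ (U + 2)) := by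
      rw [pow_add]
      have := (hKp U).ne'
      field_simp
    have h6 : 0 ≤ x / (K : ℝ) ^ (U + 2) := by
      apply div_nonneg (by linarith) (hKp _).le
    have h7 : 4 * (x / (K : ℝ) ^ (U + 2)) ≤ K ^ 2 * (x / (K : ℝ) ^ (U + 2)) := by
      apply mul_le_mul_of_nonneg_right _ h6
      nlinarith
    have e6 : (pcount α β (c₁ + c + γ) u v : ℝ) - eps α β * S * gcdProd α β * L =
        ((pcount α β (c₁ + c + γ) u v : ℝ) - M * L) - (eps α β * S * gcdProd α β - M) * L := by ring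
    rw [e6, e5]
    have := abs_sub ((pcount α β (c₁ + c + γ) u v : ℝ) - M * L) ((eps α β * S * gcdProd α β - M) * L)
    linarith

end Pool.Agent.L7h18.DG
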